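import Mathlib

/-! # Module Osg: a holomorphic function of two variables is analytic

PROOF. Let `(z₀, w₀) ∈ U`, `r > 0` with `closedBall z₀ r ×ˢ closedBall w₀ r ⊆ U` (sup norm on
`ℂ × ℂ`). For `|z - z₀| < r`, `|w - w₀| < r` the one variable Cauchy formula used twice gives
`g (z,w) = (2πi)^{-2} ∮_ζ (ζ - z)⁻¹ • ∮_η (η - w)⁻¹ • g (ζ,η)`
(`Complex.circleIntegral_sub_inv_smul_of_differentiable_on_off_countable` or
`DifferentiableOn.circleIntegral_sub_inv_smul`).
Let `K` be the circle as a compact type (or use `ℝ` and `2π`-periodic functions: any compact `K`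
with a continuous parametrisation by `θ ∈ [0, 2π]`), `A = C(K, ℂ)` (a Banach algebra). The map
`(a,b) ↦ (2πi)^{-2} ∮_ζ a ζ • ∮_η b η • g (ζ,η)` is a continuous bilinear map `A → A → E`
(`LinearMap.mkContinuous₂`; bound by `r² sup |g|`), so analytic. The map `z ↦ k_z ∈ A`,
`k_z ζ = (ζ - z)⁻¹`, is analytic near `z₀`: `k_z = Ring.inverse (ι - z • 1)` and `Ring.inverse` is
analytic at units (`analyticAt_inverse`). So `g` is a composition of analytic maps near
`(z₀, w₀)`. -/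

namespace Pool.Agent.MP_fe3720.NF

open Set Topology Filter Metric

open BoundedContinuousFunction

/-- the parametrisation of the circle as a bounded function -/
private noncomputable def osk (c : ℂ) (r : ℝ) : ℝ →ᵇ ℂ :=
  BoundedContinuousFunction.ofNormedAddCommGroup (circleMap c r) (continuous_circleMap c r) (‖c‖ + |r|)
    (fun θ => by
      have h : circleMap c r θ = c + circleMap 0 r θ := by simp [circleMap]
      rw [h]
      exact (norm_add_le _ _).trans (by rw [norm_circleMap_zero]))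

private theorem osk_apply (c : ℂ) (r θ : ℝ) : osk c r θ = circleMap c r θ := rfl

private theorem osk_inv {c z : ℂ} {r : ℝ} (hz : z ∈ ball c r) :
    IsUnit (osk c r - z • (1 : ℝ →ᵇ ℂ)) ∧
      ∀ θ : ℝ, (Ring.inverse (osk c r - z • (1 : ℝ →ᵇ ℂ))) θ = (circleMap c r θ - z)⁻¹ := by
  have hr : 0 < r := dist_nonneg.trans_lt (mem_ball.1 hz)
  have hd : 0 < r - ‖z - c‖ := by
    have := mem_ball_iff_norm.1 hz
    linarith
  have hlow : ∀ θ, r - ‖z - c‖ ≤ ‖circleMap c r θ - z‖ := by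
    intro θ
    have h1 : ‖circleMap c r θ - c‖ = r := by
      rw [circleMap_sub_center, norm_circleMap_zero, abs_of_pos hr]
    have h2 : circleMap c r θ - c = (circleMap c r θ - z) + (z - c) := by ring
    have h3 : ‖circleMap c r θ - c‖ ≤ ‖circleMap c r θ - z‖ + ‖z - c‖ := by
      rw [h2]
      exact norm_add_le _ _
    linarith
  let v : ℝ →ᵇ ℂ := BoundedContinuousFunction.ofNormedAddCommGroup (fun θ => (circleMap c r θ - z)⁻¹)
    (continuous_circleMap_inv hz) (r - ‖z - c‖)⁻¹ (fun θ => by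
      rw [norm_inv]
      exact inv_anti₀ hd (hlow θ))
  have h1 : (osk c r - z • (1 : ℝ →ᵇ ℂ)) * v = 1 := by
    ext θ
    have h2 : circleMap c r θ - z ≠ 0 := by
      intro h
      have := hlow θ
      rw [h, norm_zero] at this
      linarith
    change (circleMap c r θ - z • (1 : ℂ)) * (circleMap c r θ - z)⁻¹ = 1
    rw [smul_eq_mul, mul_one]
    exact mul_inv_cancel₀ h2
  let u : (ℝ →ᵇ ℂ)ˣ := ⟨osk c r - z • (1 : ℝ →ᵇ ℂ), v, h1, by rw [mul_comm]; exact h1⟩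
  refine ⟨⟨u, rfl⟩, fun θ => ?_⟩
  have h2 : Ring.inverse (osk c r - z • (1 : ℝ →ᵇ ℂ)) = v := Ring.inverse_unit u
  rw [h2]
  rfl

private theorem osk_an {c z : ℂ} {r : ℝ} (hz : z ∈ ball c r) :
    AnalyticAt ℂ (fun y : ℂ => Ring.inverse (osk c r - y • (1 : ℝ →ᵇ ℂ))) z := by
  obtain ⟨u, hu⟩ := (osk_inv hz).1
  have h1 : AnalyticAt ℂ (Ring.inverse : (ℝ →ᵇ ℂ) → (ℝ →ᵇ ℂ)) (osk c r - z • (1 : ℝ →ᵇ ℂ)) := by
    rw [← hu]
    exact analyticAt_inverse u
  have h2 : AnalyticAt ℂ (fun y : ℂ => osk c r - y • (1 : ℝ →ᵇ ℂ)) z :=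
    analyticAt_const.sub (analyticAt_id.smul analyticAt_const)
  exact AnalyticAt.fun_comp h1 h2

/-- the bilinear map -/
private theorem osB {E : Type*} [NormedAddCommGroup E] [NormedSpace ℂ E] {p q : ℝ → ℂ}
    (hp : Continuous p) (hq : Continuous q) {G : ℝ → ℝ → E} (hG : Continuous (Function.uncurry G)) :
    ∃ B : (ℝ →ᵇ ℂ) →L[ℂ] (ℝ →ᵇ ℂ) →L[ℂ] E, ∀ a b, B a b =
      ∫ θ in (0 : ℝ)..2 * Real.pi, p θ • (a θ • ∫ τ in (0 : ℝ)..2 * Real.pi, q τ • (b τ • G θ τ)) := by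
  have hin : ∀ (b : ℝ →ᵇ ℂ) (θ : ℝ), Continuous fun τ => q τ • (b τ • G θ τ) := by
    intro b θ
    have h1 : Continuous (G θ) := hG.comp (Continuous.prodMk continuous_const continuous_id)
    exact hq.smul (b.continuous.smul h1)
  have hH : ∀ b : ℝ →ᵇ ℂ, Continuous fun θ => ∫ τ in (0 : ℝ)..2 * Real.pi, q τ • (b τ • G θ τ) := by
    intro b
    refine intervalIntegral.continuous_parametric_intervalIntegral_of_continuous' ?_ _ _
    have h1 : Continuous fun x : ℝ × ℝ => q x.2 • (b x.2 • G x.1 x.2) :=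
      (hq.comp continuous_snd).smul ((b.continuous.comp continuous_snd).smul hG)
    exact h1
  have hout : ∀ a b : ℝ →ᵇ ℂ, Continuous fun θ => p θ • (a θ • ∫ τ in (0 : ℝ)..2 * Real.pi, q τ • (b τ • G θ τ)) :=
    fun a b => hp.smul (a.continuous.smul (hH b))
  have hcont : Continuous fun x : ℝ × ℝ => ‖p x.1‖ * (‖q x.2‖ * ‖G x.1 x.2‖) :=
    (hp.comp continuous_fst).norm.mul ((hq.comp continuous_snd).norm.mul hG.norm)
  obtain ⟨M, hM⟩ := (isCompact_Icc.prod isCompact_Icc :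
    IsCompact (Icc (0 : ℝ) (2 * Real.pi) ×ˢ Icc (0 : ℝ) (2 * Real.pi))).exists_bound_of_continuousOn
      hcont.continuousOn
  have hpi : (0 : ℝ) ≤ 2 * Real.pi := by positivity
  let L : (ℝ →ᵇ ℂ) →ₗ[ℂ] (ℝ →ᵇ ℂ) →ₗ[ℂ] E := LinearMap.mk₂ ℂ
    (fun a b => ∫ θ in (0 : ℝ)..2 * Real.pi, p θ • (a θ • ∫ τ in (0 : ℝ)..2 * Real.pi, q τ • (b τ • G θ τ)))
    (by
      intro a a' b
      rw [← intervalIntegral.integral_add ((hout a b).intervalIntegrable _ _)
        ((hout a' b).intervalIntegrable _ _)]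
      refine intervalIntegral.integral_congr fun θ _ => ?_
      change p θ • ((a θ + a' θ) • _) = _
      rw [add_smul, smul_add])
    (by
      intro c a b
      rw [← intervalIntegral.integral_smul]
      refine intervalIntegral.integral_congr fun θ _ => ?_
      change p θ • ((c * a θ) • _) = _
      rw [mul_smul, smul_comm])
    (by
      intro a b b'
      rw [← intervalIntegral.integral_add ((hout a b).intervalIntegrable _ _)
        ((hout a b').intervalIntegrable _ _)]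
      refine intervalIntegral.integral_congr fun θ _ => ?_
      change p θ • (a θ • ∫ τ in (0 : ℝ)..2 * Real.pi, q τ • ((b τ + b' τ) • G θ τ)) =
        p θ • (a θ • ∫ τ in (0 : ℝ)..2 * Real.pi, q τ • (b τ • G θ τ)) +
          p θ • (a θ • ∫ τ in (0 : ℝ)..2 * Real.pi, q τ • (b' τ • G θ τ))
      rw [← smul_add, ← smul_add, ← intervalIntegral.integral_add ((hin b θ).intervalIntegrable _ _)
        ((hin b' θ).intervalIntegrable _ _)]
      congr 2
      refine intervalIntegral.integral_congr fun τ _ => ?_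
      rw [add_smul, smul_add])
    (by
      intro c a b
      rw [← intervalIntegral.integral_smul]
      refine intervalIntegral.integral_congr fun θ _ => ?_
      change p θ • (a θ • ∫ τ in (0 : ℝ)..2 * Real.pi, q τ • ((c * b τ) • G θ τ)) =
        c • (p θ • (a θ • ∫ τ in (0 : ℝ)..2 * Real.pi, q τ • (b τ • G θ τ)))
      have h1 : ∫ τ in (0 : ℝ)..2 * Real.pi, q τ • ((c * b τ) • G θ τ) =
          c • ∫ τ in (0 : ℝ)..2 * Real.pi, q τ • (b τ • G θ τ) := by
        rw [← intervalIntegral.integral_smul]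
        refine intervalIntegral.integral_congr fun τ _ => ?_
        change q τ • ((c * b τ) • G θ τ) = c • (q τ • (b τ • G θ τ))
        rw [mul_smul, smul_comm]
      rw [h1, smul_comm (a θ) c, smul_comm (p θ) c])
  refine ⟨L.mkContinuous₂ ((M * (2 * Real.pi)) * (2 * Real.pi)) ?_, fun a b => rfl⟩
  intro a b
  change ‖∫ θ in (0 : ℝ)..2 * Real.pi, p θ • (a θ • ∫ τ in (0 : ℝ)..2 * Real.pi, q τ • (b τ • G θ τ))‖ ≤ _
  have habs : |2 * Real.pi - 0| = 2 * Real.pi := by rw [sub_zero, abs_of_nonneg hpi]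
  have key : ∀ θ ∈ Set.uIoc (0 : ℝ) (2 * Real.pi),
      ‖p θ • (a θ • ∫ τ in (0 : ℝ)..2 * Real.pi, q τ • (b τ • G θ τ))‖ ≤
        ‖a‖ * ‖b‖ * (M * (2 * Real.pi)) := by
    intro θ hθ
    rw [Set.uIoc_of_le hpi] at hθ
    have hθ' : θ ∈ Icc (0 : ℝ) (2 * Real.pi) := ⟨hθ.1.le, hθ.2⟩
    have h1 : p θ • (a θ • ∫ τ in (0 : ℝ)..2 * Real.pi, q τ • (b τ • G θ τ)) =
        ∫ τ in (0 : ℝ)..2 * Real.pi, p θ • (a θ • (q τ • (b τ • G θ τ))) := by
      rw [intervalIntegral.integral_smul, intervalIntegral.integral_smul]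
    rw [h1]
    refine (intervalIntegral.norm_integral_le_of_norm_le_const (C := ‖a‖ * ‖b‖ * M) ?_).trans (le_of_eq ?_)
    · intro τ hτ
      rw [Set.uIoc_of_le hpi] at hτ
      have hτ' : τ ∈ Icc (0 : ℝ) (2 * Real.pi) := ⟨hτ.1.le, hτ.2⟩
      have h2 := hM (θ, τ) ⟨hθ', hτ'⟩
      rw [Real.norm_of_nonneg (by positivity)] at h2
      rw [norm_smul, norm_smul, norm_smul, norm_smul]
      have ha : ‖a θ‖ ≤ ‖a‖ := a.norm_coe_le_norm θ
      have hb : ‖b τ‖ ≤ ‖b‖ := b.norm_coe_le_norm τ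
      calc ‖p θ‖ * (‖a θ‖ * (‖q τ‖ * (‖b τ‖ * ‖G θ τ‖)))
          = ‖a θ‖ * ‖b τ‖ * (‖p θ‖ * (‖q τ‖ * ‖G θ τ‖)) := by ring
        _ ≤ ‖a‖ * ‖b‖ * M :=
          mul_le_mul (mul_le_mul ha hb (norm_nonneg _) (norm_nonneg _)) h2 (by positivity) (by positivity)
    · rw [habs]
      ring
  refine (intervalIntegral.norm_integral_le_of_norm_le_const key).trans (le_of_eq ?_)
  rw [habs]
  ring

theorem osg {E : Type*} [NormedAddCommGroup E] [NormedSpace ℂ E] [CompleteSpace E]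
    {U : Set (ℂ × ℂ)} (hU : IsOpen U) {g : ℂ × ℂ → E} (hg : DifferentiableOn ℂ g U) :
    AnalyticOnNhd ℂ g U := by
  rintro ⟨z₀, w₀⟩ hx
  obtain ⟨ε, hε, hball⟩ := Metric.isOpen_iff.1 hU _ hx
  set r : ℝ := ε / 2 with hrdef
  have hr : 0 < r := by positivity
  have hsub : closedBall z₀ r ×ˢ closedBall w₀ r ⊆ U := by
    intro x hx
    apply hball
    rw [mem_ball, Prod.dist_eq, max_lt_iff]
    have h1 := mem_closedBall.1 hx.1
    have h2 := mem_closedBall.1 hx.2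
    constructor <;> simp only <;> linarith
  have hGc : Continuous (Function.uncurry fun θ τ : ℝ => g (circleMap z₀ r θ, circleMap w₀ r τ)) := by
    have h1 : Continuous fun x : ℝ × ℝ => (circleMap z₀ r x.1, circleMap w₀ r x.2) :=
      ((continuous_circleMap z₀ r).comp continuous_fst).prodMk ((continuous_circleMap w₀ r).comp continuous_snd)
    exact hg.continuousOn.comp_continuous h1 fun x =>
      hsub ⟨circleMap_mem_closedBall z₀ hr.le x.1, circleMap_mem_closedBall w₀ hr.le x.2⟩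
  have hdc : ∀ c : ℂ, Continuous fun θ => deriv (circleMap c r) θ := by
    intro c
    simp only [deriv_circleMap]
    exact (continuous_circleMap 0 r).mul continuous_const
  obtain ⟨B, hB⟩ := osB (hdc z₀) (hdc w₀) hGc
  have hform : ∀ x ∈ ball z₀ r ×ˢ ball w₀ r,
      ((2 * Real.pi * Complex.I : ℂ)⁻¹ * (2 * Real.pi * Complex.I : ℂ)⁻¹) •
        B (Ring.inverse (osk z₀ r - x.1 • (1 : ℝ →ᵇ ℂ))) (Ring.inverse (osk w₀ r - x.2 • (1 : ℝ →ᵇ ℂ))) = g x := by
    rintro ⟨z, w⟩ ⟨hz, hw⟩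
    have hπ : (2 * Real.pi * Complex.I : ℂ) ≠ 0 := by
      simp [Real.pi_ne_zero, Complex.I_ne_zero]
    rw [hB]
    simp only [(osk_inv hz).2, (osk_inv hw).2]
    have hin : ∀ ζ ∈ closedBall z₀ r, (∮ η in C(w₀, r), (η - w)⁻¹ • g (ζ, η)) = (2 * Real.pi * Complex.I : ℂ) • g (ζ, w) := by
      intro ζ hζ
      refine DifferentiableOn.circleIntegral_sub_inv_smul (f := fun η => g (ζ, η)) ?_ hw
      have h1 : DifferentiableOn ℂ (fun η : ℂ => ((ζ, η) : ℂ × ℂ)) (closedBall w₀ r) :=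
        ((differentiable_const ζ).prodMk differentiable_id).differentiableOn
      exact DifferentiableOn.comp hg h1 fun η hη => hsub ⟨hζ, hη⟩
    have hout : (∮ ζ in C(z₀, r), (ζ - z)⁻¹ • g (ζ, w)) = (2 * Real.pi * Complex.I : ℂ) • g (z, w) := by
      refine DifferentiableOn.circleIntegral_sub_inv_smul (f := fun ζ => g (ζ, w)) ?_ hz
      have h1 : DifferentiableOn ℂ (fun ζ : ℂ => ((ζ, w) : ℂ × ℂ)) (closedBall z₀ r) :=
        (differentiable_id.prodMk (differentiable_const w)).differentiableOn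
      exact DifferentiableOn.comp hg h1 fun ζ hζ => hsub ⟨hζ, ball_subset_closedBall hw⟩
    have h2 : (∫ θ in (0 : ℝ)..2 * Real.pi, deriv (circleMap z₀ r) θ • ((circleMap z₀ r θ - z)⁻¹ •
        ∫ τ in (0 : ℝ)..2 * Real.pi, deriv (circleMap w₀ r) τ • ((circleMap w₀ r τ - w)⁻¹ •
          g (circleMap z₀ r θ, circleMap w₀ r τ)))) =
        (2 * Real.pi * Complex.I : ℂ) • ∮ ζ in C(z₀, r), (ζ - z)⁻¹ • g (ζ, w) := by
      rw [circleIntegral, ← intervalIntegral.integral_smul]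
      refine intervalIntegral.integral_congr fun θ _ => ?_
      have h3 := hin (circleMap z₀ r θ) (circleMap_mem_closedBall z₀ hr.le θ)
      rw [circleIntegral] at h3
      change deriv (circleMap z₀ r) θ • ((circleMap z₀ r θ - z)⁻¹ •
        ∫ τ in (0 : ℝ)..2 * Real.pi, deriv (circleMap w₀ r) τ • ((circleMap w₀ r τ - w)⁻¹ •
          g (circleMap z₀ r θ, circleMap w₀ r τ))) = (2 * Real.pi * Complex.I : ℂ) •
          (deriv (circleMap z₀ r) θ • ((circleMap z₀ r θ - z)⁻¹ • g (circleMap z₀ r θ, w)))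
      rw [h3, smul_comm ((circleMap z₀ r θ - z)⁻¹), smul_comm (deriv (circleMap z₀ r) θ)]
    rw [h2, hout, smul_smul, smul_smul]
    have h4 : (2 * Real.pi * Complex.I : ℂ)⁻¹ * (2 * Real.pi * Complex.I : ℂ)⁻¹ *
        (2 * Real.pi * Complex.I) * (2 * Real.pi * Complex.I) = 1 := by
      field_simp
    rw [h4, one_smul]
  have han : AnalyticAt ℂ (fun x : ℂ × ℂ => ((2 * Real.pi * Complex.I : ℂ)⁻¹ * (2 * Real.pi * Complex.I : ℂ)⁻¹) •
        B (Ring.inverse (osk z₀ r - x.1 • (1 : ℝ →ᵇ ℂ))) (Ring.inverse (osk w₀ r - x.2 • (1 : ℝ →ᵇ ℂ))))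
      (z₀, w₀) := by
    have h1 : AnalyticAt ℂ (fun x : ℂ × ℂ => Ring.inverse (osk z₀ r - x.1 • (1 : ℝ →ᵇ ℂ))) (z₀, w₀) :=
      AnalyticAt.fun_comp (f := fun x : ℂ × ℂ => x.1) (x := (z₀, w₀)) (osk_an (mem_ball_self hr)) analyticAt_fst
    have h2 : AnalyticAt ℂ (fun x : ℂ × ℂ => Ring.inverse (osk w₀ r - x.2 • (1 : ℝ →ᵇ ℂ))) (z₀, w₀) :=
      AnalyticAt.fun_comp (f := fun x : ℂ × ℂ => x.2) (x := (z₀, w₀)) (osk_an (mem_ball_self hr)) analyticAt_snd
    have h3 : AnalyticAt ℂ (fun x : ℂ × ℂ => B (Ring.inverse (osk z₀ r - x.1 • (1 : ℝ →ᵇ ℂ)))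
        (Ring.inverse (osk w₀ r - x.2 • (1 : ℝ →ᵇ ℂ)))) (z₀, w₀) :=
      AnalyticAt.comp (g := fun y : (ℝ →ᵇ ℂ) × (ℝ →ᵇ ℂ) => B y.1 y.2)
        (f := fun x : ℂ × ℂ => (Ring.inverse (osk z₀ r - x.1 • (1 : ℝ →ᵇ ℂ)),
          Ring.inverse (osk w₀ r - x.2 • (1 : ℝ →ᵇ ℂ)))) (x := (z₀, w₀))
        (B.analyticAt_bilinear _) (h1.prod h2)
    exact analyticAt_const.smul h3
  refine han.congr ?_
  have hnh : ball z₀ r ×ˢ ball w₀ r ∈ 𝓝 (z₀, w₀) :=
    prod_mem_nhds (ball_mem_nhds z₀ hr) (ball_mem_nhds w₀ hr)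
  filter_upwards [hnh] with x hx
  exact hform x hx

end Pool.Agent.MP_fe3720.NF
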