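import Mathlib

/-! # Module Planar: two topological lemmas in the plane

`planar`: PROOF. Let `a ≠ b ∈ D \ C`, `m₀` their midpoint. For small real `t` the point
`m_t = m₀ + t i (b - a)` is in `D` (open), and the two segments `[a, m_t] ∪ [m_t, b]` are in `D`
(convex); for different `t` these paths meet only in `a, b`. As `C` is countable and `a, b ∉ C`,
there is `t` with no point of `C` on the path (uncountably many `t`: each point of `C` is on at most
one path). So `a, b` are joined by a connected subset of `D \ C`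
(`isPreconnected_of_forall_pair`).

`dich`: PROOF. `W₁ = {c ∈ D | U ∩ B = ∅ for some nhd B of c}`,
`W₂ = {c ∈ D | (B \ U).Countable for some nhd B of c}`: open, disjoint (a neighbourhood is not
countable: `not_countable` of balls, `Set.Countable` and `IsOpen`; e.g.
`Set.Countable.dense_compl ℝ`), they cover `D` (points of `U` are in `W₂`). `D` is preconnected: `D ⊆ W₁`, then
`U = ∅`; or `D ⊆ W₂`, then `D \ U` is locally countable, so countable (Lindelöf:
`TopologicalSpace.countable_cover_nhdsWithin` or `isLindelof`). -/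

namespace Pool.Agent.MP_fe3720.NF

open Set Topology Filter Metric

/-- the parameter of the path through a point -/
private noncomputable def tauP (a b c : ℂ) : ℝ :=
  if ((c - a) / (b - a)).re ≤ 1 / 2 then ((c - a) / (b - a)).im / (2 * ((c - a) / (b - a)).re)
  else ((c - a) / (b - a)).im / (2 * (1 - ((c - a) / (b - a)).re))

private theorem tau_one {a b c : ℂ} (hab : a ≠ b) {t s : ℝ} (hs : 0 < s) (hs1 : s ≤ 1)
    (hc : c = a + s • ((a + b) / 2 + t * Complex.I * (b - a) - a)) : tauP a b c = t := by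
  have hba : b - a ≠ 0 := sub_ne_zero.2 hab.symm
  have h1 : (c - a) / (b - a) = ((s / 2 : ℝ) : ℂ) + ((s * t : ℝ) : ℂ) * Complex.I := by
    rw [hc, div_eq_iff hba, Complex.real_smul]
    push_cast
    ring
  have hre : ((c - a) / (b - a)).re = s / 2 := by
    rw [h1]
    simp
  have him : ((c - a) / (b - a)).im = s * t := by
    rw [h1]
    simp
  unfold tauP
  rw [hre, him, if_pos (by linarith)]
  field_simp

private theorem tau_two {a b c : ℂ} (hab : a ≠ b) {t s : ℝ} (hs : 0 < s) (hs1 : s ≤ 1)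
    (hc : c = b + s • ((a + b) / 2 + t * Complex.I * (b - a) - b)) : tauP a b c = t := by
  have hba : b - a ≠ 0 := sub_ne_zero.2 hab.symm
  have h1 : (c - a) / (b - a) = ((1 - s / 2 : ℝ) : ℂ) + ((s * t : ℝ) : ℂ) * Complex.I := by
    rw [hc, div_eq_iff hba, Complex.real_smul]
    push_cast
    ring
  have hre : ((c - a) / (b - a)).re = 1 - s / 2 := by
    rw [h1]
    simp
  have him : ((c - a) / (b - a)).im = s * t := by
    rw [h1]
    simp
  unfold tauP
  rw [hre, him]
  split_ifs with h2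
  · have h3 : s = 1 := by linarith
    rw [h3]
    norm_num
  · have h3 : 2 * (1 - (1 - s / 2)) = s := by ring
    rw [h3, mul_comm, mul_div_assoc, div_self hs.ne', mul_one]

theorem planar {D : Set ℂ} (hD : IsOpen D) (hc : Convex ℝ D) {C : Set ℂ} (hC : C.Countable) :
    IsPreconnected (D \ C) := by
  refine isPreconnected_of_forall_pair fun a ha b hb => ?_
  rcases eq_or_ne a b with hab | hab
  · exact ⟨{a}, by simpa using ha, rfl, by rw [hab]; rfl, isPreconnected_singleton⟩
  have hm0 : (a + b) / 2 ∈ D := by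
    have h1 := hc ha.1 hb.1 (a := 1 / 2) (b := 1 / 2) (by norm_num) (by norm_num) (by norm_num)
    have h2 : (1 / 2 : ℝ) • a + (1 / 2 : ℝ) • b = (a + b) / 2 := by
      rw [Complex.real_smul, Complex.real_smul]
      push_cast
      ring
    rwa [h2] at h1
  have hcont : Continuous fun t : ℝ => (a + b) / 2 + (t : ℂ) * Complex.I * (b - a) := by
    fun_prop
  have hopen : IsOpen ((fun t : ℝ => (a + b) / 2 + (t : ℂ) * Complex.I * (b - a)) ⁻¹' D) :=
    hD.preimage hcont
  have hne : ((fun t : ℝ => (a + b) / 2 + (t : ℂ) * Complex.I * (b - a)) ⁻¹' D).Nonempty := by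
    refine ⟨0, ?_⟩
    change (a + b) / 2 + ((0 : ℝ) : ℂ) * Complex.I * (b - a) ∈ D
    have h3 : (a + b) / 2 + ((0 : ℝ) : ℂ) * Complex.I * (b - a) = (a + b) / 2 := by simp
    rw [h3]
    exact hm0
  obtain ⟨t, htD, htC⟩ := (Set.Countable.dense_compl ℝ (hC.image (tauP a b))).inter_open_nonempty
    _ hopen hne
  have htD' : (a + b) / 2 + (t : ℂ) * Complex.I * (b - a) ∈ D := htD
  have htC' : ∀ c ∈ C, tauP a b c ≠ t := by
    intro c hcC heq
    exact htC ⟨c, hcC, heq⟩
  refine ⟨segment ℝ a ((a + b) / 2 + (t : ℂ) * Complex.I * (b - a)) ∪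
    segment ℝ b ((a + b) / 2 + (t : ℂ) * Complex.I * (b - a)), ?_, Or.inl (left_mem_segment _ _ _),
    Or.inr (left_mem_segment _ _ _), ?_⟩
  · rintro c (hcs | hcs)
    · refine ⟨hc.segment_subset ha.1 htD' hcs, fun hcC => ?_⟩
      rw [segment_eq_image'] at hcs
      obtain ⟨s, hs, hsc⟩ := hcs
      rcases hs.1.eq_or_lt with h0 | h0
      · apply ha.2
        rw [← h0] at hsc
        have h4 : a = c := by simpa using hsc
        rw [h4]
        exact hcC
      · exact htC' c hcC (tau_one hab h0 hs.2 hsc.symm)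
    · refine ⟨hc.segment_subset hb.1 htD' hcs, fun hcC => ?_⟩
      rw [segment_eq_image'] at hcs
      obtain ⟨s, hs, hsc⟩ := hcs
      rcases hs.1.eq_or_lt with h0 | h0
      · apply hb.2
        rw [← h0] at hsc
        have h4 : b = c := by simpa using hsc
        rw [h4]
        exact hcC
      · exact htC' c hcC (tau_two hab h0 hs.2 hsc.symm)
  · exact (convex_segment _ _).isPreconnected.union _ (right_mem_segment _ _ _)
      (right_mem_segment _ _ _) (convex_segment _ _).isPreconnected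

private theorem not_countable_nhds {c : ℂ} {B : Set ℂ} (hB : B ∈ 𝓝 c) : ¬ B.Countable := by
  intro h
  have h1 := Set.Countable.dense_compl ℝ h
  obtain ⟨x, hx1, hx2⟩ := h1.inter_nhds_nonempty hB
  exact hx1 hx2

theorem dich {D U : Set ℂ} (hD : IsOpen D) (hDc : IsPreconnected D) (hU : IsOpen U) (hUD : U ⊆ D)
    (h : ∀ c ∈ D \ U, ∃ B ∈ 𝓝 c, U ∩ B = ∅ ∨ (B \ U).Countable) :
    U = ∅ ∨ (D \ U).Countable := by
  let W1 : Set ℂ := {c | ∃ B ∈ 𝓝 c, U ∩ B = ∅}
  let W2 : Set ℂ := {c | ∃ B ∈ 𝓝 c, (B \ U).Countable}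
  have hW1 : IsOpen W1 := by
    rw [isOpen_iff_mem_nhds]
    rintro c ⟨B, hB, hBU⟩
    filter_upwards [eventually_mem_nhds_iff.2 hB] with x hx
    exact ⟨B, hx, hBU⟩
  have hW2 : IsOpen W2 := by
    rw [isOpen_iff_mem_nhds]
    rintro c ⟨B, hB, hBU⟩
    filter_upwards [eventually_mem_nhds_iff.2 hB] with x hx
    exact ⟨B, hx, hBU⟩
  have hUW : U ⊆ W2 := fun c hcU => ⟨U, hU.mem_nhds hcU, by simp⟩
  have hcov : D ⊆ W1 ∪ W2 := by
    intro c hcD
    by_cases hcU : c ∈ U
    · exact Or.inr (hUW hcU)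
    · obtain ⟨B, hB, h1 | h1⟩ := h c ⟨hcD, hcU⟩
      · exact Or.inl ⟨B, hB, h1⟩
      · exact Or.inr ⟨B, hB, h1⟩
  by_cases h1 : (D ∩ W1).Nonempty
  · by_cases h2 : (D ∩ W2).Nonempty
    · obtain ⟨c, _, ⟨B1, hB1, hBU1⟩, ⟨B2, hB2, hBU2⟩⟩ := hDc W1 W2 hW1 hW2 hcov h1 h2
      exfalso
      refine not_countable_nhds (inter_mem hB1 hB2) (hBU2.mono ?_)
      rintro x ⟨hx1, hx2⟩
      refine ⟨hx2, fun hxU => ?_⟩
      have h3 : x ∈ U ∩ B1 := ⟨hxU, hx1⟩
      rw [hBU1] at h3
      exact h3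
    · left
      rw [Set.eq_empty_iff_forall_notMem]
      intro x hx
      exact h2 ⟨x, hUD hx, hUW hx⟩
  · right
    have h3 : ∀ c ∈ D, ∃ B ∈ 𝓝 c, (B \ U).Countable := by
      intro c hcD
      rcases hcov hcD with h4 | h4
      · exact absurd ⟨c, hcD, h4⟩ h1
      · exact h4
    choose! f hf hfc using h3
    obtain ⟨T, hTD, hTc, hT⟩ := TopologicalSpace.countable_cover_nhdsWithin (f := f) (s := D)
      (fun x hx => mem_nhdsWithin_of_mem_nhds (hf x hx))
    refine (hTc.biUnion fun x hx => hfc x (hTD hx)).mono ?_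
    rintro x ⟨hxD, hxU⟩
    obtain ⟨y, hy, hxy⟩ := Set.mem_iUnion₂.1 (hT hxD)
    exact Set.mem_iUnion₂.2 ⟨y, hy, hxy, hxU⟩

end Pool.Agent.MP_fe3720.NF
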