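import Pool.Agent.Work.MP_fe3720_an.NF.Defs
import Pool.Agent.Work.MP_fe3720_an.NF.Osg
import Pool.Agent.Work.MP_fe3720_an.NF.Planar

/-! # Module Sep (helper36): thin sets do not separate

`sep_gen`: `Z ⊆ E2` any set such that every open ball `ball x r ⊆ U` has `ball x r \ Z` nonempty
and preconnected. Then `U \ Z` is preconnected for `U` open preconnected (and nonempty if `U` is).
PROOF. Suppose `U \ Z ⊆ A ∪ B`, `A B` open, `U \ Z` meets both and `U \ Z ∩ (A ∩ B) = ∅`. Every ball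
in `U` has `ball \ Z` in exactly one of `A`, `B`; the two sets of centres are open, disjoint, cover `U`.

`ball_sep`: for a ball `b = ball x r ⊆ Ω` and `Z = {y | f y ∈ B} ∪ {y | V y = 0}` (`B` countable):
for two points `p, q ∈ b \ Z` let `L(ζ) = p + ζ (q - p)`, `D = L ⁻¹' b` convex open in `ℂ`. The set
`{ζ ∈ D | f (L ζ) ∈ B}` is countable: `f ∘ L` is holomorphic on `D`, either constant `= f p ∉ B`
(empty), or nonconstant and the preimage of every value is discrete in `D`, so countable. Same for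
`{ζ ∈ D | V (L ζ) = 0}` as `V (L 0) ≠ 0`. By `planar` the complement is preconnected, its image under
`L` is a preconnected subset of `b \ Z` containing `p`, `q`.
Nonempty: `f` is not constant on `b` (identity theorem, `osg`, `Ω` connected, `f` nonconstant), so
`f '' b` is uncountable (it contains a nonempty open set, or: nonconstant along some line); same for `V`;
find one point: the set `Z ∩ b` is a countable union of closed (in `b`) sets with empty interior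
(Baire), or: choose a point `p ∈ b` with `V p ≠ 0` and a line through `p` in `b` on which `f` is not
constant. -/

namespace Pool.Agent.MP_fe3720.NF

open Set Topology Filter Metric Pool.Agent.MP_fe3720.NR

variable {Ω : Set E2} {f : E2 → ℂ} {V : E2 → E2} {w : E2 → E2 → ℂ}

private theorem zeros_countable {E : Type*} [NormedAddCommGroup E] [NormedSpace ℂ E]
    [CompleteSpace E] {D : Set ℂ} (hD : IsOpen D) (hc : IsPreconnected D) {g : ℂ → E}
    (hg : DifferentiableOn ℂ g D) {z₀ : ℂ} (hz₀ : z₀ ∈ D) (hne : g z₀ ≠ 0) :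
    {z | z ∈ D ∧ g z = 0}.Countable := by
  have han : AnalyticOnNhd ℂ g D := hg.analyticOnNhd hD
  obtain ⟨t, -, htc, ht⟩ := TopologicalSpace.countable_cover_nhdsWithin
    (s := {z | z ∈ D ∧ g z = 0}) (f := fun z => {z}) (by
      rintro z ⟨hz, hgz⟩
      rcases (han z hz).eventually_eq_zero_or_eventually_ne_zero with h | h
      · exact absurd (han.eqOn_zero_of_preconnected_of_eventuallyEq_zero hc hz h hz₀) hne
      · rw [eventually_nhdsWithin_iff] at h
        rw [mem_nhdsWithin_iff_eventually]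
        filter_upwards [h] with y hy hyS
        by_contra hcon
        exact hy hcon hyS.2)
  exact htc.mono fun z hz => by simpa using ht hz

private theorem preim_countable {D : Set ℂ} (hD : IsOpen D) (hc : IsPreconnected D) {g : ℂ → ℂ}
    (hg : DifferentiableOn ℂ g D) {z₀ z₁ : ℂ} (hz₀ : z₀ ∈ D) (hz₁ : z₁ ∈ D) (hne : g z₀ ≠ g z₁)
    {B : Set ℂ} (hB : B.Countable) : {z | z ∈ D ∧ g z ∈ B}.Countable := by
  have h : ∀ b ∈ B, {z | z ∈ D ∧ g z - b = 0}.Countable := by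
    intro b _
    have hgb : DifferentiableOn ℂ (fun z => g z - b) D := hg.sub_const b
    by_cases h0 : g z₀ = b
    · refine zeros_countable hD hc hgb hz₁ ?_
      rw [← h0]
      exact sub_ne_zero.2 hne.symm
    · exact zeros_countable hD hc hgb hz₀ (sub_ne_zero.2 h0)
  refine (hB.biUnion h).mono ?_
  rintro z ⟨hz, hzB⟩
  exact mem_biUnion hzB ⟨hz, sub_self _⟩

private theorem sep_gen {U Z : Set E2} (hU : IsOpen U) (hUc : IsPreconnected U)
    (h : ∀ (x : E2) (r : ℝ), 0 < r → ball x r ⊆ U →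
      (ball x r \ Z).Nonempty ∧ IsPreconnected (ball x r \ Z)) :
    IsPreconnected (U \ Z) := by
  apply isPreconnected_of_forall_constant
  intro F hF
  have hr : ∀ x : E2, ∃ r : ℝ, x ∈ U → 0 < r ∧ ball x r ⊆ U := by
    intro x
    by_cases hx : x ∈ U
    · obtain ⟨r, hr, hb⟩ := Metric.isOpen_iff.1 hU x hx
      exact ⟨r, fun _ => ⟨hr, hb⟩⟩
    · exact ⟨0, fun h => absurd h hx⟩
  choose r hr using hr
  have hv : ∀ x : E2, ∃ v : Bool, x ∈ U → ∀ y ∈ ball x (r x) \ Z, F y = v := by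
    intro x
    by_cases hx : x ∈ U
    · obtain ⟨⟨p, hp⟩, hpc⟩ := h x (r x) (hr x hx).1 (hr x hx).2
      refine ⟨F p, fun _ y hy => ?_⟩
      exact hpc.constant (hF.mono (diff_subset_diff_left (hr x hx).2)) hy hp
    · exact ⟨true, fun h => absurd h hx⟩
  choose v hv using hv
  have hvloc : ∀ x ∈ U, ∀ y ∈ ball x (r x), v y = v x := by
    intro x hx y hy
    have hyU : y ∈ U := (hr x hx).2 hy
    have hop : IsOpen (ball x (r x) ∩ ball y (r y)) := isOpen_ball.inter isOpen_ball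
    obtain ⟨ρ, hρ, hρb⟩ := Metric.isOpen_iff.1 hop y ⟨hy, mem_ball_self (hr y hyU).1⟩
    obtain ⟨⟨z, hz⟩, -⟩ := h y ρ hρ (hρb.trans (inter_subset_left.trans (hr x hx).2))
    have h1 := hρb hz.1
    rw [← hv y hyU z ⟨h1.2, hz.2⟩, hv x hx z ⟨h1.1, hz.2⟩]
  have hvc : ContinuousOn v U := by
    intro x hx
    refine tendsto_const_nhds.congr' ?_
    have h1 : ∀ᶠ y in 𝓝[U] x, y ∈ ball x (r x) :=
      mem_nhdsWithin_of_mem_nhds (ball_mem_nhds x (hr x hx).1)
    exact h1.mono fun y hy => (hvloc x hx y hy).symm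
  intro x hx y hy
  rw [hv x hx.1 x ⟨mem_ball_self (hr x hx.1).1, hx.2⟩,
    hv y hy.1 y ⟨mem_ball_self (hr y hy.1).1, hy.2⟩]
  exact hUc.constant hvc hx.1 hy.1

/-- the line through `p` and `q` -/
private def Ln (p q : E2) (ζ : ℂ) : E2 := p + ζ • (q - p)

private theorem Ln_zero (p q : E2) : Ln p q 0 = p := by simp [Ln]

private theorem Ln_one (p q : E2) : Ln p q 1 = q := by simp [Ln]

private theorem Ln_diff (p q : E2) : Differentiable ℂ (Ln p q) := by
  unfold Ln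
  fun_prop

private theorem Ln_convex (p q : E2) {b : Set E2} (hb : Convex ℝ b) :
    Convex ℝ (Ln p q ⁻¹' b) := by
  intro x hx y hy a c ha hc hac
  show Ln p q (a • x + c • y) ∈ b
  have h1 : Ln p q (a • x + c • y) = a • Ln p q x + c • Ln p q y := by
    unfold Ln
    have h2 : a • p + c • p = p := by rw [← add_smul, hac, one_smul]
    rw [smul_add, smul_add, add_smul, smul_assoc, smul_assoc, add_add_add_comm, h2]
  rw [h1]
  exact hb hx hy ha hc hac

private theorem preconn_of_lines {b Z : Set E2} (hb : IsOpen b) (hbc : Convex ℝ b)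
    (h : ∀ p ∈ b, p ∉ Z → ∀ q ∈ b, {ζ : ℂ | ζ ∈ Ln p q ⁻¹' b ∧ Ln p q ζ ∈ Z}.Countable) :
    IsPreconnected (b \ Z) := by
  refine isPreconnected_of_forall_pair fun p hp q hq => ?_
  have hD : IsOpen (Ln p q ⁻¹' b) := hb.preimage (Ln_diff p q).continuous
  have h1 := planar hD (Ln_convex p q hbc) (h p hp.1 hp.2 q hq.1)
  refine ⟨Ln p q '' ((Ln p q ⁻¹' b) \ {ζ : ℂ | ζ ∈ Ln p q ⁻¹' b ∧ Ln p q ζ ∈ Z}), ?_, ?_, ?_,
    h1.image _ (Ln_diff p q).continuous.continuousOn⟩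
  · rintro _ ⟨ζ, ⟨h2, h3⟩, rfl⟩
    exact ⟨h2, fun h4 => h3 ⟨h2, h4⟩⟩
  · refine ⟨0, ⟨?_, ?_⟩, Ln_zero p q⟩
    · show Ln p q 0 ∈ b
      rw [Ln_zero]
      exact hp.1
    · rintro ⟨-, h4⟩
      rw [Ln_zero] at h4
      exact hp.2 h4
  · refine ⟨1, ⟨?_, ?_⟩, Ln_one p q⟩
    · show Ln p q 1 ∈ b
      rw [Ln_one]
      exact hq.1
    · rintro ⟨-, h4⟩
      rw [Ln_one] at h4
      exact hq.2 h4

/-- identity theorem for `V` -/
theorem V_ident (F : Fol Ω f V w) {x : E2} (hx : x ∈ Ω) {U : Set E2} (hU : U ∈ 𝓝 x) :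
    ∃ y ∈ U, V y ≠ 0 := by
  by_contra hcon
  push Not at hcon
  obtain ⟨y, hy, hVy⟩ := F.V0
  have h1 : V =ᶠ[𝓝 x] 0 := by
    filter_upwards [hU] with z hz
    exact hcon z hz
  exact hVy ((osg F.isOpen F.holV).eqOn_zero_of_preconnected_of_eventuallyEq_zero
    F.conn.isPreconnected hx h1 hy)

/-- identity theorem for `f` -/
theorem f_ident (F : Fol Ω f V w) {x : E2} (hx : x ∈ Ω) {U : Set E2} (hU : U ∈ 𝓝 x) :
    ∃ y ∈ U, f y ≠ f x := by
  by_contra hcon
  push Not at hcon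
  obtain ⟨y, hy, z, hz, hyz⟩ := F.nonconst
  have h1 : f =ᶠ[𝓝 x] fun _ => f x := by
    filter_upwards [hU] with z hz
    exact hcon z hz
  have h2 := (osg F.isOpen F.holf).eqOn_of_preconnected_of_eventuallyEq analyticOnNhd_const
    F.conn.isPreconnected hx h1
  exact hyz ((h2 hy).trans (h2 hz).symm)

private theorem comp_hol {E : Type*} [NormedAddCommGroup E] [NormedSpace ℂ E] {g : E2 → E}
    {b : Set E2} (hbO : b ⊆ Ω) (hΩ : IsOpen Ω) (hg : DifferentiableOn ℂ g Ω) (p q : E2) :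
    DifferentiableOn ℂ (fun ζ => g (Ln p q ζ)) (Ln p q ⁻¹' b) := by
  intro ζ hζ
  have h1 : DifferentiableAt ℂ g (Ln p q ζ) := hg.differentiableAt (hΩ.mem_nhds (hbO hζ))
  exact (h1.comp ζ (Ln_diff p q ζ)).differentiableWithinAt

private theorem f_line (F : Fol Ω f V w) {B : Set ℂ} (hB : B.Countable) {b : Set E2}
    (hb : IsOpen b) (hbc : Convex ℝ b) (hbO : b ⊆ Ω) {p q : E2} (hp : p ∈ b) (hpB : f p ∉ B) :
    {ζ : ℂ | ζ ∈ Ln p q ⁻¹' b ∧ f (Ln p q ζ) ∈ B}.Countable := by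
  have hD : IsOpen (Ln p q ⁻¹' b) := hb.preimage (Ln_diff p q).continuous
  have h0 : (0 : ℂ) ∈ Ln p q ⁻¹' b := by
    show Ln p q 0 ∈ b
    rw [Ln_zero]
    exact hp
  by_cases hcon : ∀ ζ ∈ Ln p q ⁻¹' b, f (Ln p q ζ) = f p
  · have h1 : {ζ : ℂ | ζ ∈ Ln p q ⁻¹' b ∧ f (Ln p q ζ) ∈ B} = ∅ := by
      ext ζ
      simp only [mem_ofPred_eq, mem_empty_iff_false, iff_false]
      rintro ⟨h2, h3⟩
      rw [hcon ζ h2] at h3
      exact hpB h3
    rw [h1]
    exact countable_empty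
  · push Not at hcon
    obtain ⟨ζ, hζ, hne⟩ := hcon
    refine preim_countable hD (Ln_convex p q hbc).isPreconnected
      (comp_hol hbO F.isOpen F.holf p q) hζ h0 ?_ hB
    show f (Ln p q ζ) ≠ f (Ln p q 0)
    rw [Ln_zero]
    exact hne

private theorem V_line (F : Fol Ω f V w) {b : Set E2}
    (hb : IsOpen b) (hbc : Convex ℝ b) (hbO : b ⊆ Ω) {p q : E2} (hp : p ∈ b) (hpV : V p ≠ 0) :
    {ζ : ℂ | ζ ∈ Ln p q ⁻¹' b ∧ V (Ln p q ζ) = 0}.Countable := by
  have hD : IsOpen (Ln p q ⁻¹' b) := hb.preimage (Ln_diff p q).continuous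
  have h0 : (0 : ℂ) ∈ Ln p q ⁻¹' b := by
    show Ln p q 0 ∈ b
    rw [Ln_zero]
    exact hp
  refine zeros_countable hD (Ln_convex p q hbc).isPreconnected
    (comp_hol hbO F.isOpen F.holV p q) h0 ?_
  rw [Ln_zero]
  exact hpV

private theorem exists_pt (F : Fol Ω f V w) {B : Set ℂ} (hB : B.Countable) {x : E2} {r : ℝ}
    (hr : 0 < r) (hb : ball x r ⊆ Ω) : ∃ y ∈ ball x r, f y ∉ B ∧ V y ≠ 0 := by
  obtain ⟨p, hp, hpV⟩ := V_ident F (hb (mem_ball_self hr)) (ball_mem_nhds x hr)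
  obtain ⟨q, hq, hqf⟩ := f_ident F (hb hp) (isOpen_ball.mem_nhds hp)
  have hD : IsOpen (Ln p q ⁻¹' ball x r) := isOpen_ball.preimage (Ln_diff p q).continuous
  have hcv : Convex ℝ (ball x r) := convex_ball x r
  have h0 : (0 : ℂ) ∈ Ln p q ⁻¹' ball x r := by
    show Ln p q 0 ∈ ball x r
    rw [Ln_zero]
    exact hp
  have h1 : (1 : ℂ) ∈ Ln p q ⁻¹' ball x r := by
    show Ln p q 1 ∈ ball x r
    rw [Ln_one]
    exact hq
  have c1 : {ζ : ℂ | ζ ∈ Ln p q ⁻¹' ball x r ∧ f (Ln p q ζ) ∈ B}.Countable := by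
    refine preim_countable hD (Ln_convex p q hcv).isPreconnected
      (comp_hol hb F.isOpen F.holf p q) h1 h0 ?_ hB
    show f (Ln p q 1) ≠ f (Ln p q 0)
    rw [Ln_zero, Ln_one]
    exact hqf
  have c2 := V_line F isOpen_ball hcv hb (q := q) hp hpV
  obtain ⟨ζ, hζ, hζ'⟩ := ((c1.union c2).dense_compl ℝ).inter_open_nonempty _ hD ⟨0, h0⟩
  refine ⟨Ln p q ζ, hζ, fun h2 => hζ' (Or.inl ⟨hζ, h2⟩), fun h2 => hζ' (Or.inr ⟨hζ, h2⟩)⟩

theorem sep_f (F : Fol Ω f V w) {B : Set ℂ} (hB : B.Countable) {U : Set E2} (hUO : U ⊆ Ω)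
    (hU : IsOpen U) (hUc : IsPreconnected U) :
    IsPreconnected (U ∩ f ⁻¹' Bᶜ) ∧ (U.Nonempty → (U ∩ f ⁻¹' Bᶜ).Nonempty) := by
  have hset : U ∩ f ⁻¹' Bᶜ = U \ {y | f y ∈ B} := rfl
  constructor
  · rw [hset]
    refine sep_gen hU hUc fun x r hr hb => ⟨?_, ?_⟩
    · obtain ⟨y, hy, hyB, -⟩ := exists_pt F hB hr (hb.trans hUO)
      exact ⟨y, hy, hyB⟩
    · refine preconn_of_lines isOpen_ball (convex_ball x r) fun p hp hpB q hq => ?_
      exact f_line F hB isOpen_ball (convex_ball x r) (hb.trans hUO) hp hpB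
  · rintro ⟨x, hx⟩
    obtain ⟨r, hr, hb⟩ := Metric.isOpen_iff.1 hU x hx
    obtain ⟨y, hy, hyB, -⟩ := exists_pt F hB hr (hb.trans hUO)
    exact ⟨y, hb hy, hyB⟩

theorem sep_V (F : Fol Ω f V w) {B : Set ℂ} (hB : B.Countable) :
    IsConnected {x | x ∈ Ω ∧ V x ≠ 0 ∧ f x ∉ B} := by
  have hset : {x | x ∈ Ω ∧ V x ≠ 0 ∧ f x ∉ B} = Ω \ {y | f y ∈ B ∨ V y = 0} := by
    ext y
    simp only [mem_ofPred_eq, Set.mem_sdiff, not_or, Ne]
    tauto
  rw [hset]
  constructor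
  · obtain ⟨x, hx⟩ := F.conn.nonempty
    obtain ⟨r, hr, hb⟩ := Metric.isOpen_iff.1 F.isOpen x hx
    obtain ⟨y, hy, hyB, hyV⟩ := exists_pt F hB hr hb
    refine ⟨y, hb hy, ?_⟩
    rintro (h1 | h1)
    · exact hyB h1
    · exact hyV h1
  · refine sep_gen F.isOpen F.conn.isPreconnected fun x r hr hb => ⟨?_, ?_⟩
    · obtain ⟨y, hy, hyB, hyV⟩ := exists_pt F hB hr hb
      refine ⟨y, hy, ?_⟩
      rintro (h1 | h1)
      · exact hyB h1
      · exact hyV h1
    · refine preconn_of_lines isOpen_ball (convex_ball x r) fun p hp hpZ q hq => ?_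
      have hpB : f p ∉ B := fun h1 => hpZ (Or.inl h1)
      have hpV : V p ≠ 0 := fun h1 => hpZ (Or.inr h1)
      have h1 := f_line F hB isOpen_ball (convex_ball x r) hb (q := q) hp hpB
      have h2 := V_line F isOpen_ball (convex_ball x r) hb (q := q) hp hpV
      refine (h1.union h2).mono ?_
      rintro ζ ⟨h3, h4 | h4⟩
      · exact Or.inl ⟨h3, h4⟩
      · exact Or.inr ⟨h3, h4⟩

end Pool.Agent.MP_fe3720.NF
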