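import Pool.Agent.Work.MP_fe3720_an.NF.Chart
import Pool.Agent.Work.MP_fe3720_an.NF.Sep

/-! # Module Crit (helper36): the set of critical values is countable

PROOF. `f` is analytic (`osg`). For a word `l` in two letters let `G_l` be the iterated partial
derivative of `f`. At `x` with `df = 0` some derivative of order `≥ 1` is not `0` (`f` is not constant
near `x`); take a word of minimal length `m` with `G_l x ≠ 0`, `m ≥ 2`; dropping the outer letter gives
`l'`, of length `≥ 1`, `G_{l'} x = 0`, `dG_{l'} x ≠ 0`. So `Crit ⊆ ⋃_{l ≠ []} {x | G_l x = 0,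
dG_l x ≠ 0, df x = 0}`. For a fixed `l` every point of this set has a neighbourhood `N` such that
`f '' (N ∩ set)` is countable: by `chart_ex` for `G_l` (a chart `φ` with first coordinate `G_l`) the
set `{G_l = 0} ∩ N` is the curve `σ ζ = φ.symm (0, ζ)`, `ζ` in a disc, and at the points of the set
`(f ∘ σ)' ζ = df (σ' ζ) = 0`: either `f ∘ σ` is constant (one value), or its critical points are
discrete, so countably many. Lindelöf (`TopologicalSpace.countable_cover_nhdsWithin`). -/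

namespace Pool.Agent.MP_fe3720.NF

open Set Topology Filter Metric Pool.Agent.MP_fe3720.NR

variable {Ω : Set E2} {f : E2 → ℂ} {V : E2 → E2} {w : E2 → E2 → ℂ}

private theorem zeros_countable {D : Set ℂ} (hD : IsOpen D) (hc : IsPreconnected D) {g : ℂ → ℂ}
    (hg : DifferentiableOn ℂ g D) {z₀ : ℂ} (hz₀ : z₀ ∈ D) (hne : g z₀ ≠ 0) :
    {z | z ∈ D ∧ g z = 0}.Countable := by
  have han : AnalyticOnNhd ℂ g D := hg.analyticOnNhd hD
  obtain ⟨t, -, htc, ht⟩ := TopologicalSpace.countable_cover_nhdsWithin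
    (s := {z | z ∈ D ∧ g z = 0}) (f := fun z => {z}) (by
      rintro z ⟨hz, hgz⟩
      rcases (han z hz).eventually_eq_zero_or_eventually_ne_zero with h | h
      · exact absurd (han.eqOn_zero_of_preconnected_of_eventuallyEq_zero hc hz h hz₀) hne
      · rw [eventually_nhdsWithin_iff] at h
        rw [mem_nhdsWithin_iff_eventually]
        filter_upwards [h] with y hy hyS
        by_contra hcon
        exact hy hcon hyS.2)
  exact htc.mono fun z hz => by simpa using ht hz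

/-- iterated derivatives in the direction `v` -/
private noncomputable def Dn (f : E2 → ℂ) (v : E2) : ℕ → E2 → ℂ
  | 0 => f
  | n + 1 => fun y => fderiv ℂ (Dn f v n) y v

private theorem Dn_an (hΩ : IsOpen Ω) (hf : DifferentiableOn ℂ f Ω) (v : E2) (n : ℕ) :
    DifferentiableOn ℂ (Dn f v n) Ω := by
  induction n with
  | zero => exact hf
  | succ n ih =>
    have h1 := (osg hΩ ih).fderiv.differentiableOn
    exact h1.clm_apply (differentiableOn_const v)

private theorem iter_eq (hΩ : IsOpen Ω) (hf : DifferentiableOn ℂ f Ω) (x v : E2) (n : ℕ) :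
    ∀ ζ : ℂ, x + ζ • v ∈ Ω → iteratedDeriv n (fun ζ : ℂ => f (x + ζ • v)) ζ =
      Dn f v n (x + ζ • v) := by
  induction n with
  | zero =>
    intro ζ _
    rw [iteratedDeriv_zero]
    rfl
  | succ n ih =>
    intro ζ hζ
    rw [iteratedDeriv_succ]
    have hc : Continuous (fun ζ : ℂ => x + ζ • v) := by fun_prop
    have h1 : iteratedDeriv n (fun ζ : ℂ => f (x + ζ • v)) =ᶠ[𝓝 ζ]
        fun ζ => Dn f v n (x + ζ • v) := by
      filter_upwards [(hΩ.preimage hc).mem_nhds hζ] with ξ hξ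
      exact ih ξ hξ
    rw [h1.deriv_eq]
    have h2 : HasFDerivAt (Dn f v n) (fderiv ℂ (Dn f v n) (x + ζ • v)) (x + ζ • v) :=
      ((Dn_an hΩ hf v n).differentiableAt (hΩ.mem_nhds hζ)).hasFDerivAt
    have h3 : HasDerivAt (fun ζ : ℂ => x + ζ • v) v ζ := by
      have h4 : HasDerivAt (fun ζ : ℂ => ζ • v) ((1 : ℂ) • v) ζ := (hasDerivAt_id ζ).smul_const v
      rw [one_smul] at h4
      exact h4.const_add x
    exact (h2.comp_hasDerivAt ζ h3).deriv

private theorem exists_order (F : Fol Ω f V w) {x : E2} (hx : x ∈ Ω) {𝒱 : Set E2}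
    (h𝒱 : Dense 𝒱) (hd : fderiv ℂ f x = 0) :
    ∃ v ∈ 𝒱, ∃ m : ℕ, Dn f v m x = 0 ∧ fderiv ℂ (Dn f v m) x ≠ 0 := by
  obtain ⟨ρ, hρ, hb⟩ := Metric.isOpen_iff.1 F.isOpen x hx
  obtain ⟨y, hy, hfy⟩ := f_ident F hx (ball_mem_nhds x hρ)
  have hopen : IsOpen {v : E2 | x + v ∈ ball x ρ ∧ f (x + v) ≠ f x} := by
    have h1 : ContinuousOn (fun v : E2 => f (x + v)) ((fun v => x + v) ⁻¹' ball x ρ) :=
      (F.holf.continuousOn.mono hb).comp (by fun_prop) fun v hv => hv
    have h2 : IsOpen ((fun v : E2 => x + v) ⁻¹' ball x ρ) :=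
      isOpen_ball.preimage (by fun_prop)
    exact h1.isOpen_inter_preimage h2 isOpen_compl_singleton
  have hne : {v : E2 | x + v ∈ ball x ρ ∧ f (x + v) ≠ f x}.Nonempty := by
    refine ⟨y - x, ?_, ?_⟩
    · rw [add_sub_cancel]
      exact hy
    · rw [add_sub_cancel]
      exact hfy
  obtain ⟨v, ⟨hv1, hv2⟩, hv𝒱⟩ := h𝒱.inter_open_nonempty _ hopen hne
  have hv0 : v ≠ 0 := by
    rintro rfl
    rw [add_zero] at hv2
    exact hv2 rfl
  have hvn : 0 < ‖v‖ := norm_pos_iff.2 hv0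
  have hvρ : ‖v‖ < ρ := by
    rw [mem_ball, dist_eq_norm, add_sub_cancel_left] at hv1
    exact hv1
  have hmem : ∀ ζ ∈ ball (0 : ℂ) (ρ / ‖v‖), x + ζ • v ∈ Ω := by
    intro ζ hζ
    apply hb
    rw [mem_ball, dist_eq_norm, add_sub_cancel_left, norm_smul]
    rw [mem_ball, dist_zero_right, lt_div_iff₀ hvn] at hζ
    exact hζ
  have hdiff : DifferentiableOn ℂ (fun ζ : ℂ => f (x + ζ • v)) (ball (0 : ℂ) (ρ / ‖v‖)) := by
    intro ζ hζ
    have h1 : DifferentiableAt ℂ f (x + ζ • v) :=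
      F.holf.differentiableAt (F.isOpen.mem_nhds (hmem ζ hζ))
    exact (h1.comp ζ (f := fun ζ : ℂ => x + ζ • v) (by fun_prop)).differentiableWithinAt
  have hex : ∃ n : ℕ, 1 ≤ n ∧ Dn f v n x ≠ 0 := by
    by_contra hcon
    push Not at hcon
    have h1 : (1 : ℂ) ∈ ball (0 : ℂ) (ρ / ‖v‖) := by
      rw [mem_ball, dist_zero_right, norm_one, lt_div_iff₀ hvn, one_mul]
      exact hvρ
    have h2 := Complex.hasSum_taylorSeries_on_ball hdiff h1
    have h3 : ∀ n : ℕ, n ≠ 0 → (n.factorial : ℂ)⁻¹ • ((1 : ℂ) - 0) ^ n •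
        iteratedDeriv n (fun ζ : ℂ => f (x + ζ • v)) 0 = 0 := by
      intro n hn
      have h0 : x + (0 : ℂ) • v ∈ Ω := by
        rw [zero_smul, add_zero]
        exact hx
      rw [iter_eq F.isOpen F.holf x v n 0 h0, zero_smul, add_zero,
        hcon n (Nat.one_le_iff_ne_zero.2 hn), smul_zero, smul_zero]
    have h4 := h2.unique (hasSum_single 0 h3)
    apply hv2
    simpa using h4
  classical
  have hn1 := (Nat.find_spec hex).1
  have hn2 := (Nat.find_spec hex).2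
  have hmin : ∀ m < Nat.find hex, 1 ≤ m → Dn f v m x = 0 := by
    intro m hm h1
    by_contra h2
    exact Nat.find_min hex hm ⟨h1, h2⟩
  obtain ⟨m, hm⟩ : ∃ m, Nat.find hex = m + 1 := ⟨Nat.find hex - 1, by omega⟩
  rw [hm] at hn2 hmin
  have hm1 : 1 ≤ m := by
    by_contra h1
    have h2 : m = 0 := by omega
    subst h2
    apply hn2
    show fderiv ℂ f x v = 0
    rw [hd]
    rfl
  refine ⟨v, hv𝒱, m, hmin m (Nat.lt_succ_self m) hm1, ?_⟩
  intro h1
  apply hn2
  show fderiv ℂ (Dn f v m) x v = 0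
  rw [h1]
  rfl

private theorem image_countable (F : Fol Ω f V w) {g : E2 → ℂ} (hg : DifferentiableOn ℂ g Ω) :
    (f '' {x | x ∈ Ω ∧ fderiv ℂ f x = 0 ∧ g x = 0 ∧ fderiv ℂ g x ≠ 0}).Countable := by
  set S : Set E2 := {x | x ∈ Ω ∧ fderiv ℂ f x = 0 ∧ g x = 0 ∧ fderiv ℂ g x ≠ 0} with hS
  have key : ∀ x₀ : E2, ∃ N : Set E2, x₀ ∈ S → N ∈ 𝓝 x₀ ∧ (f '' (S ∩ N)).Countable := by
    intro x₀
    by_cases h0 : x₀ ∈ S
    swap
    · exact ⟨univ, fun h1 => absurd h1 h0⟩
    obtain ⟨hx₀, -, hg0, hd⟩ := h0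
    obtain ⟨r, φ, C, -⟩ := chart_ex F.isOpen hg hx₀ hd univ_mem
    refine ⟨φ.source, fun _ => ⟨φ.open_source.mem_nhds C.mem, ?_⟩⟩
    have hr := C.pos
    have hmt : ∀ s ∈ ball (0 : ℂ) r, ((0 : ℂ), s) ∈ φ.target := by
      intro s hs
      rw [C.target, hg0]
      exact ⟨mem_ball_self hr, hs⟩
    have hsd : ∀ s ∈ ball (0 : ℂ) r, DifferentiableAt ℂ (fun s : ℂ => φ.symm (0, s)) s := by
      intro s hs
      have h1 : DifferentiableAt ℂ φ.symm ((0 : ℂ), s) :=
        C.hols.differentiableAt (φ.open_target.mem_nhds (hmt s hs))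
      exact h1.comp s (f := fun s : ℂ => ((0 : ℂ), s)) (by fun_prop)
    have hfd : ∀ s ∈ ball (0 : ℂ) r, DifferentiableAt ℂ f (φ.symm (0, s)) := fun s hs =>
      F.holf.differentiableAt (F.isOpen.mem_nhds (C.sub (φ.map_target (hmt s hs))))
    have hk : DifferentiableOn ℂ (fun s => f (φ.symm (0, s))) (ball (0 : ℂ) r) := fun s hs =>
      ((hfd s hs).comp s (g := f) (f := fun s : ℂ => φ.symm (0, s))
        (hsd s hs)).differentiableWithinAt
    have hkd : DifferentiableOn ℂ (deriv fun s => f (φ.symm (0, s))) (ball (0 : ℂ) r) :=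
      hk.deriv isOpen_ball
    have hsub : f '' (S ∩ φ.source) ⊆ (fun s => f (φ.symm (0, s))) ''
        {s | s ∈ ball (0 : ℂ) r ∧ deriv (fun s => f (φ.symm (0, s))) s = 0} := by
      rintro _ ⟨x, ⟨hxS, hxs⟩, rfl⟩
      have h1 := φ.map_source hxs
      rw [C.target] at h1
      have h2 : (φ x).1 = 0 := by rw [C.fst x hxs, hxS.2.2.1]
      have h3 : φ x = (0, (φ x).2) := by rw [← h2]
      have h4 : φ.symm (0, (φ x).2) = x := by rw [← h3, φ.left_inv hxs]
      refine ⟨(φ x).2, ⟨h1.2, ?_⟩, ?_⟩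
      · have h5 := ((hfd _ h1.2).hasFDerivAt).comp_hasDerivAt _ (hsd _ h1.2).hasDerivAt
        have h6 : deriv (fun s => f (φ.symm (0, s))) (φ x).2 =
            fderiv ℂ f (φ.symm (0, (φ x).2)) (deriv (fun s : ℂ => φ.symm (0, s)) (φ x).2) :=
          h5.deriv
        rw [h6, h4, hxS.2.1]
        rfl
      · show f (φ.symm (0, (φ x).2)) = f x
        rw [h4]
    refine Countable.mono hsub ?_
    by_cases hz : ∃ s ∈ ball (0 : ℂ) r, deriv (fun s => f (φ.symm (0, s))) s ≠ 0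
    · obtain ⟨s, hs, hne⟩ := hz
      exact (zeros_countable isOpen_ball (convex_ball (0 : ℂ) r).isPreconnected hkd hs
        hne).image _
    · push Not at hz
      refine (countable_singleton (f (φ.symm (0, 0)))).mono ?_
      rintro _ ⟨s, ⟨hs, -⟩, rfl⟩
      have hcst := (isOpen_ball (x := (0 : ℂ))).is_const_of_deriv_eq_zero
        (convex_ball (0 : ℂ) r).isPreconnected hk (fun y hy => hz y hy) hs (mem_ball_self hr)
      exact hcst
  choose N hN using key
  obtain ⟨t, hts, htc, ht⟩ := TopologicalSpace.countable_cover_nhdsWithin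
    (s := S) (f := N) (fun x hx => mem_nhdsWithin_of_mem_nhds (hN x hx).1)
  refine (htc.biUnion (t := fun x _ => f '' (S ∩ N x)) fun x hx => (hN x (hts hx)).2).mono ?_
  rintro _ ⟨x, hx, rfl⟩
  obtain ⟨x₀, hx₀, hxN⟩ := mem_iUnion₂.1 (ht hx)
  exact mem_biUnion hx₀ ⟨x, ⟨hx, hxN⟩, rfl⟩

theorem crit_countable (F : Fol Ω f V w) : (critVal Ω f).Countable := by
  obtain ⟨𝒱, h𝒱c, h𝒱d⟩ := TopologicalSpace.exists_countable_dense E2
  have h1 : (⋃ v ∈ 𝒱, ⋃ m : ℕ, f '' {x | x ∈ Ω ∧ fderiv ℂ f x = 0 ∧ Dn f v m x = 0 ∧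
      fderiv ℂ (Dn f v m) x ≠ 0}).Countable :=
    h𝒱c.biUnion fun v _ => countable_iUnion fun m =>
      image_countable F (Dn_an F.isOpen F.holf v m)
  refine h1.mono ?_
  rintro _ ⟨x, hx, hd, rfl⟩
  obtain ⟨v, hv, m, h2, h3⟩ := exists_order F hx h𝒱d hd
  exact mem_biUnion hv (mem_iUnion.2 ⟨m, x, ⟨hx, hd, h2, h3⟩, rfl⟩)

end Pool.Agent.MP_fe3720.NF
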