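import Pool.Agent.Work.MP_fe3720_an.NF.Chart
import Pool.Agent.Work.MP_fe3720_an.NF.Sep

/-! # Module ZeroV (helper36): `zeroVal` is countable, and zeros of `V` in plaques are isolated

`zero_countable` PROOF. Cover `{x ∈ Ω | df x ≠ 0}` by countably many charts (`chart_ex`, Lindelöf).
For one chart `φ` with target `ball c r ×ˢ ball 0 r`: if `V (φ.symm (c', y)) = 0` for all `y` near a
point `y₀` then for all `y ∈ ball 0 r` (identity theorem in one variable). By `V_ident` there is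
`(c₁, y₁)` in the target with `V (φ.symm (c₁, y₁)) ≠ 0`. So the values `c'` of this kind are zeros of
the holomorphic function `c' ↦ V (φ.symm (c', y₁))` on `ball c r` (values in `E2`), not identically
zero: a countable set.

`zero_iso`: a point `x` with `df x ≠ 0`, `f x ∉ zeroVal`, and a chart `φ` at `x`: for `y` near `0`,
`y ≠ 0` we have `V (φ.symm (f x, y)) ≠ 0` (one variable identity theorem
`AnalyticAt.eventually_eq_zero_or_eventually_ne_zero`; the first alternative contradicts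
`f x ∉ zeroVal`). -/

namespace Pool.Agent.MP_fe3720.NF

open Set Topology Filter Metric Pool.Agent.MP_fe3720.NR

variable {Ω : Set E2} {f : E2 → ℂ} {V : E2 → E2} {w : E2 → E2 → ℂ}

private theorem zeros_countable {E : Type*} [NormedAddCommGroup E] [NormedSpace ℂ E]
    [CompleteSpace E] {D : Set ℂ} (hD : IsOpen D) (hc : IsPreconnected D) {g : ℂ → E}
    (hg : DifferentiableOn ℂ g D) {z₀ : ℂ} (hz₀ : z₀ ∈ D) (hne : g z₀ ≠ 0) :
    {z | z ∈ D ∧ g z = 0}.Countable := by
  have han : AnalyticOnNhd ℂ g D := hg.analyticOnNhd hD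
  obtain ⟨t, -, htc, ht⟩ := TopologicalSpace.countable_cover_nhdsWithin
    (s := {z | z ∈ D ∧ g z = 0}) (f := fun z => {z}) (by
      rintro z ⟨hz, hgz⟩
      rcases (han z hz).eventually_eq_zero_or_eventually_ne_zero with h | h
      · exact absurd (han.eqOn_zero_of_preconnected_of_eventuallyEq_zero hc hz h hz₀) hne
      · rw [eventually_nhdsWithin_iff] at h
        rw [mem_nhdsWithin_iff_eventually]
        filter_upwards [h] with y hy hyS
        by_contra hcon
        exact hy hcon hyS.2)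
  exact htc.mono fun z hz => by simpa using ht hz

private theorem mem_tgt {x₀ : E2} {r : ℝ} {φ : OpenPartialHomeomorph E2 E2}
    (C : FChart Ω f x₀ r φ) {y : E2} (hy : y ∈ φ.source) :
    f y ∈ ball (f x₀) r ∧ (φ y).2 ∈ ball (0 : ℂ) r := by
  have h1 := φ.map_source hy
  rw [C.target] at h1
  rw [← C.fst y hy]
  exact h1

private theorem eq_pair {x₀ : E2} {r : ℝ} {φ : OpenPartialHomeomorph E2 E2}
    (C : FChart Ω f x₀ r φ) {y : E2} (hy : y ∈ φ.source) : φ y = (f y, (φ y).2) := by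
  rw [← C.fst y hy]

private theorem hol_comp (F : Fol Ω f V w) {x₀ : E2} {r : ℝ} {φ : OpenPartialHomeomorph E2 E2}
    (C : FChart Ω f x₀ r φ) {D : Set ℂ} {ι : ℂ → E2} (hι : Differentiable ℂ ι)
    (hm : ∀ z ∈ D, ι z ∈ φ.target) : DifferentiableOn ℂ (fun z => V (φ.symm (ι z))) D := by
  intro z hz
  have h1 : DifferentiableAt ℂ φ.symm (ι z) :=
    C.hols.differentiableAt (φ.open_target.mem_nhds (hm z hz))
  have h2 : DifferentiableAt ℂ V (φ.symm (ι z)) :=
    F.holV.differentiableAt (F.isOpen.mem_nhds (C.sub (φ.map_target (hm z hz))))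
  have h3 : DifferentiableAt ℂ (fun z => φ.symm (ι z)) z := h1.comp z (hι z)
  exact (DifferentiableAt.comp z (g := V) (f := fun z => φ.symm (ι z)) h2 h3).differentiableWithinAt

theorem zero_countable (F : Fol Ω f V w) : (zeroVal Ω f V).Countable := by
  have key : ∀ x₀ : E2, ∃ N : Set E2, ∃ C : Set ℂ, C.Countable ∧
      (x₀ ∈ Ω → fderiv ℂ f x₀ ≠ 0 → N ∈ 𝓝 x₀ ∧
        ∀ x ∈ N, (∀ᶠ y in 𝓝 x, f y = f x → V y = 0) → f x ∈ C) := by
    intro x₀
    by_cases h0 : x₀ ∈ Ω ∧ fderiv ℂ f x₀ ≠ 0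
    swap
    · exact ⟨univ, ∅, countable_empty, fun h1 h2 => absurd ⟨h1, h2⟩ h0⟩
    obtain ⟨hx₀, hd⟩ := h0
    obtain ⟨r, φ, C, -⟩ := chart_ex F.isOpen F.holf hx₀ hd univ_mem
    obtain ⟨y₁, hy₁, hV₁⟩ := V_ident F hx₀ (φ.open_source.mem_nhds C.mem)
    obtain ⟨hc₁, hs₁⟩ := mem_tgt C hy₁
    set s₁ := (φ y₁).2 with hs₁def
    have hmt : ∀ c ∈ ball (f x₀) r, ∀ s ∈ ball (0 : ℂ) r, (c, s) ∈ φ.target := by
      intro c hc s hs
      rw [C.target]
      exact ⟨hc, hs⟩
    have hcount : {c | c ∈ ball (f x₀) r ∧ V (φ.symm (c, s₁)) = 0}.Countable := by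
      refine zeros_countable (g := fun c => V (φ.symm (c, s₁))) isOpen_ball
        (convex_ball (f x₀) r).isPreconnected
        (hol_comp F C (ι := fun c => (c, s₁)) (by fun_prop) fun c hc => hmt c hc s₁ hs₁) hc₁ ?_
      show V (φ.symm (f y₁, s₁)) ≠ 0
      rw [hs₁def, ← eq_pair C hy₁, φ.left_inv hy₁]
      exact hV₁
    refine ⟨φ.source, _, hcount, fun _ _ => ⟨φ.open_source.mem_nhds C.mem, ?_⟩⟩
    intro x hx hev
    obtain ⟨hc, hs⟩ := mem_tgt C hx
    refine ⟨hc, ?_⟩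
    have hk : DifferentiableOn ℂ (fun s => V (φ.symm (f x, s))) (ball (0 : ℂ) r) :=
      hol_comp F C (ι := fun s => (f x, s)) (by fun_prop) fun s hs => hmt _ hc s hs
    have hcont : ContinuousAt (fun s : ℂ => φ.symm (f x, s)) (φ x).2 := by
      have h1 : ContinuousAt φ.symm (f x, (φ x).2) :=
        φ.continuousAt_symm (hmt _ hc _ hs)
      exact ContinuousAt.comp (g := φ.symm) (f := fun s : ℂ => (f x, s)) h1 (by fun_prop)
    have hval : φ.symm (f x, (φ x).2) = x := by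
      rw [← eq_pair C hx, φ.left_inv hx]
    have hzero : (fun s => V (φ.symm (f x, s))) =ᶠ[𝓝 (φ x).2] 0 := by
      have h2 : Tendsto (fun s : ℂ => φ.symm (f x, s)) (𝓝 (φ x).2) (𝓝 x) := by
        have h3 := hcont.tendsto
        rwa [hval] at h3
      filter_upwards [h2.eventually hev, isOpen_ball.mem_nhds hs] with s h4 h5
      apply h4
      have h6 : (f x, s) ∈ φ.target := hmt _ hc s h5
      rw [← C.fst _ (φ.map_target h6), φ.right_inv h6]
    have hall := (hk.analyticOnNhd isOpen_ball).eqOn_zero_of_preconnected_of_eventuallyEq_zero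
      (convex_ball (0 : ℂ) r).isPreconnected hs hzero
    exact hall hs₁
  choose N C hC hN using key
  obtain ⟨t, hts, htc, ht⟩ := TopologicalSpace.countable_cover_nhdsWithin
    (s := {x | x ∈ Ω ∧ fderiv ℂ f x ≠ 0}) (f := N) (by
      rintro x ⟨hx, hd⟩
      exact mem_nhdsWithin_of_mem_nhds (hN x hx hd).1)
  refine (htc.biUnion fun x _ => hC x).mono ?_
  rintro c ⟨x, hx, hd, rfl, hev⟩
  obtain ⟨x₀, hx₀, hxN⟩ := mem_iUnion₂.1 (ht ⟨hx, hd⟩)
  exact mem_biUnion hx₀ ((hN x₀ (hts hx₀).1 (hts hx₀).2).2 x hxN hev)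

theorem zero_iso (F : Fol Ω f V w) {x : E2} (hz : f x ∉ zeroVal Ω f V)
    {x₀ : E2} {r : ℝ} {φ : OpenPartialHomeomorph E2 E2} (C : FChart Ω f x₀ r φ)
    (hx : x ∈ φ.source) (hd : ∀ y ∈ φ.source, fderiv ℂ f y ≠ 0) :
    ∀ᶠ y in 𝓝[≠] (φ x).2, V (φ.symm (f x, y)) ≠ 0 := by
  obtain ⟨hc, hs⟩ := mem_tgt C hx
  have hk : DifferentiableOn ℂ (fun s => V (φ.symm (f x, s))) (ball (0 : ℂ) r) :=
    hol_comp F C (ι := fun s => (f x, s)) (by fun_prop) fun s hs => by
      rw [C.target]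
      exact ⟨hc, hs⟩
  rcases (hk.analyticOnNhd isOpen_ball _ hs).eventually_eq_zero_or_eventually_ne_zero with h | h
  · exfalso
    apply hz
    refine ⟨x, C.sub hx, hd x hx, rfl, ?_⟩
    have h1 : Tendsto (fun y => (φ y).2) (𝓝 x) (𝓝 (φ x).2) :=
      (continuous_snd.continuousAt (x := φ x)).tendsto.comp (φ.continuousAt hx).tendsto
    filter_upwards [h1.eventually h, φ.open_source.mem_nhds hx] with y hy hyS hfy
    rw [← hfy, ← eq_pair C hyS, φ.left_inv hyS] at hy
    exact hy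
  · exact h

end Pool.Agent.MP_fe3720.NF
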