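import Pool.Agent.Work.MP_fe3720_an.NF.Pair
import Pool.Agent.Work.MP_fe3720_an.NF.Crit
import Pool.Agent.Work.MP_fe3720_an.NF.ZeroV

/-! # Module BadEx: the set of bad values

`fam_ex`: Lindelöf (`TopologicalSpace.countable_cover_nhdsWithin` for the cover of `Reg` by the
sources of boxes, `box_ex`).
`bad_ex` PROOF. Let `T, r, ψ` be as in `fam_ex`, `D_x = ball (f x) (r x)`,
`s_x c = (ψ x).symm (c, 0)` (`box_sec`), `V_x = VS D_x s_x`, `U_{xy} = CO D_x D_y s_x s_y`.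
`Bad = critVal ∪ zeroVal ∪ ⋃_{x ∈ T} (if V_x = ∅ then ∅ else D_x \ V_x)
  ∪ ⋃_{x, y ∈ T} (if U_{xy} = ∅ then ∅ else (D_x ∩ D_y) \ U_{xy})`: countable (`iso`, `pair`).
`perc` at `x ∈ Reg`: `x ∈ (ψ x').source`, `x' ∈ T`. Every `y ∈ (ψ x').source` is on the orbit of
`s_{x'} (f y)` (`box_orbit`), so `per y = per (s_{x'} (f y))` (`per_fl`). If `V_{x'} = ∅` all these are
`{0}`; otherwise `f y ∉ Bad` gives `f y ∈ V_{x'}`.
`pair`: `x ∈ (ψ x').source`, `y ∈ (ψ y').source`. Suppose not eventually: there are `p.1`, `p.2` in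
these sources with the same value `c ∉ Bad` on one orbit, so `c ∈ U_{x'y'} ≠ ∅`; then, as
`f x = f y ∉ Bad`, `f x ∈ U_{x'y'}`, so `x` and `y` are on one orbit, contradiction. -/

namespace Pool.Agent.MP_fe3720.NF

open Set Topology Filter Metric Pool.Agent.MP_fe3720.NR

variable {Ω : Set E2} {f : E2 → ℂ} {V : E2 → E2} {w : E2 → E2 → ℂ}

theorem fam_ex (F : Fol Ω f V w) :
    ∃ (T : Set E2) (r : E2 → ℝ) (ψ : E2 → OpenPartialHomeomorph E2 E2), T.Countable ∧
      (∀ x ∈ T, Box Ω f V x (r x) (ψ x)) ∧ ∀ y ∈ Reg Ω f V, ∃ x ∈ T, y ∈ (ψ x).source := by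
  have h : ∀ x ∈ Reg Ω f V, ∃ (r : ℝ) (ψ : OpenPartialHomeomorph E2 E2), Box Ω f V x r ψ := by
    intro x hx
    obtain ⟨r, ψ, hb, -⟩ := box_ex F hx (U := univ) univ_mem
    exact ⟨r, ψ, hb⟩
  have : Nonempty (OpenPartialHomeomorph E2 E2) := ⟨OpenPartialHomeomorph.refl E2⟩
  choose! r ψ hB using h
  obtain ⟨T, hTs, hTc, hT⟩ := TopologicalSpace.countable_cover_nhdsWithin
    (f := fun x => (ψ x).source) (s := Reg Ω f V) (fun x hx =>
      mem_nhdsWithin_of_mem_nhds ((ψ x).open_source.mem_nhds (hB x hx).chart.mem))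
  refine ⟨T, r, ψ, hTc, fun x hx => hB x (hTs hx), fun y hy => ?_⟩
  obtain ⟨x, hx, hxy⟩ := mem_iUnion₂.1 (hT hy)
  exact ⟨x, hx, hxy⟩

private theorem bad_back (F : Fol Ω f V w) {a b : E2} (ha : a ∈ Ω) (hb : b ∈ Ω) {s t : ℂ}
    (h : fl Ω V a s = fl Ω V b t) : fl Ω V a (s - t) = b := by
  rw [sub_eq_add_neg, fl_add F ha, h, ← fl_add F hb, add_neg_cancel, fl_zero F hb]

private theorem bad_per (F : Fol Ω f V w) {x : E2} {r : ℝ} {ψ : OpenPartialHomeomorph E2 E2}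
    (B : Box Ω f V x r ψ) {y : E2} (hy : y ∈ ψ.source) :
    f y ∈ ball (f x) r ∧ ψ.symm (f y, 0) ∈ Ω ∧ per Ω V y = per Ω V (ψ.symm (f y, 0)) := by
  have h1 := ψ.map_source hy
  rw [B.chart.target, mem_prod, B.chart.fst y hy] at h1
  have h2 : ψ.symm (f y, 0) ∈ Ω := ((box_sec B).reg (f y) h1.1).1
  refine ⟨h1.1, h2, ?_⟩
  have h3 := box_orbit B hy
  have h4 := per_fl F h2 (ψ y).2
  rw [h3] at h4
  exact h4

theorem bad_ex (F : Fol Ω f V w) : ∃ Bad : Set ℂ, GoodSet Ω f V Bad := by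
  classical
  obtain ⟨T, r, ψ, hT, hB, hcov⟩ := fam_ex F
  set D : E2 → Set ℂ := fun x => ball (f x) (r x) with hD
  set s : E2 → ℂ → E2 := fun x c => (ψ x).symm (c, 0) with hs
  have hsec : ∀ x ∈ T, Sec Ω f V (D x) (s x) := fun x hx => box_sec (hB x hx)
  set B1 : E2 → Set ℂ := fun x => {c | (VS Ω V (D x) (s x)).Nonempty ∧
    c ∈ D x \ VS Ω V (D x) (s x)} with hB1
  set B2 : E2 → E2 → Set ℂ := fun x y => {c | (CO Ω V (D x) (D y) (s x) (s y)).Nonempty ∧
    c ∈ (D x ∩ D y) \ CO Ω V (D x) (D y) (s x) (s y)} with hB2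
  set Bad : Set ℂ := ((critVal Ω f ∪ zeroVal Ω f V) ∪ ⋃ x ∈ T, B1 x) ∪
    ⋃ x ∈ T, ⋃ y ∈ T, B2 x y with hBad
  have c1 : ∀ x ∈ T, (B1 x).Countable := by
    intro x hx
    rcases iso F (hsec x hx) (convex_ball _ _).isPreconnected with h | h
    · have : B1 x = ∅ := by
        apply eq_empty_of_forall_notMem
        rintro c ⟨h1, -⟩
        rw [h] at h1
        exact not_nonempty_empty h1
      rw [this]
      exact countable_empty
    · exact h.mono fun c hc => hc.2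
  have c2 : ∀ x ∈ T, ∀ y ∈ T, (B2 x y).Countable := by
    intro x hx y hy
    rcases pair F (hsec x hx) (hsec y hy) (convex_ball _ _) (convex_ball _ _) with h | h
    · have : B2 x y = ∅ := by
        apply eq_empty_of_forall_notMem
        rintro c ⟨h1, -⟩
        rw [h] at h1
        exact not_nonempty_empty h1
      rw [this]
      exact countable_empty
    · exact h.mono fun c hc => hc.2
  have m1 : ∀ x ∈ T, ∀ c ∈ D x, c ∉ Bad → (VS Ω V (D x) (s x)).Nonempty →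
      c ∈ VS Ω V (D x) (s x) := by
    intro x hx c hc hcB hne
    by_contra hcon
    apply hcB
    exact Or.inl (Or.inr (mem_biUnion hx ⟨hne, hc, hcon⟩))
  have m2 : ∀ x ∈ T, ∀ y ∈ T, ∀ c ∈ D x ∩ D y, c ∉ Bad →
      (CO Ω V (D x) (D y) (s x) (s y)).Nonempty → c ∈ CO Ω V (D x) (D y) (s x) (s y) := by
    intro x hx y hy c hc hcB hne
    by_contra hcon
    apply hcB
    exact Or.inr (mem_biUnion hx (mem_biUnion hy ⟨hne, hc, hcon⟩))
  refine ⟨Bad, ?_, ?_, ?_, ?_, ?_⟩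
  · refine (((crit_countable F).union (zero_countable F)).union (hT.biUnion c1)).union ?_
    exact hT.biUnion fun x hx => hT.biUnion (c2 x hx)
  · exact fun c hc => Or.inl (Or.inl (Or.inl hc))
  · exact fun c hc => Or.inl (Or.inl (Or.inr hc))
  · intro x hx
    obtain ⟨x', hx', hxx⟩ := hcov x hx
    have hn := (ψ x').open_source.mem_nhds hxx
    rcases (VS Ω V (D x') (s x')).eq_empty_or_nonempty with he | hne
    · left
      filter_upwards [hn] with y hy _
      obtain ⟨h1, h2, h3⟩ := bad_per F (hB x' hx') hy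
      rw [h3]
      apply Subset.antisymm
      · intro t ht
        by_contra h0
        have : f y ∈ VS Ω V (D x') (s x') := ⟨h1, t, ht, h0⟩
        rw [he] at this
        exact this
      · rintro t rfl
        exact per_zero F h2
    · right
      filter_upwards [hn] with y hy hg h0
      obtain ⟨h1, h2, h3⟩ := bad_per F (hB x' hx') hy
      obtain ⟨-, t, ht, ht0⟩ := m1 x' hx' (f y) h1 hg hne
      rw [h3] at h0
      have h4 : t ∈ per Ω V ((ψ x').symm (f y, 0)) := ht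
      rw [h0] at h4
      exact ht0 h4
  · intro x hx y hy hxy hg hn
    obtain ⟨x', hx', hxx⟩ := hcov x hx
    obtain ⟨y', hy', hyy⟩ := hcov y hy
    have e1 : ∀ᶠ p : E2 × E2 in 𝓝 (x, y), p.1 ∈ (ψ x').source :=
      continuous_fst.continuousAt.eventually ((ψ x').open_source.mem_nhds hxx)
    have e2 : ∀ᶠ p : E2 × E2 in 𝓝 (x, y), p.2 ∈ (ψ y').source :=
      continuous_snd.continuousAt.eventually ((ψ y').open_source.mem_nhds hyy)
    filter_upwards [e1, e2] with p hp1 hp2 hpf hpg t ht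
    obtain ⟨a1, a2, -⟩ := bad_per F (hB x' hx') hp1
    obtain ⟨b1, b2, -⟩ := bad_per F (hB y' hy') hp2
    have o1 := box_orbit (hB x' hx') hp1
    have o2 := box_orbit (hB y' hy') hp2
    have hne : (CO Ω V (D x') (D y') (s x') (s y')).Nonempty := by
      refine ⟨f p.1, ⟨a1, by rw [hpf]; exact b1⟩, ((ψ x') p.1).2 + t - ((ψ y') p.2).2, ?_⟩
      show fl Ω V ((ψ x').symm (f p.1, 0)) _ = (ψ y').symm (f p.1, 0)
      rw [hpf] at o1 a2 ⊢
      refine bad_back F a2 b2 ?_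
      rw [fl_add F a2, o1, ht, o2]
    obtain ⟨g1, g2, -⟩ := bad_per F (hB x' hx') hxx
    obtain ⟨k1, k2, -⟩ := bad_per F (hB y' hy') hyy
    have q1 := box_orbit (hB x' hx') hxx
    have q2 := box_orbit (hB y' hy') hyy
    obtain ⟨-, t', ht'⟩ := m2 x' hx' y' hy' (f x) ⟨g1, by rw [hxy]; exact k1⟩ hg hne
    have ht'' : fl Ω V ((ψ x').symm (f x, 0)) t' = (ψ y').symm (f x, 0) := ht'
    rw [← hxy] at q2 k2
    apply hn (-((ψ x') x).2 + t' + ((ψ y') y).2)
    have z1 : fl Ω V x (-((ψ x') x).2) = (ψ x').symm (f x, 0) := by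
      have h5 := bad_back F hx.1 g2 (s := 0) (t := ((ψ x') x).2) (by rw [fl_zero F hx.1, q1])
      rwa [zero_sub] at h5
    rw [fl_add F hx.1, fl_add F hx.1, z1, ht'', q2]

end Pool.Agent.MP_fe3720.NF
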