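import Pool.Agent.Work.MP_fe3720_an.NF.Sep

/-! # Module Disc (helper36): `HasDiscs`

PROOF. Let `a ∈ Ω`. By `f_ident` there is a point `b` near `a` (in a ball in `Ω`) with `f b ≠ f a`;
`g ζ = f (a + ζ (b - a))` is holomorphic near `0`, not constant near `0`: `g ζ = f a + ζ^k u ζ`, `k ≥ 1`,
`u` analytic, `u 0 ≠ 0` (`AnalyticAt.analyticOrderAt`…, `AnalyticAt.exists_eventuallyEq_pow_smul_nonzero_iff`).
A `k`-th root `v` of `u` near `0` (analytic, `v 0 ≠ 0`); `ζ v ζ` is a local homeomorphism at `0`, with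
inverse `ρ`; `h z = a + ρ z • (b - a)`. -/

namespace Pool.Agent.MP_fe3720.NF

open Set Topology Filter Metric Pool.Agent.MP_fe3720.NR

variable {Ω : Set E2} {f : E2 → ℂ} {V : E2 → E2} {w : E2 → E2 → ℂ}

private theorem root_ex {u : ℂ → ℂ} (hu : AnalyticAt ℂ u 0) (h0 : u 0 ≠ 0) {k : ℕ}
    (hk : k ≠ 0) : ∃ v : ℂ → ℂ, AnalyticAt ℂ v 0 ∧ v 0 ≠ 0 ∧ ∀ᶠ ζ in 𝓝 (0 : ℂ), v ζ ^ k = u ζ := by
  obtain ⟨c, hc⟩ := IsAlgClosed.exists_pow_nat_eq (u 0) (Nat.pos_of_ne_zero hk)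
  have hc0 : c ≠ 0 := by
    rintro rfl
    rw [zero_pow hk] at hc
    exact h0 hc.symm
  have hq : AnalyticAt ℂ (fun ζ => u ζ / u 0) 0 := hu.div analyticAt_const h0
  have hq0 : u 0 / u 0 = 1 := div_self h0
  have hlog : AnalyticAt ℂ (fun ζ => Complex.log (u ζ / u 0)) 0 := by
    refine hq.clog ?_
    rw [hq0]
    exact Complex.one_mem_slitPlane
  refine ⟨fun ζ => c * Complex.exp (Complex.log (u ζ / u 0) / k), ?_, ?_, ?_⟩
  · exact analyticAt_const.mul ((hlog.div analyticAt_const (by exact_mod_cast hk)).cexp)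
  · exact mul_ne_zero hc0 (Complex.exp_ne_zero _)
  · have h1 : ∀ᶠ ζ in 𝓝 (0 : ℂ), u ζ ≠ 0 := hu.continuousAt.eventually_ne h0
    filter_upwards [h1] with ζ hζ
    rw [mul_pow, ← Complex.exp_nat_mul, hc, mul_div_cancel₀ _ (by exact_mod_cast hk : (k : ℂ) ≠ 0),
      Complex.exp_log (div_ne_zero hζ h0), mul_div_cancel₀ _ h0]

theorem has_discs (F : Fol Ω f V w) : HasDiscs Ω f := by
  intro a ha
  obtain ⟨δ, hδ, hball⟩ := Metric.isOpen_iff.1 F.isOpen a ha
  obtain ⟨b, hb, hfb⟩ := f_ident F ha (ball_mem_nhds a hδ)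
  set L : ℂ → E2 := fun ζ => a + ζ • (b - a) with hL
  have hLd : Differentiable ℂ L := by
    rw [hL]
    fun_prop
  set D : Set ℂ := L ⁻¹' ball a δ with hD
  have hDo : IsOpen D := isOpen_ball.preimage hLd.continuous
  have hDeq : D = {ζ : ℂ | ‖ζ‖ * ‖b - a‖ < δ} := by
    ext ζ
    rw [hD, mem_preimage, mem_ball, dist_eq_norm, hL]
    simp only [add_sub_cancel_left, norm_smul, mem_ofPred_eq]
  have h0D : (0 : ℂ) ∈ D := by
    rw [hDeq]
    simpa using hδ
  have h1D : (1 : ℂ) ∈ D := by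
    rw [hDeq]
    have h := hb
    rw [mem_ball, dist_eq_norm] at h
    simpa using h
  have hDc : IsPreconnected D := by
    have hne : 0 < ‖b - a‖ := by
      rw [norm_pos_iff, sub_ne_zero]
      rintro rfl
      exact hfb rfl
    have h : D = ball (0 : ℂ) (δ / ‖b - a‖) := by
      rw [hDeq]
      ext ζ
      rw [mem_ball_zero_iff, lt_div_iff₀ hne]
      rfl
    rw [h]
    exact (convex_ball _ _).isPreconnected
  set g : ℂ → ℂ := fun ζ => f (L ζ) - f a with hg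
  have hgd : DifferentiableOn ℂ g D := by
    rw [hg]
    refine DifferentiableOn.sub ?_ (differentiableOn_const _)
    exact F.holf.comp hLd.differentiableOn fun ζ hζ => hball hζ
  have hga : AnalyticOnNhd ℂ g D := hgd.analyticOnNhd hDo
  have hL0 : L 0 = a := by simp [hL]
  have hL1 : L 1 = b := by simp [hL]
  have hg0 : g 0 = 0 := by rw [hg]; simp [hL0]
  have hg1 : g 1 ≠ 0 := by
    rw [hg]
    simp only [hL1]
    exact sub_ne_zero.2 hfb
  have hnz : ¬ ∀ᶠ ζ in 𝓝 (0 : ℂ), g ζ = 0 := by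
    intro h
    exact hg1 (hga.eqOn_zero_of_preconnected_of_eventuallyEq_zero hDc h0D h h1D)
  obtain ⟨k, u, hua, hu0, hu⟩ :=
    ((hga 0 h0D).exists_eventuallyEq_pow_smul_nonzero_iff).2 hnz
  have hk : k ≠ 0 := by
    rintro rfl
    have h := hu.self_of_nhds
    rw [hg0, pow_zero, one_smul] at h
    exact hu0 h.symm
  obtain ⟨v, hva, hv0, hv⟩ := root_ex hua hu0 hk
  set ψ : ℂ → ℂ := fun ζ => ζ * v ζ with hψ
  have hψa : AnalyticAt ℂ ψ 0 := analyticAt_id.mul hva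
  have hψd : HasDerivAt ψ (v 0) 0 := by
    have h := (hasDerivAt_id' (0 : ℂ)).mul hva.differentiableAt.hasDerivAt
    have e : (1 : ℂ) * v 0 + 0 * deriv v 0 = v 0 := by ring
    rw [e] at h
    exact h
  have hψs : HasStrictDerivAt ψ (v 0) 0 := by
    have h := hψa.hasStrictDerivAt
    rwa [hψd.deriv] at h
  have hψf := hψs.hasStrictFDerivAt_equiv hv0
  set e := hψf.toOpenPartialHomeomorph ψ with he
  have hes : (0 : ℂ) ∈ e.source := hψf.mem_toOpenPartialHomeomorph_source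
  have hec : ∀ ζ, e ζ = ψ ζ := fun ζ => by
    rw [he]
    rfl
  have hψ0 : ψ 0 = 0 := by simp [hψ]
  have het : (0 : ℂ) ∈ e.target := by
    have h := e.map_source hes
    rwa [hec, hψ0] at h
  have hes0 : e.symm 0 = 0 := by
    have h := e.left_inv hes
    rwa [hec, hψ0] at h
  have hW : ∀ᶠ z in 𝓝 (0 : ℂ), z ∈ e.target ∧ (e.symm z ∈ D ∧
      g (e.symm z) = (e.symm z - 0) ^ k • u (e.symm z) ∧ v (e.symm z) ^ k = u (e.symm z)) := by
    refine (e.open_target.mem_nhds het |> fun h => h : ∀ᶠ z in 𝓝 (0 : ℂ), z ∈ e.target).and ?_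
    have hc : Tendsto e.symm (𝓝 0) (𝓝 0) := by
      have h := (e.continuousAt_symm het).tendsto
      rwa [hes0] at h
    have hDm : ∀ᶠ ζ in 𝓝 (0 : ℂ), ζ ∈ D := hDo.mem_nhds h0D
    exact hc.eventually (hDm.and (hu.and hv))
  obtain ⟨r, hr, hball2⟩ := Metric.eventually_nhds_iff_ball.1 hW
  refine ⟨k, Nat.one_le_iff_ne_zero.2 hk, r, hr, fun z => L (e.symm z), ?_, ?_, ?_⟩
  · exact hLd.continuous.comp_continuousOn
      (e.continuousOn_symm.mono fun z hz => (hball2 z hz).1)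
  · show L (e.symm 0) = a
    rw [hes0, hL0]
  · intro z hz
    obtain ⟨h1, h2, h3, h4⟩ := hball2 z hz
    refine ⟨hball h2, ?_⟩
    have h5 : ψ (e.symm z) = z := by
      rw [← hec]
      exact e.right_inv h1
    have h6 : f (L (e.symm z)) - f a = z ^ k := by
      have h7 : g (e.symm z) = z ^ k := by
        rw [h3, sub_zero, smul_eq_mul, ← h4, ← mul_pow]
        exact congrArg (· ^ k) h5
      exact h7
    show f (L (e.symm z)) = f a + z ^ k
    rw [← h6]
    ring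

end Pool.Agent.MP_fe3720.NF
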