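import Pool.Agent.Work.MP_fe3720_an.NF.Tube

/-! # Module Conti: continuation of a connection between two sections

PROOF. Let `z = s' c₀ = fl (s c₀) t₀`, box `ψ` at `z` (`box_ex`, `reg_fl`); by `tube_loc` for
`(c,t)` near `(c₀,t₀)`: `ψ (fl (s c) t) = (c, g c + t)`; for `c` near `c₀`: `s' c ∈ ψ.source` and
`ψ (s' c) = (c, h c)`, `h` holomorphic near `c₀`, `h c₀ = 0`. Put `τ c = h c - g c`. -/

namespace Pool.Agent.MP_fe3720.NF

open Set Topology Filter Metric Pool.Agent.MP_fe3720.NR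

variable {Ω : Set E2} {f : E2 → ℂ} {V : E2 → E2} {w : E2 → E2 → ℂ}

theorem conti (F : Fol Ω f V w) {D D' : Set ℂ} {s s' : ℂ → E2} (S : Sec Ω f V D s)
    (S' : Sec Ω f V D' s') {c₀ t₀ : ℂ} (hc : c₀ ∈ D) (hc' : c₀ ∈ D')
    (h : fl Ω V (s c₀) t₀ = s' c₀) :
    ∃ τ : ℂ → ℂ, τ c₀ = t₀ ∧ AnalyticAt ℂ τ c₀ ∧ (∀ᶠ c in 𝓝 c₀, fl Ω V (s c) (τ c) = s' c) ∧
      ∀ᶠ p : ℂ × ℂ in 𝓝 (c₀, t₀), fl Ω V (s p.1) p.2 = s' p.1 → p.2 = τ p.1 := by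
  obtain ⟨r, ψ, B, -⟩ := box_ex F (S'.reg c₀ hc') (univ_mem : (univ : Set E2) ∈ 𝓝 (s' c₀))
  have B1 : Box Ω f V (fl Ω V (s c₀) t₀) r ψ := by rw [h]; exact B
  obtain ⟨g, hg, hg0, hgev⟩ := tube_loc F S hc B1
  have hD' : D' ∈ 𝓝 c₀ := S'.isOpen.mem_nhds hc'
  have hs'c : ContinuousAt s' c₀ := (S'.hol.differentiableAt hD').continuousAt
  have hsrc : ∀ᶠ c in 𝓝 c₀, s' c ∈ ψ.source :=
    hs'c.eventually (ψ.open_source.mem_nhds B.chart.mem)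
  have hfs : ∀ᶠ c in 𝓝 c₀, c ∈ D' := hD'
  have h1 : ∀ᶠ c in 𝓝 c₀, s' c ∈ ψ.source ∧ ψ (s' c) = (c, (ψ (s' c)).2) := by
    filter_upwards [hsrc, hfs] with c hc1 hc2
    refine ⟨hc1, Prod.ext ?_ rfl⟩
    show (ψ (s' c)).1 = c
    rw [B.chart.fst _ hc1, S'.fs c hc2]
  have hdiff : ∀ᶠ c in 𝓝 c₀, DifferentiableAt ℂ (fun c => (ψ (s' c)).2) c := by
    filter_upwards [hsrc, hfs] with c hc1 hc2
    have h2 : DifferentiableAt ℂ s' c := S'.hol.differentiableAt (S'.isOpen.mem_nhds hc2)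
    have h3 : DifferentiableAt ℂ ψ (s' c) :=
      B.chart.hol.differentiableAt (ψ.open_source.mem_nhds hc1)
    exact (h3.comp c h2).snd
  have hh : AnalyticAt ℂ (fun c => (ψ (s' c)).2) c₀ :=
    Complex.analyticAt_iff_eventually_differentiableAt.2 hdiff
  have hh0 : (ψ (s' c₀)).2 = 0 := by rw [B.chart.ctr]
  have hτ : AnalyticAt ℂ (fun c => (ψ (s' c)).2 - g c) c₀ := hh.sub hg
  refine ⟨fun c => (ψ (s' c)).2 - g c, ?_, hτ, ?_, ?_⟩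
  · show (ψ (s' c₀)).2 - g c₀ = t₀
    rw [hh0, hg0]; ring
  · have ht : Tendsto (fun c => (c, (ψ (s' c)).2 - g c)) (𝓝 c₀) (𝓝 (c₀, t₀)) := by
      have h4 : ContinuousAt (fun c => (c, (ψ (s' c)).2 - g c)) c₀ :=
        continuousAt_id.prodMk hτ.continuousAt
      have h5 := h4.tendsto
      have h6 : (ψ (s' c₀)).2 - g c₀ = t₀ := by rw [hh0, hg0]; ring
      simp only [h6] at h5
      exact h5
    filter_upwards [ht.eventually hgev, h1] with c hc1 hc2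
    refine ψ.injOn hc1.1 hc2.1 ?_
    rw [hc1.2, hc2.2]
    refine Prod.ext rfl ?_
    show g c + ((ψ (s' c)).2 - g c) = (ψ (s' c)).2
    ring
  · filter_upwards [hgev] with p hp1 hp3
    have h8 := hp1.2
    rw [hp3] at h8
    show p.2 = (ψ (s' p.1)).2 - g p.1
    rw [h8]
    show p.2 = g p.1 + p.2 - g p.1
    ring

end Pool.Agent.MP_fe3720.NF
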