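import Pool.Agent.Work.MP_fe3720_an.NF.Flow

/-! # Module PerStr: the group of periods is cyclic

`per_add`, `per_neg`: `fl_add`. `per_fl`: `fl (fl x u) t = fl x (u + t) = fl (fl x t) u`.
`conn_iff`: if `fl x t₀ = y` then `fl x t = y ↔ t - t₀ ∈ per x`.
`per_cyc`: PROOF. `H = per x` is an additive subgroup of `ℂ`. It is discrete: the trajectory
`γ = fl x` has derivative `V x ≠ 0` at `0`, so `γ t ≠ γ 0` for small `t ≠ 0`
(`HasDerivAt.eventually_ne`). If `H` contains two elements `a, b` independent over `ℝ` then `γ` is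
bounded (every `t : ℂ` is `p + u`, `p ∈ ℤ a + ℤ b`, `u` in the compact parallelogram; `γ` is
continuous), so constant (`Differentiable.apply_eq_apply_of_bounded`), contradiction. So `H` is
contained in a real line `ℝ μ`, and a discrete subgroup of `ℝ` is cyclic
(`AddSubgroup.dense_or_cyclic`). -/

namespace Pool.Agent.MP_fe3720.NF

open Set Topology Filter Metric Pool.Agent.MP_fe3720.NR

variable {Ω : Set E2} {f : E2 → ℂ} {V : E2 → E2} {w : E2 → E2 → ℂ}

theorem per_zero (F : Fol Ω f V w) {x : E2} (hx : x ∈ Ω) : (0 : ℂ) ∈ per Ω V x :=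
  fl_zero F hx

theorem per_add (F : Fol Ω f V w) {x : E2} (hx : x ∈ Ω) {s t : ℂ} (hs : s ∈ per Ω V x)
    (ht : t ∈ per Ω V x) : s + t ∈ per Ω V x := by
  change fl Ω V x (s + t) = x
  rw [fl_add F hx, show fl Ω V x s = x from hs]
  exact ht

theorem per_neg (F : Fol Ω f V w) {x : E2} (hx : x ∈ Ω) {t : ℂ} (ht : t ∈ per Ω V x) :
    -t ∈ per Ω V x := by
  change fl Ω V x (-t) = x
  have h1 : fl Ω V x (t + -t) = fl Ω V x (-t) := by
    rw [fl_add F hx, show fl Ω V x t = x from ht]
  rw [← h1, add_neg_cancel, fl_zero F hx]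

private theorem exists_grp (F : Fol Ω f V w) {x : E2} (hx : x ∈ Ω) :
    ∃ H : AddSubgroup ℂ, ∀ t, t ∈ H ↔ t ∈ per Ω V x :=
  ⟨{ carrier := per Ω V x
     add_mem' := fun ha hb => per_add F hx ha hb
     zero_mem' := per_zero F hx
     neg_mem' := fun ha => per_neg F hx ha }, fun _ => Iff.rfl⟩

theorem per_zmul (F : Fol Ω f V w) {x : E2} (hx : x ∈ Ω) {t : ℂ} (ht : t ∈ per Ω V x) (n : ℤ) :
    n * t ∈ per Ω V x := by
  obtain ⟨H, hH⟩ := exists_grp F hx
  have h1 := H.zsmul_mem ((hH t).2 ht) n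
  rw [zsmul_eq_mul] at h1
  exact (hH _).1 h1

theorem per_fl (F : Fol Ω f V w) {x : E2} (hx : x ∈ Ω) (t : ℂ) :
    per Ω V (fl Ω V x t) = per Ω V x := by
  ext u
  constructor
  · intro h
    have h1 : fl Ω V (fl Ω V x t) u = fl Ω V x t := h
    rw [← fl_add F hx] at h1
    change fl Ω V x u = x
    have h2 : fl Ω V x ((t + u) + -t) = x := by
      rw [fl_add F hx (t + u), h1, ← fl_add F hx, add_neg_cancel, fl_zero F hx]
    have h3 : (t + u) + -t = u := by ring
    rw [h3] at h2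
    exact h2
  · intro h
    change fl Ω V (fl Ω V x t) u = fl Ω V x t
    rw [← fl_add F hx, add_comm, fl_add F hx, show fl Ω V x u = x from h]

theorem conn_iff (F : Fol Ω f V w) {x y : E2} (hx : x ∈ Ω) {t₀ t : ℂ} (h : fl Ω V x t₀ = y) :
    fl Ω V x t = y ↔ t - t₀ ∈ per Ω V x := by
  constructor
  · intro h1
    change fl Ω V x (t - t₀) = x
    rw [sub_eq_add_neg, fl_add F hx t, h1, ← h, ← fl_add F hx, add_neg_cancel, fl_zero F hx]
  · intro h1
    rw [← h]
    have h2 : t = (t - t₀) + t₀ := by ring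
    rw [h2, fl_add F hx, show fl Ω V x (t - t₀) = x from h1]

private theorem no_small' (F : Fol Ω f V w) {x : E2} (hx : x ∈ Ω) (hV : V x ≠ 0) :
    ∃ ε > 0, ∀ t ∈ per Ω V x, ‖t‖ < ε → t = 0 := by
  have h1 : HasDerivAt (fl Ω V x) (V x) 0 := by
    have := fl_deriv F hx 0
    rwa [fl_zero F hx] at this
  have h2 : ∀ᶠ z in 𝓝[≠] (0 : ℂ), fl Ω V x z ≠ x := h1.eventually_ne hV
  rw [eventually_nhdsWithin_iff, Metric.eventually_nhds_iff] at h2
  obtain ⟨ε, hε, h3⟩ := h2
  refine ⟨ε, hε, fun t ht hte => ?_⟩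
  by_contra h4
  exact h3 (by simpa using hte) h4 ht

/-- all periods are real multiples of a nonzero one -/
private theorem per_line (F : Fol Ω f V w) {x : E2} (hx : x ∈ Ω) (hV : V x ≠ 0) {μ : ℂ}
    (hμ : μ ∈ per Ω V x) (hμ0 : μ ≠ 0) {t : ℂ} (ht : t ∈ per Ω V x) : (t / μ).im = 0 := by
  by_contra him
  set τ := t / μ with hτ
  -- the compact parallelogram
  have hcont : Continuous (fl Ω V x) :=
    continuous_iff_continuousAt.2 fun z => (fl_deriv F hx z).continuousAt
  have hdiff : Differentiable ℂ (fl Ω V x) := fun z => (fl_deriv F hx z).differentiableAt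
  set K : Set ℂ := (fun p : ℝ × ℝ => ((p.1 : ℂ) + (p.2 : ℂ) * τ) * μ) ''
    (Icc (0 : ℝ) 1 ×ˢ Icc (0 : ℝ) 1) with hK
  have hKc : IsCompact K := by
    refine (isCompact_Icc.prod isCompact_Icc).image ?_
    fun_prop
  have hsub : range (fl Ω V x) ⊆ fl Ω V x '' K := by
    rintro _ ⟨u, rfl⟩
    set q : ℝ := (u / μ).im / τ.im with hq
    set p : ℝ := (u / μ).re - q * τ.re with hp
    have hu : u = ((p : ℂ) + (q : ℂ) * τ) * μ := by
      have h1 : u / μ = (p : ℂ) + (q : ℂ) * τ := by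
        apply Complex.ext
        · simp [hp]
        · simp [hq]
          field_simp
      rw [← h1]
      field_simp
    refine ⟨((Int.fract p : ℝ) + (Int.fract q : ℝ) * τ) * μ,
      ⟨(Int.fract p, Int.fract q), ⟨⟨Int.fract_nonneg p, (Int.fract_lt_one p).le⟩,
        ⟨Int.fract_nonneg q, (Int.fract_lt_one q).le⟩⟩, rfl⟩, ?_⟩
    have h2 : (⌊p⌋ : ℂ) * μ + (⌊q⌋ : ℂ) * t ∈ per Ω V x :=
      per_add F hx (per_zmul F hx hμ _) (per_zmul F hx ht _)
    have h3 : u = ((⌊p⌋ : ℂ) * μ + (⌊q⌋ : ℂ) * t) +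
        ((Int.fract p : ℝ) + (Int.fract q : ℝ) * τ) * μ := by
      have h4 : t = τ * μ := by
        rw [hτ]
        field_simp
      have h5 : (p : ℂ) = (⌊p⌋ : ℂ) + ((Int.fract p : ℝ) : ℂ) := by
        have := Int.floor_add_fract p
        exact_mod_cast this.symm
      have h6 : (q : ℂ) = (⌊q⌋ : ℂ) + ((Int.fract q : ℝ) : ℂ) := by
        have := Int.floor_add_fract q
        exact_mod_cast this.symm
      rw [hu, h5, h6, h4]
      ring
    conv_rhs => rw [h3, fl_add F hx, show fl Ω V x ((⌊p⌋ : ℂ) * μ + (⌊q⌋ : ℂ) * t) = x from h2]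
  have hb : Bornology.IsBounded (range (fl Ω V x)) :=
    ((hKc.image hcont).isBounded).subset hsub
  have h1 : ∀ z, fl Ω V x z = fl Ω V x 0 := fun z => hdiff.apply_eq_apply_of_bounded hb z 0
  have h2 : HasDerivAt (fl Ω V x) (V x) 0 := by
    have := fl_deriv F hx 0
    rwa [fl_zero F hx] at this
  have h3 : HasDerivAt (fl Ω V x) 0 0 := by
    have h4 : fl Ω V x = fun _ => fl Ω V x 0 := funext h1
    rw [h4]
    exact hasDerivAt_const _ _
  exact hV (h2.unique h3)

theorem per_cyc (F : Fol Ω f V w) {x : E2} (hx : x ∈ Ω) (hV : V x ≠ 0) :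
    ∃ l : ℂ, per Ω V x = {t | ∃ n : ℤ, t = n * l} := by
  by_cases h0 : ∃ μ ∈ per Ω V x, μ ≠ 0
  · obtain ⟨μ, hμ, hμ0⟩ := h0
    obtain ⟨H, hH⟩ := exists_grp F hx
    obtain ⟨ε, hε, hsmall⟩ := no_small' F hx hV
    have hμn : 0 < ‖μ‖ := norm_pos_iff.2 hμ0
    set S : AddSubgroup ℝ :=
      { carrier := {r | (r : ℂ) * μ ∈ per Ω V x}
        add_mem' := by
          intro a b ha hb
          have h1 : ((a + b : ℝ) : ℂ) * μ = (a : ℂ) * μ + (b : ℂ) * μ := by
            push_cast
            ring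
          change ((a + b : ℝ) : ℂ) * μ ∈ per Ω V x
          rw [h1]
          exact per_add F hx ha hb
        zero_mem' := by
          change ((0 : ℝ) : ℂ) * μ ∈ per Ω V x
          rw [Complex.ofReal_zero, zero_mul]
          exact per_zero F hx
        neg_mem' := by
          intro a ha
          change ((-a : ℝ) : ℂ) * μ ∈ per Ω V x
          have h1 : ((-a : ℝ) : ℂ) * μ = -((a : ℂ) * μ) := by
            push_cast
            ring
          rw [h1]
          exact per_neg F hx ha } with hS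
    have hSm : ∀ r : ℝ, r ∈ S ↔ (r : ℂ) * μ ∈ per Ω V x := fun r => Iff.rfl
    rcases S.dense_or_cyclic with hd | ⟨a, ha⟩
    · exfalso
      obtain ⟨r, hr, hr1, hr2⟩ := hd.exists_between (show (0 : ℝ) < ε / ‖μ‖ by positivity)
      have h1 := hsmall _ ((hSm r).1 hr) (by
        rw [norm_mul, Complex.norm_real, Real.norm_of_nonneg hr1.le]
        rwa [lt_div_iff₀ hμn] at hr2)
      rcases mul_eq_zero.1 h1 with h2 | h2
      · exact hr1.ne' (by exact_mod_cast h2)
      · exact hμ0 h2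
    · refine ⟨(a : ℂ) * μ, ?_⟩
      ext t
      constructor
      · intro ht
        have him := per_line F hx hV hμ hμ0 ht
        have h1 : t = ((t / μ).re : ℂ) * μ := by
          have h2 : ((t / μ).re : ℂ) = t / μ := by
            apply Complex.ext
            · simp
            · simp [him]
          rw [h2]
          field_simp
        have h2 : (t / μ).re ∈ S := by
          rw [hSm, ← h1]
          exact ht
        rw [ha, AddSubgroup.mem_closure_singleton] at h2
        obtain ⟨n, hn⟩ := h2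
        refine ⟨n, ?_⟩
        rw [h1, ← hn, zsmul_eq_mul]
        push_cast
        ring
      · rintro ⟨n, rfl⟩
        refine per_zmul F hx ?_ n
        rw [← hSm, ha]
        exact AddSubgroup.subset_closure rfl
  · push Not at h0
    refine ⟨0, ?_⟩
    ext t
    constructor
    · intro ht
      exact ⟨0, by rw [h0 t ht]; simp⟩
    · rintro ⟨n, rfl⟩
      rw [mul_zero]
      exact per_zero F hx

end Pool.Agent.MP_fe3720.NF
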