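import Pool.Agent.Work.MP_fe3720_an.NF.NoSmall
import Pool.Agent.Work.MP_fe3720_an.NF.Conti
import Pool.Agent.Work.MP_fe3720_an.NF.PerStr

/-! # Module Gen: continuation of a generator of the group of periods

PROOF. `conti` with `s' = s`, `t₀ = l₀`: an analytic `l` near `c₀` with `l c₀ = l₀`,
`l c ∈ per (s c)`, so `l c ≠ 0` and `ℤ l c ⊆ per (s c)` for `c` near `c₀`. Suppose `per (s c)` is
larger for `c` arbitrarily near `c₀` (frequently): by `per_cyc` `per (s c) = ℤ μ(c)`,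
`l c = m(c) μ(c)` with an integer `|m c| ≥ 2` (`m c = 0` is impossible, `m c = ± 1` gives equality),
`|μ c| ≥ ε` by `no_small` (for `c` near `c₀`), and `|l c| ≤ |l₀| + 1`, so `|m c| ≤ (|l₀| + 1)/ε`
takes finitely many values; for one integer `m`, `|m| ≥ 2`, frequently `m c = m`, and then
`μ c = l c / m → l₀ / m`; `lim_orbit` gives `l₀ / m ∈ per (s c₀) = ℤ l₀`, so `1/m` is an integer,
contradiction. -/

namespace Pool.Agent.MP_fe3720.NF

open Set Topology Filter Metric Pool.Agent.MP_fe3720.NR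

variable {Ω : Set E2} {f : E2 → ℂ} {V : E2 → E2} {w : E2 → E2 → ℂ}

theorem gen (F : Fol Ω f V w) {D : Set ℂ} {s : ℂ → E2} (S : Sec Ω f V D s) {c₀ l₀ : ℂ}
    (hc : c₀ ∈ D) (hl : l₀ ≠ 0) (hp : per Ω V (s c₀) = {t | ∃ n : ℤ, t = n * l₀}) :
    ∃ l : ℂ → ℂ, l c₀ = l₀ ∧ AnalyticAt ℂ l c₀ ∧
      ∀ᶠ c in 𝓝 c₀, l c ≠ 0 ∧ per Ω V (s c) = {t | ∃ n : ℤ, t = n * l c} := by
  have h0 : fl Ω V (s c₀) l₀ = s c₀ := by
    have h1 : l₀ ∈ per Ω V (s c₀) := by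
      rw [hp]
      exact ⟨1, by simp⟩
    exact h1
  obtain ⟨τ, hτ0, hτa, hτ1, -⟩ := conti F S S hc hc h0
  have hτc : Tendsto τ (𝓝 c₀) (𝓝 l₀) := by
    have h1 : Tendsto τ (𝓝 c₀) (𝓝 (τ c₀)) := hτa.continuousAt
    rwa [hτ0] at h1
  obtain ⟨ε, hε, hsm⟩ := no_small F S hc
  -- no smaller generator
  have key : ∀ m : ℤ, 2 ≤ |m| → ∀ᶠ c in 𝓝 c₀, τ c / (m : ℂ) ∉ per Ω V (s c) := by
    intro m hm
    by_contra hcon
    have hfr : ∃ᶠ c in 𝓝 c₀, fl Ω V (s c) (τ c / (m : ℂ)) = s c := by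
      intro hcon'
      exact hcon (hcon'.mono fun c hc1 hc2 => hc1 hc2)
    have h1 : fl Ω V (s c₀) (l₀ / (m : ℂ)) = s c₀ :=
      lim_orbit F S S hc hc (l := 𝓝 c₀) (c := fun c => c) (t := fun c => τ c / (m : ℂ))
        tendsto_id (hτc.div_const (m : ℂ)) hfr
    have h2 : l₀ / (m : ℂ) ∈ per Ω V (s c₀) := h1
    rw [hp] at h2
    obtain ⟨n, hn⟩ := h2
    have hm0 : (m : ℂ) ≠ 0 := by
      have : m ≠ 0 := by
        rintro rfl
        simp at hm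
      exact_mod_cast this
    have h3 : (n : ℂ) * (m : ℂ) = 1 := by
      have h4 : l₀ = n * l₀ * m := by
        rw [← hn]
        field_simp
      have h5 : l₀ * ((n : ℂ) * (m : ℂ) - 1) = 0 := by
        linear_combination -h4
      rcases mul_eq_zero.1 h5 with h6 | h6
      · exact absurd h6 hl
      · exact sub_eq_zero.1 h6
    have h6 : n * m = 1 := by exact_mod_cast h3
    have h7 : |m| = 1 := by
      have h8 : |n| * |m| = 1 := by
        rw [← abs_mul, h6, abs_one]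
      have h9 : 1 ≤ |n| := by
        by_contra h10
        have h11 : |n| = 0 := le_antisymm (by omega) (abs_nonneg n)
        rw [h11, zero_mul] at h8
        exact absurd h8 (by norm_num)
      nlinarith
    omega
  obtain ⟨N, hN⟩ : ∃ N : ℤ, (‖l₀‖ + 1) / ε ≤ (N : ℝ) := ⟨⌈(‖l₀‖ + 1) / ε⌉, Int.le_ceil _⟩
  have key2 : ∀ᶠ c in 𝓝 c₀, ∀ m ∈ Finset.Icc (-N) N, 2 ≤ |m| → τ c / (m : ℂ) ∉ per Ω V (s c) := by
    rw [Filter.eventually_all_finset]
    intro m _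
    by_cases hm : 2 ≤ |m|
    · exact (key m hm).mono fun c hc1 _ => hc1
    · exact Filter.Eventually.of_forall fun c hc1 => absurd hc1 hm
  have hne : ∀ᶠ c in 𝓝 c₀, τ c ≠ 0 := hτc.eventually_ne hl
  have hbd : ∀ᶠ c in 𝓝 c₀, ‖τ c‖ < ‖l₀‖ + 1 :=
    hτc.norm.eventually (gt_mem_nhds (lt_add_one ‖l₀‖))
  refine ⟨τ, hτ0, hτa, ?_⟩
  filter_upwards [key2, hne, hbd, hτ1, hsm, S.isOpen.mem_nhds hc] with c h1 h2 h3 h4 h5 h6
  refine ⟨h2, ?_⟩
  have hreg := S.reg c h6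
  obtain ⟨μ, hμ⟩ := per_cyc F hreg.1 hreg.2.2
  have hτp : τ c ∈ per Ω V (s c) := h4
  have hτm : ∃ m : ℤ, τ c = m * μ := by
    have h7 := hτp
    rw [hμ] at h7
    exact h7
  obtain ⟨m, hm⟩ := hτm
  have hm0 : m ≠ 0 := by
    rintro rfl
    apply h2
    rw [hm]
    simp
  have hμ0 : μ ≠ 0 := by
    rintro rfl
    apply h2
    rw [hm]
    simp
  have hμp : μ ∈ per Ω V (s c) := by
    rw [hμ]
    exact ⟨1, by simp⟩
  by_cases hm2 : 2 ≤ |m|
  · exfalso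
    have hmC : (m : ℂ) ≠ 0 := by exact_mod_cast hm0
    have h7 : τ c / (m : ℂ) = μ := by
      rw [hm]
      field_simp
    have h8 : ε ≤ ‖μ‖ := by
      by_contra h9
      exact hμ0 (h5 μ hμp (not_le.1 h9))
    have h9 : ((|m| : ℤ) : ℝ) * ‖μ‖ = ‖τ c‖ := by
      rw [hm, norm_mul, Complex.norm_intCast, Int.cast_abs]
    have h10 : ((|m| : ℤ) : ℝ) ≤ (N : ℝ) := by
      refine le_trans ?_ hN
      rw [le_div_iff₀ hε]
      have h11 : (0 : ℝ) ≤ ((|m| : ℤ) : ℝ) := by exact_mod_cast abs_nonneg m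
      calc ((|m| : ℤ) : ℝ) * ε ≤ ((|m| : ℤ) : ℝ) * ‖μ‖ := mul_le_mul_of_nonneg_left h8 h11
        _ = ‖τ c‖ := h9
        _ ≤ ‖l₀‖ + 1 := h3.le
    have h12 : |m| ≤ N := by exact_mod_cast h10
    refine h1 m (Finset.mem_Icc.2 (abs_le.1 h12)) hm2 ?_
    rw [h7]
    exact hμp
  · have hm1 : m = 1 ∨ m = -1 := by
      have h7 : |m| ≤ 1 := by omega
      have h8 := abs_le.1 h7
      omega
    rw [hμ]
    rcases hm1 with rfl | rfl
    · have h7 : τ c = μ := by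
        rw [hm]
        simp
      rw [h7]
    · have h7 : τ c = -μ := by
        rw [hm]
        simp
      rw [h7]
      ext t
      constructor
      · rintro ⟨n, rfl⟩
        exact ⟨-n, by push_cast; ring⟩
      · rintro ⟨n, rfl⟩
        exact ⟨-n, by push_cast; ring⟩

end Pool.Agent.MP_fe3720.NF
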