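import Pool.Agent.Work.MP_fe3720_an.NF.Trans
import Pool.Agent.Work.MP_fe3720_an.NF.Gen
import Pool.Agent.Work.MP_fe3720_an.NF.Sep

/-! # Module PiLoc (helper90): the integrals over periods form the same group `ℤ A` on all good orbits

`Pi x = {G t | t ∈ per x}`, `G` the integral at `x`.
`pi_fl`: `Pi (fl x u) = Pi x` (`int_add`, `per_fl`: for `t ∈ per x`:
`G_{fl x u} t = G_x (u + t) - G_x u = G_x t + G_{x} u - G_x u`).
`pi_const` PROOF. The set `X = {x ∈ Ω | V x ≠ 0, f x ∉ Bad}` is connected (`sep_V`), contained in `Reg`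
(`crit`). `Pi` is locally constant on `X`: let `x ∈ X`, box `ψ` at `x` (`box_ex`), section
`s c = ψ.symm (c,0)`, `c₀ = f x`, `s c₀ = x` (`box_center`); for `y` near `x`, `Pi y = Pi (s (f y))` (`box_orbit`,
`pi_fl`), `per y = per (s (f y))`. By `perc`: (1) `per y = {0}` for good `y` near `x`: `Pi y = {0}`.
(2) `per y ≠ {0}` for good `y` near `x`; in particular for `y = x`: `per x = ℤ l₀`, `l₀ ≠ 0`
(`per_cyc`); `gen`: `per (s c) = ℤ l c` near `c₀`; `Pi (s c) = {n G_c (l c)}` (`int_add`, induction), and by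
`trans` at `(c₀, l₀)`, where `fl (s c₀) l₀ = s c₀`, `fl (s c) (l c) = s c`:
`G_c (l c) - G_{c₀} l₀ = 0` for `c` near `c₀`. So `Pi (s c) = Pi (s c₀)`.
Hence `Pi` is constant on `X` (`IsPreconnected.constant_of_...`, or
`IsPreconnected` + locally constant), and equal to `ℤ A` at one point of `X`. -/

namespace Pool.Agent.MP_fe3720.NF

open Set Topology Filter Metric Pool.Agent.MP_fe3720.NR

variable {Ω : Set E2} {f : E2 → ℂ} {V : E2 → E2} {w : E2 → E2 → ℂ}

/-- the integrals over the periods -/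
def Pi (Ω : Set E2) (V : E2 → E2) (w : E2 → E2 → ℂ) (x : E2) : Set ℂ :=
  {a | ∃ G, IsInt Ω V w x G ∧ ∃ t ∈ per Ω V x, G t = a}

private theorem mult (F : Fol Ω f V w) {x : E2} (hx : x ∈ Ω) {l : ℂ} (hl : fl Ω V x l = x)
    {G : ℂ → ℂ} (hG : IsInt Ω V w x G) (n : ℤ) : G (n * l) = n * G l := by
  have h0 : ∀ t, G (l + t) = G l + G t := fun t =>
    int_add F hx hG (t := l) (G' := G) (by rwa [hl]) t
  induction n using Int.induction_on with
  | zero => simp [hG.1]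
  | succ n ih =>
    have h1 := h0 ((n : ℤ) * l)
    rw [ih] at h1
    have e : (((n : ℤ) + 1 : ℤ) : ℂ) * l = l + ((n : ℤ) : ℂ) * l := by push_cast; ring
    rw [e, h1]; push_cast; ring
  | pred n ih =>
    have h1 := h0 ((-(n : ℤ) - 1 : ℤ) * l)
    have e : l + ((-(n : ℤ) - 1 : ℤ) : ℂ) * l = ((-(n : ℤ) : ℤ) : ℂ) * l := by push_cast; ring
    rw [e, ih] at h1
    have h2 : G (((-(n : ℤ) - 1 : ℤ) : ℂ) * l) = ((-(n : ℤ) : ℤ) : ℂ) * G l - G l := by
      rw [h1]; ring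
    rw [h2]; push_cast; ring

private theorem pi_of {x : E2} {G : ℂ → ℂ} (hG : IsInt Ω V w x G) {l : ℂ}
    (hl : per Ω V x = {t | ∃ n : ℤ, t = n * l}) (hm : ∀ n : ℤ, G (n * l) = n * G l) :
    Pi Ω V w x = {t | ∃ n : ℤ, t = n * G l} := by
  ext v
  constructor
  · rintro ⟨G', hG', t, ht, rfl⟩
    rw [hl] at ht
    obtain ⟨n, rfl⟩ := ht
    exact ⟨n, by rw [int_unique hG' hG, hm n]⟩
  · rintro ⟨n, rfl⟩
    refine ⟨G, hG, n * l, ?_, hm n⟩
    rw [hl]
    exact ⟨n, rfl⟩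

private theorem pi_zero {x : E2} {G : ℂ → ℂ} (hG : IsInt Ω V w x G) (hl : per Ω V x = {0}) :
    Pi Ω V w x = {0} := by
  ext v
  constructor
  · rintro ⟨G', hG', t, ht, rfl⟩
    rw [hl, mem_singleton_iff] at ht
    rw [ht, hG'.1]
    rfl
  · intro h
    rw [mem_singleton_iff] at h
    exact ⟨G, hG, 0, by rw [hl]; rfl, by rw [hG.1, h]⟩

private theorem l_mem {x : E2} {l : ℂ} (hl : per Ω V x = {t | ∃ n : ℤ, t = n * l}) :
    fl Ω V x l = x := by
  have : l ∈ per Ω V x := by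
    rw [hl]
    exact ⟨1, by push_cast; ring⟩
  exact this

private theorem pi_fl (F : Fol Ω f V w) {x : E2} (hx : x ∈ Ω) (u : ℂ) :
    Pi Ω V w (fl Ω V x u) = Pi Ω V w x := by
  obtain ⟨G, hG⟩ := int_ex F hx
  obtain ⟨G', hG'⟩ := int_ex F (fl_mem F hx u)
  have key : ∀ t ∈ per Ω V x, G' t = G t := by
    intro t ht
    have h1 := int_add F hx hG hG' t
    have h2 := int_add F hx hG (t := t) (G' := G) (by
      have : fl Ω V x t = x := ht
      rwa [this]) u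
    rw [add_comm] at h1
    linear_combination h2 - h1
  ext v
  constructor
  · rintro ⟨H, hH, t, ht, rfl⟩
    rw [per_fl F hx] at ht
    exact ⟨G, hG, t, ht, by rw [int_unique hH hG', key t ht]⟩
  · rintro ⟨H, hH, t, ht, rfl⟩
    exact ⟨G', hG', t, by rwa [per_fl F hx], by rw [int_unique hH hG, key t ht]⟩

theorem pi_const (F : Fol Ω f V w) {Bad : Set ℂ} (hB : GoodSet Ω f V Bad) :
    ∃ A : ℂ, ∀ x ∈ Ω, V x ≠ 0 → f x ∉ Bad → Pi Ω V w x = {a | ∃ n : ℤ, a = n * A} := by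
  classical
  have hconn := sep_V F hB.cnt
  have hReg : ∀ x ∈ {x | x ∈ Ω ∧ V x ≠ 0 ∧ f x ∉ Bad}, x ∈ Reg Ω f V := by
    rintro x ⟨hx, hV, hg⟩
    exact ⟨hx, fun h => hg (hB.crit ⟨x, hx, h, rfl⟩), hV⟩
  have hloc : ∀ x ∈ {x | x ∈ Ω ∧ V x ≠ 0 ∧ f x ∉ Bad},
      ∀ᶠ y in 𝓝[{x | x ∈ Ω ∧ V x ≠ 0 ∧ f x ∉ Bad}] x, Pi Ω V w y = Pi Ω V w x := by
    rintro x hxX
    have hx := hxX.1
    have hg := hxX.2.2
    rcases hB.perc x (hReg x hxX) with h | h
    · have hx0 := h.self_of_nhds hg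
      filter_upwards [nhdsWithin_le_nhds h, self_mem_nhdsWithin] with y hy hyX
      obtain ⟨G, hG⟩ := int_ex F hx
      obtain ⟨G', hG'⟩ := int_ex F hyX.1
      rw [pi_zero hG' (hy hyX.2.2), pi_zero hG hx0]
    · have hx0 := h.self_of_nhds hg
      obtain ⟨l₀, hl₀⟩ := per_cyc F hx hxX.2.1
      have hl₀0 : l₀ ≠ 0 := by
        rintro rfl
        apply hx0
        rw [hl₀]
        ext t
        simp
      obtain ⟨r, ψ, B, -⟩ := box_ex F (hReg x hxX) univ_mem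
      have S := box_sec B
      have hsx : ψ.symm (f x, 0) = x := box_center B
      have hcD : f x ∈ ball (f x) r := mem_ball_self B.chart.pos
      obtain ⟨l, hlc, hlan, hlper⟩ := gen F S hcD hl₀0
        (show per Ω V ((fun c => ψ.symm (c, 0)) (f x)) = _ by
          change per Ω V (ψ.symm (f x, 0)) = _
          rw [hsx]; exact hl₀)
      have hex : ∀ c : ℂ, c ∈ ball (f x) r → ∃ G, IsInt Ω V w (ψ.symm (c, 0)) G := fun c hc =>
        int_ex F (S.reg c hc).1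
      choose! G hG using hex
      have h1 : Tendsto (fun c : ℂ => (c, l c)) (𝓝 (f x)) (𝓝 (f x, l₀)) := by
        have := (continuousAt_id.prodMk hlan.continuousAt).tendsto
        simpa [hlc] using this
      have h2 := h1.eventually (trans F S hcD l₀ hG)
      have h3 : ∀ᶠ c in 𝓝 (f x), Pi Ω V w (ψ.symm (c, 0)) = Pi Ω V w x := by
        filter_upwards [h2, hlper, S.isOpen.mem_nhds hcD] with c hc1 hc2 hc3
        have e1 : fl Ω V (ψ.symm (c, 0)) (l c) = ψ.symm (c, 0) := l_mem hc2.2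
        have e2 : fl Ω V (ψ.symm (f x, 0)) l₀ = ψ.symm (f x, 0) := by
          rw [hsx]; exact l_mem hl₀
        have e3 : G c (l c) - G (f x) l₀ =
            (w (fl Ω V (ψ.symm (f x, 0)) l₀) (fl Ω V (ψ.symm (c, 0)) (l c)) -
            w (fl Ω V (ψ.symm (f x, 0)) l₀) (fl Ω V (ψ.symm (f x, 0)) l₀)) -
            (w (ψ.symm (f x, 0)) (ψ.symm (c, 0)) - w (ψ.symm (f x, 0)) (ψ.symm (f x, 0))) := hc1
        rw [e1, e2] at e3
        have e4 : G c (l c) = G (f x) l₀ := by linear_combination e3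
        have hcΩ : ψ.symm (c, 0) ∈ Ω := (S.reg c hc3).1
        have hGx : IsInt Ω V w x (G (f x)) := by
          have := hG (f x) hcD
          rwa [hsx] at this
        rw [pi_of (hG c hc3) hc2.2 (mult F hcΩ e1 (hG c hc3)),
          pi_of hGx hl₀ (mult F hx (l_mem hl₀) hGx), e4]
      have hfc : ContinuousAt f x := F.holf.continuousOn.continuousAt (F.isOpen.mem_nhds hx)
      filter_upwards [nhdsWithin_le_nhds (hfc.eventually h3),
        nhdsWithin_le_nhds (ψ.open_source.mem_nhds B.chart.mem),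
        nhdsWithin_le_nhds (hfc.eventually (S.isOpen.mem_nhds hcD))] with y hy hys hyb
      have h4 := box_orbit B hys
      rw [← h4, pi_fl F (S.reg _ hyb).1, ]
      exact hy
  obtain ⟨x₀, hx₀⟩ := hconn.nonempty
  obtain ⟨G, hG⟩ := int_ex F hx₀.1
  obtain ⟨l₀, hl₀⟩ := per_cyc F hx₀.1 hx₀.2.1
  refine ⟨G l₀, fun x hx hV hg => ?_⟩
  have h1 := const_of_loc hconn.isPreconnected (F := fun x => Pi Ω V w x) hloc hx₀
    (show x ∈ {x | x ∈ Ω ∧ V x ≠ 0 ∧ f x ∉ Bad} from ⟨hx, hV, hg⟩)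
  have h2 : Pi Ω V w x = Pi Ω V w x₀ := h1
  rw [h2]
  exact pi_of hG hl₀ (mult F hx₀.1 (l_mem hl₀) hG)

end Pool.Agent.MP_fe3720.NF
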