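import Pool.Agent.Work.MP_fe3720_an.NF.OneOrb
import Pool.Agent.Work.MP_fe3720_an.NF.PiLoc

/-! # Module PrimLf (helper90): primitives on good leaves, modulo the periods

PROOF. Let `x ∈ Ω` be good, `L = LF Ω f x`. By `pdisc` there is `x₁ ∈ L` with `V x₁ ≠ 0` (`plaque`);
`LF Ω f x = LF Ω f x₁` (`lf_symm`). Let `G` be the integral at `x₁`. For `y ∈ L` with `V y ≠ 0` choose `t`
with `fl x₁ t = y` (`one_orb`) and put `W y = q (G t)`: independent of `t`, since two choices differ by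
a period `p` and `G (p + t) = G p + G t`, `G p ∈ Pi x₁ ⊆ ℤ A`, `q A = 0` (`int_add`, `fl x₁ p = x₁`).
Near such `y` (on `L`; use a box at `y`): `y' = fl y u` with `u = (ψ y').2` small, `W y' = q (G (t + u))`,
`G (t + u) - G t = w y y' - w y y` (definition of `IsInt` at `t`, `u` small).
For `y ∈ L` with `V y = 0`: with the punctured plaque `Δ` of `y` (`pdisc` in a small neighbourhood where
`w y - w y'` is constant near `y'`): the function `y' ↦ W y' - q (w y y')` is locally constant on the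
punctured disc (connected), so constant `= k`; put `W y = k + q (w y y)`. -/

namespace Pool.Agent.MP_fe3720.NF

open Set Topology Filter Metric Pool.Agent.MP_fe3720.NR

variable {Ω : Set E2} {f : E2 → ℂ} {V : E2 → E2} {w : E2 → E2 → ℂ}

theorem prim_lf (F : Fol Ω f V w) {Bad : Set ℂ} (hB : GoodSet Ω f V Bad) {A : ℂ}
    (hA : ∀ x ∈ Ω, V x ≠ 0 → f x ∉ Bad → Pi Ω V w x ⊆ {a | ∃ n : ℤ, a = n * A})
    {Q : Type} [AddCommGroup Q] (q : ℂ →+ Q) (hq : q A = 0) {x : E2} (hx : x ∈ Ω)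
    (hg : f x ∉ Bad) : ∃ W : E2 → Q, Prm (fun x y => q (w x y)) (LF Ω f x) W := by
  classical
  have lf_df : ∀ y ∈ LF Ω f x, y ∈ Ω ∧ f y = f x ∧ fderiv ℂ f y ≠ 0 := by
    intro y hy
    have h1 := connectedComponentIn_subset _ _ hy
    exact ⟨h1.1, h1.2, fun h => hg (hB.crit ⟨y, h1.1, h, h1.2⟩)⟩
  have hxL : x ∈ LF Ω f x := mem_connectedComponentIn ⟨hx, rfl⟩
  obtain ⟨N, hN, -, -, y₀, hy₀N⟩ := smallOff_lf F hB hg x hxL _ self_mem_nhdsWithin
  have hy₀ : y₀ ∈ LF Ω f x := hN hy₀N.1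
  have hV₀ : V y₀ ≠ 0 := hy₀N.2
  obtain ⟨hy₀Ω, hf₀, -⟩ := lf_df y₀ hy₀
  have hg₀ : f y₀ ∉ Bad := by rwa [hf₀]
  obtain ⟨G, hG⟩ := int_ex F hy₀Ω
  have hLF : LF Ω f y₀ = LF Ω f x := lf_symm hy₀
  have hex : ∀ z : E2, z ∈ LF Ω f x \ {y | V y = 0} → ∃ t, fl Ω V y₀ t = z := fun z hz' =>
    one_orb F hB hy₀Ω hg₀ hV₀ (by rw [hLF]; exact hz'.1) hz'.2
  choose! T hT using hex
  have hPi : ∀ a ∈ Pi Ω V w y₀, q a = 0 := by
    intro a ha
    obtain ⟨n, rfl⟩ := hA y₀ hy₀Ω hV₀ hg₀ ha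
    have : ((n : ℂ) * A) = n • A := by simp
    rw [this, map_zsmul, hq, smul_zero]
  -- well defined
  have hwd : ∀ z ∈ LF Ω f x \ {y | V y = 0}, ∀ t, fl Ω V y₀ t = z → q (G t) = q (G (T z)) := by
    intro z hz' t ht
    have h1 := (conn_iff F hy₀Ω (hT z hz')).mp ht
    have h2 := int_add F hy₀Ω hG (t := t - T z) (G' := G) (by
      have : fl Ω V y₀ (t - T z) = y₀ := h1
      rwa [this]) (T z)
    rw [sub_add_cancel] at h2
    rw [h2, map_add, hPi _ ⟨G, hG, _, h1, rfl⟩, zero_add]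
  have hP : IsLS (LF Ω f x) (fun a b => q (w a b)) := by
    have h1 : IsLS (LF Ω f x) w :=
      F.wls.mono ((connectedComponentIn_subset _ _).trans inter_subset_left)
    intro a ha
    filter_upwards [h1 a ha] with b hb
    filter_upwards [hb] with c hc'
    rw [← map_sub, ← map_sub, hc']
  obtain ⟨W, hW, -⟩ := prm_offZ (smallOff_lf F hB hg) hP
    (W₀ := fun z => q (G (T z))) (fun z hz' => by
      obtain ⟨hzΩ, hfz, hdz⟩ := lf_df z hz'.1
      obtain ⟨τ, hτc, hτ0, hτ⟩ := orb_loc F (show z ∈ Reg Ω f V from ⟨hzΩ, hdz, hz'.2⟩)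
      have h1 : Tendsto (fun z' : E2 => T z + τ z') (𝓝 z) (𝓝 (T z)) := by
        have h2 : ContinuousAt (fun z' => T z + τ z') z := continuousAt_const.add hτc
        have h2' : Tendsto (fun z' : E2 => T z + τ z') (𝓝 z) (𝓝 (T z + τ z)) := h2
        rwa [hτ0, add_zero] at h2'
      have h3 := h1.eventually (hG.2 (T z))
      filter_upwards [nhdsWithin_le_nhds hτ, nhdsWithin_le_nhds h3, self_mem_nhdsWithin] with z'
        hz1 hz2 hz3
      obtain ⟨-, hfz', -⟩ := lf_df z' hz3.1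
      have h4 := hz1 (by rw [hfz', hfz])
      have h5 : fl Ω V y₀ (T z + τ z') = z' := by
        rw [fl_add F hy₀Ω, hT z hz', h4]
      rw [h5, hT z hz'] at hz2
      rw [← hwd z' hz3 _ h5, ← map_sub, hz2, map_sub])
  exact ⟨W, hW⟩

end Pool.Agent.MP_fe3720.NF
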