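import Pool.Agent.Work.MP_fe3720_an.NF.Defs

/-! # Module Rot (helper36): rotation of `f`

`rot`: for `b ≠ b'` the unimodular `c` with `Im (c b) = Im (c b')` are two; so all unimodular `c`
outside a countable set have `Im` injective on `c Bad`; the unit circle is uncountable.
`rot_leaf`: all fields of `LeafSys`, `LF Ω (c f) x = LF Ω f x`; chart: multiply the first coordinate
of the chart by `c` (compose with the homeomorphism `(z, y) ↦ (c z, y)`); sep: `B ↦ c⁻¹ B`.
`rot_disc`: choose `d` with `d ^ k = c⁻¹` (`IsAlgClosed.exists_pow_nat_eq`), `h' z = h (d z)`,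
`c f (h (d z)) = c f a + c d^k z^k`. -/

namespace Pool.Agent.MP_fe3720.NF

open Set Topology Filter Metric Pool.Agent.MP_fe3720.NR

theorem rot {Bad : Set ℂ} (h : Bad.Countable) :
    ∃ c : ℂ, ‖c‖ = 1 ∧ InjOn Complex.im ((fun z => c * z) '' Bad) := by
  have hcount : (⋃ b ∈ Bad, ⋃ b' ∈ Bad, {t : ℝ | b ≠ b' ∧ (b - b').im + t * (b - b').re = 0}).Countable := by
    refine h.biUnion fun b _ => h.biUnion fun b' _ => ?_
    refine Set.Subsingleton.countable ?_
    rintro t ⟨hne, ht⟩ t' ⟨_, ht'⟩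
    have hd : b - b' ≠ 0 := sub_ne_zero.2 hne
    by_cases hre : (b - b').re = 0
    · exfalso
      apply hd
      apply Complex.ext
      · simpa using hre
      · rw [hre, mul_zero, add_zero] at ht
        simpa using ht
    · have h1 : t * (b - b').re = t' * (b - b').re := by linarith
      exact mul_right_cancel₀ hre h1
  obtain ⟨t, ht⟩ := (hcount.dense_compl ℝ).nonempty
  have hne : (1 + (t : ℂ) * Complex.I) ≠ 0 := by
    intro h0
    have := congrArg Complex.re h0
    simp at this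
  have hn : 0 < ‖(1 + (t : ℂ) * Complex.I)‖ := norm_pos_iff.2 hne
  refine ⟨((‖(1 + (t : ℂ) * Complex.I)‖⁻¹ : ℝ) : ℂ) * (1 + (t : ℂ) * Complex.I), ?_, ?_⟩
  · rw [norm_mul, Complex.norm_real, norm_inv, norm_norm]
    exact inv_mul_cancel₀ hn.ne'
  · rintro _ ⟨b, hb, rfl⟩ _ ⟨b', hb', rfl⟩ him
    by_contra hbb
    have hne' : b ≠ b' := by
      rintro rfl
      exact hbb rfl
    apply ht
    simp only [mem_iUnion]
    refine ⟨b, hb, b', hb', hne', ?_⟩
    have key : ∀ z : ℂ, (((‖(1 + (t : ℂ) * Complex.I)‖⁻¹ : ℝ) : ℂ) *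
        (1 + (t : ℂ) * Complex.I) * z).im = ‖(1 + (t : ℂ) * Complex.I)‖⁻¹ * (z.im + t * z.re) := by
      intro z
      rw [mul_assoc, Complex.im_ofReal_mul]
      simp [Complex.add_im, Complex.mul_im]
    simp only [key] at him
    have h3 := mul_left_cancel₀ (inv_ne_zero hn.ne') him
    simp only [Complex.sub_im, Complex.sub_re]
    linarith [h3]

theorem rot_leaf {Ω : Set E2} {f : E2 → ℂ} {Bad : Set ℂ} {Q : Type} [AddCommGroup Q]
    {P : E2 → E2 → Q} {c : ℂ} (hc : c ≠ 0) (L : LeafSys Ω f Bad P) :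
    LeafSys Ω (fun x => c * f x) ((fun z => c * z) '' Bad) P := by
  have hLF : ∀ x, LF Ω (fun x => c * f x) x = LF Ω f x := by
    intro x
    have : (fun x => c * f x) ⁻¹' {c * f x} = f ⁻¹' {f x} := by
      ext y
      simp [hc]
    simp only [LF, this]
  have hB : ∀ x, c * f x ∉ (fun z => c * z) '' Bad → f x ∉ Bad := fun x hx h => hx ⟨f x, h, rfl⟩
  have hB' : ∀ x, f x ∉ Bad → c * f x ∉ (fun z => c * z) '' Bad := by
    rintro x hx ⟨b, hb, hbx⟩
    exact hx (mul_left_cancel₀ hc hbx ▸ hb)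
  refine
    { isOpen := L.isOpen
      conn := L.conn
      cont := continuousOn_const.mul L.cont
      ls := L.ls
      countable := L.countable.image _
      chart := fun x hx hg => ?_
      haus := fun x hx y hy hxy hg hn => ?_
      prim := fun x hx hg => ?_
      sep := fun B hBc U hU hUo hUc => ?_ }
  · obtain ⟨φ, h1, h2, h3⟩ := L.chart x hx (hB x hg)
    refine ⟨φ.transHomeomorph ((Homeomorph.mulLeft₀ c hc).prodCongr (Homeomorph.refl ℂ)), h1, h2, ?_⟩
    intro y hy
    have := h3 y hy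
    simp [this]
  · have h1 := L.haus x hx y hy (mul_left_cancel₀ hc hxy) (hB x hg) (by rwa [hLF] at hn)
    filter_upwards [h1] with p hp hpp hpg
    rw [hLF]
    exact hp (mul_left_cancel₀ hc hpp) (hB _ hpg)
  · rw [hLF]
    exact L.prim x hx (hB x hg)
  · have hc' : ((fun z => c * z) ⁻¹' B).Countable :=
      hBc.preimage (mul_right_injective₀ hc)
    exact L.sep _ hc' U hU hUo hUc

theorem rot_disc {Ω : Set E2} {f : E2 → ℂ} {c : ℂ} (hc : c ≠ 0) (H : HasDiscs Ω f) :
    HasDiscs Ω (fun x => c * f x) := by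
  intro a ha
  obtain ⟨k, hk, r, hr, h, hh, h0, hv⟩ := H a ha
  obtain ⟨d, hd⟩ := IsAlgClosed.exists_pow_nat_eq c⁻¹ (by omega : 0 < k)
  have hd0 : d ≠ 0 := by
    rintro rfl
    rw [zero_pow (by omega)] at hd
    exact inv_ne_zero hc hd.symm
  have hdn : 0 < ‖d‖ := norm_pos_iff.2 hd0
  have hm : ∀ z ∈ ball (0 : ℂ) (r / ‖d‖), d * z ∈ ball (0 : ℂ) r := by
    intro z hz
    rw [mem_ball_zero_iff] at hz ⊢
    rw [norm_mul]
    calc ‖d‖ * ‖z‖ < ‖d‖ * (r / ‖d‖) := by gcongr
      _ = r := by field_simp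
  refine ⟨k, hk, r / ‖d‖, by positivity, fun z => h (d * z), ?_, by simp [h0], ?_⟩
  · exact hh.comp (by fun_prop) hm
  · intro z hz
    obtain ⟨h1, h2⟩ := hv _ (hm z hz)
    refine ⟨h1, ?_⟩
    simp only [h2, mul_add, mul_pow, hd]
    field_simp

end Pool.Agent.MP_fe3720.NF
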