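import Pool.Agent.Work.MP_fe3720_an.NF.Haus
import Pool.Agent.Work.MP_fe3720_an.NF.PrimLf
import Pool.Agent.Work.MP_fe3720_an.NF.BadEx
import Pool.Agent.Work.MP_fe3720_an.NF.Disc
import Pool.Agent.Work.MP_fe3720_an.NF.Rot
import Pool.Agent.Work.MP_fe3720_an.NR.LamQ

/-! # Module Main of the foliation part: assembly -/

namespace Pool.Agent.MP_fe3720.NF

open Set Topology Filter Metric Pool.Agent.MP_fe3720.NR

variable {Ω : Set E2} {f : E2 → ℂ} {V : E2 → E2} {w : E2 → E2 → ℂ}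

/-- before the rotation -/
theorem main_pre (F : Fol Ω f V w) : ∃ (A : ℂ) (Bad : Set ℂ), Bad.Countable ∧
    ∀ (Q : Type) [AddCommGroup Q] (q : ℂ →+ Q), q A = 0 →
      LeafSys Ω f Bad (fun x y => q (w x y)) := by
  obtain ⟨Bad, hB⟩ := bad_ex F
  obtain ⟨A, hA⟩ := pi_const F hB
  refine ⟨A, Bad, hB.cnt, fun Q _ q hq => ?_⟩
  refine
    { isOpen := F.isOpen
      conn := F.conn
      cont := F.holf.continuousOn
      ls := fun x hx => ?_
      countable := hB.cnt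
      chart := fun x hx hg => ?_
      haus := fun x hx y hy hxy hg hn => haus F hB hx hy hxy hg hn
      prim := fun x hx hg => prim_lf F hB (fun x hx hV hg => (hA x hx hV hg).le) q hq hx hg
      sep := fun B hBc U hU hUo hUc => sep_f F hBc hU hUo hUc }
  · filter_upwards [F.wls x hx] with y hy
    filter_upwards [hy] with z hz
    simp only [← map_sub, hz]
  · have h : fderiv ℂ f x ≠ 0 := fun h => hg (hB.crit ⟨x, hx, h, rfl⟩)
    obtain ⟨r, φ, C, -⟩ := chart_ex F.isOpen F.holf hx h univ_mem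
    exact ⟨φ, C.mem, C.sub, C.fst⟩

/-- the rotated form, for all quotients -/
theorem main_all (F : Fol Ω f V w) : ∃ (A : ℂ) (Bad : Set ℂ) (c : ℂ), ‖c‖ = 1 ∧
    InjOn Complex.im Bad ∧ HasDiscs Ω (fun x => c * f x) ∧
    ∀ (Q : Type) [AddCommGroup Q] (q : ℂ →+ Q), q A = 0 →
      LeafSys Ω (fun x => c * f x) Bad (fun x y => q (w x y)) := by
  obtain ⟨A, Bad, hc, hL⟩ := main_pre F
  obtain ⟨c, hc1, hc2⟩ := rot hc
  have hc0 : c ≠ 0 := by
    intro h
    simp [h] at hc1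
  exact ⟨A, _, c, hc1, hc2, rot_disc hc0 (has_discs F), fun Q _ q hq => rot_leaf hc0 (hL Q q hq)⟩

/-- GOAL of the foliation part. -/
theorem main (F : Fol Ω f V w) : ∃ (A c : ℂ) (Bad : Set ℂ), ‖c‖ = 1 ∧
    LeafSys Ω (fun x => c * f x) Bad
      (fun x y => (QuotientAddGroup.mk (w x y) : ℂ ⧸ Lam A)) ∧
    HasDiscs Ω (fun x => c * f x) ∧ ∀ b ∈ Bad, ∀ b' ∈ Bad, b.im = b'.im → b = b' := by
  obtain ⟨A, Bad, c, hc, hi, hd, hL⟩ := main_all F
  refine ⟨A, c, Bad, hc, hL _ (QuotientAddGroup.mk' (Lam A)) ?_, hd,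
    fun b hb b' hb' h => hi hb hb' h⟩
  rw [QuotientAddGroup.mk'_apply, QuotientAddGroup.eq_zero_iff]
  exact zmultiples_le_Lam A (AddSubgroup.mem_zmultiples A)

end Pool.Agent.MP_fe3720.NF
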