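import Pool.Agent.Work.MP_fe3720_an.NR.Defs

/-! # The foliation part (C0) of the example: definitions (FIXED FILE)

`Ω` is open and connected in `E2 = ℂ × ℂ`, `f` a nonconstant holomorphic function on `Ω`, `V` a
holomorphic vector field on `Ω` (a function `E2 → E2`), not identically zero, with `df(V) = 0`, all
of whose trajectories are entire; `w` is a local system of holomorphic functions (`w x` is a
primitive near `x` of a closed holomorphic 1-form).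

GOAL (file `NF/Main.lean`): there are `A : ℂ`, a countable set `Bad` and a unimodular `c` such that
for `f' = c f` and `P x y` = class of `w x y` modulo `{z | n z ∈ ℤ A, n odd}` we have
`LeafSys Ω f' Bad P`, `HasDiscs Ω f'` and `Im` is injective on `Bad`. -/

namespace Pool.Agent.MP_fe3720.NF

open Set Topology Filter Metric Pool.Agent.MP_fe3720.NR

/-- `γ : ℂ → E2` is an entire trajectory of `V` in `Ω` -/
def IsTraj (Ω : Set E2) (V : E2 → E2) (γ : ℂ → E2) : Prop :=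
  ∀ t : ℂ, γ t ∈ Ω ∧ HasDerivAt γ (V (γ t)) t

/-- The data: a first integral `f` of a complete holomorphic field `V`, and a local system `w`. -/
structure Fol (Ω : Set E2) (f : E2 → ℂ) (V : E2 → E2) (w : E2 → E2 → ℂ) : Prop where
  isOpen : IsOpen Ω
  conn : IsConnected Ω
  holf : DifferentiableOn ℂ f Ω
  nonconst : ∃ x ∈ Ω, ∃ y ∈ Ω, f x ≠ f y
  holV : DifferentiableOn ℂ V Ω
  V0 : ∃ x ∈ Ω, V x ≠ 0
  tan : ∀ x ∈ Ω, fderiv ℂ f x (V x) = 0
  comp : ∀ x ∈ Ω, ∃ γ : ℂ → E2, γ 0 = x ∧ IsTraj Ω V γ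
  wls : IsLS Ω w
  wan : ∀ x ∈ Ω, AnalyticAt ℂ (w x) x

open Classical in
/-- the flow: `fl Ω V x` is the entire trajectory starting at `x` -/
noncomputable def fl (Ω : Set E2) (V : E2 → E2) (x : E2) : ℂ → E2 :=
  if h : ∃ γ : ℂ → E2, γ 0 = x ∧ IsTraj Ω V γ then h.choose else fun _ => x

/-- the periods of the trajectory of `x` -/
def per (Ω : Set E2) (V : E2 → E2) (x : E2) : Set ℂ := {t | fl Ω V x t = x}

/-- regular points: `df ≠ 0` and `V ≠ 0` -/
def Reg (Ω : Set E2) (f : E2 → ℂ) (V : E2 → E2) : Set E2 :=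
  {x | x ∈ Ω ∧ fderiv ℂ f x ≠ 0 ∧ V x ≠ 0}

/-- `φ` is a holomorphic chart with first coordinate `f` (a product of two discs) -/
structure FChart (Ω : Set E2) (f : E2 → ℂ) (x : E2) (r : ℝ)
    (φ : OpenPartialHomeomorph E2 E2) : Prop where
  pos : 0 < r
  mem : x ∈ φ.source
  sub : φ.source ⊆ Ω
  ctr : φ x = (f x, 0)
  target : φ.target = ball (f x) r ×ˢ ball (0 : ℂ) r
  hol : DifferentiableOn ℂ φ φ.source
  hols : DifferentiableOn ℂ φ.symm φ.target
  fst : ∀ y ∈ φ.source, (φ y).1 = f y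

/-- flow box: in the coordinates `ψ = (f, T)` the flow is the translation of `T` -/
structure Box (Ω : Set E2) (f : E2 → ℂ) (V : E2 → E2) (x : E2) (r : ℝ)
    (ψ : OpenPartialHomeomorph E2 E2) : Prop where
  chart : FChart Ω f x r ψ
  reg : ψ.source ⊆ Reg Ω f V
  flow : ∀ y ∈ ψ.source, ∀ t : ℂ, (ψ y).2 + t ∈ ball (0 : ℂ) r →
    fl Ω V y t ∈ ψ.source ∧ ψ (fl Ω V y t) = (f y, (ψ y).2 + t)

/-- a holomorphic transversal over the open set `D` -/
structure Sec (Ω : Set E2) (f : E2 → ℂ) (V : E2 → E2) (D : Set ℂ) (s : ℂ → E2) : Prop where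
  isOpen : IsOpen D
  hol : DifferentiableOn ℂ s D
  reg : ∀ c ∈ D, s c ∈ Reg Ω f V
  fs : ∀ c ∈ D, f (s c) = c

/-- `G` is the integral of the closed form along the trajectory of `x`: a primitive on `ℂ` of the
pull back of the local system `w` -/
def IsInt (Ω : Set E2) (V : E2 → E2) (w : E2 → E2 → ℂ) (x : E2) (G : ℂ → ℂ) : Prop :=
  G 0 = 0 ∧ ∀ t : ℂ, ∀ᶠ u in 𝓝 t,
    G u - G t = w (fl Ω V x t) (fl Ω V x u) - w (fl Ω V x t) (fl Ω V x t)

/-- the critical values -/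
def critVal (Ω : Set E2) (f : E2 → ℂ) : Set ℂ := {c | ∃ x ∈ Ω, fderiv ℂ f x = 0 ∧ f x = c}

/-- the values `c` for which `V` vanishes on an open piece of `{f = c}` at a point with `df ≠ 0` -/
def zeroVal (Ω : Set E2) (f : E2 → ℂ) (V : E2 → E2) : Set ℂ :=
  {c | ∃ x ∈ Ω, fderiv ℂ f x ≠ 0 ∧ f x = c ∧ ∀ᶠ y in 𝓝 x, f y = c → V y = 0}

/-- what is used of the set of bad values -/
structure GoodSet (Ω : Set E2) (f : E2 → ℂ) (V : E2 → E2) (Bad : Set ℂ) : Prop where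
  cnt : Bad.Countable
  crit : critVal Ω f ⊆ Bad
  zero : zeroVal Ω f V ⊆ Bad
  perc : ∀ x ∈ Reg Ω f V, (∀ᶠ y in 𝓝 x, f y ∉ Bad → per Ω V y = {0}) ∨
    ∀ᶠ y in 𝓝 x, f y ∉ Bad → per Ω V y ≠ {0}
  pair : ∀ x ∈ Reg Ω f V, ∀ y ∈ Reg Ω f V, f x = f y → f x ∉ Bad → (∀ t, fl Ω V x t ≠ y) →
    ∀ᶠ p : E2 × E2 in 𝓝 (x, y), f p.1 = f p.2 → f p.1 ∉ Bad → ∀ t, fl Ω V p.1 t ≠ p.2

end Pool.Agent.MP_fe3720.NF
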