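import Pool.Agent.Work.MP_fe3720_an.NF.Defs
import Pool.Agent.Work.MP_fe3720_an.NF.Osg
import Pool.Agent.Work.MP_fe3720_an.FrobCalc

/-! # Module Chart (helper36): charts at the points with `df ≠ 0`, inside a given neighbourhood

PROOF. `f` is analytic (`osg`). One partial derivative is nonzero at `x`; the map
`y ↦ (f y, l (y - x))` with `l` the first or second coordinate (so that the derivative is bijective)
is analytic with `x ↦ (f x, 0)`; inverse function theorem (`HasStrictFDerivAt.toOpenPartialHomeomorph`,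
or `ContDiffAt.toOpenPartialHomeomorph`), restrict to the preimage of a small product of balls
(`OpenPartialHomeomorph.restr`, `.symm`), on which the derivative is invertible (for `hols`:
`OpenPartialHomeomorph.hasFDerivAt_symm`). See
`Pool/Agent/Work/MP_fe3720_an/FrobCalc.lean` (`inverse_nbhd`) for a ready inverse function theorem
with all properties nearby.

`plaque`: two points of the source with the same value of `f` are in the same leaf (the plaque
`φ.symm '' ({c} ×ˢ ball 0 r)` is connected and in `Ω ∩ f ⁻¹' {c}`). -/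

namespace Pool.Agent.MP_fe3720.NF

open Set Topology Filter Metric Pool.Agent.MP_fe3720.NR

variable {Ω : Set E2} {f : E2 → ℂ}

/-- a second coordinate -/
private theorem chart_l {A : E2 →L[ℂ] ℂ} (h : A ≠ 0) : ∃ l : E2 →L[ℂ] ℂ, ∀ v, A v = 0 → l v = 0 → v = 0 := by
  have hdec : ∀ v : E2, A v = v.1 * A (1, 0) + v.2 * A (0, 1) := by
    intro v
    have e : v = v.1 • ((1, 0) : E2) + v.2 • ((0, 1) : E2) := by
      ext <;> simp
    conv_lhs => rw [e]
    rw [map_add, map_smul, map_smul, smul_eq_mul, smul_eq_mul]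
  by_cases h1 : A (1, 0) = 0
  · have h2 : A (0, 1) ≠ 0 := by
      intro h2
      apply h
      ext
      · simp [h1]
      · simp [h2]
    refine ⟨ContinuousLinearMap.fst ℂ ℂ ℂ, fun v hv hl => ?_⟩
    have hl' : v.1 = 0 := hl
    rw [hdec, hl', zero_mul, zero_add] at hv
    have h3 : v.2 = 0 := (mul_eq_zero.1 hv).resolve_right h2
    exact Prod.ext hl' h3
  · refine ⟨ContinuousLinearMap.snd ℂ ℂ ℂ, fun v hv hl => ?_⟩
    have hl' : v.2 = 0 := hl
    rw [hdec, hl', zero_mul, add_zero] at hv
    have h3 : v.1 = 0 := (mul_eq_zero.1 hv).resolve_right h1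
    exact Prod.ext h3 hl'

theorem chart_ex (hΩ : IsOpen Ω) (hf : DifferentiableOn ℂ f Ω) {x : E2} (hx : x ∈ Ω)
    (h : fderiv ℂ f x ≠ 0) {U : Set E2} (hU : U ∈ 𝓝 x) :
    ∃ (r : ℝ) (φ : OpenPartialHomeomorph E2 E2), FChart Ω f x r φ ∧ φ.source ⊆ U := by
  obtain ⟨l, hl⟩ := chart_l h
  have hfa : AnalyticAt ℂ f x := osg hΩ hf x hx
  set G : E2 → E2 := fun y => (f y, l (y - x)) with hG
  have hGx : G x = (f x, 0) := by simp [hG]
  have hGc : ContDiffAt ℂ 1 G x := by
    refine ContDiffAt.prodMk hfa.contDiffAt ?_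
    exact (l.contDiff.comp (contDiff_id.sub contDiff_const)).contDiffAt
  have hGd : HasFDerivAt G ((fderiv ℂ f x).prod l) x := by
    refine HasFDerivAt.prodMk hfa.differentiableAt.hasFDerivAt ?_
    have h1 : HasFDerivAt (fun y : E2 => y - x) (ContinuousLinearMap.id ℂ E2) x :=
      (hasFDerivAt_id x).sub_const x
    have h2 : HasFDerivAt (fun y : E2 => l (y - x)) (l.comp (ContinuousLinearMap.id ℂ E2)) x :=
      HasFDerivAt.comp (g := fun z : E2 => l z) (f := fun y : E2 => y - x) x l.hasFDerivAt h1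
    simpa using h2
  have hinj : Function.Injective (fderiv ℂ G x) := by
    rw [hGd.fderiv]
    intro a b hab
    have h1 : ((fderiv ℂ f x).prod l) (a - b) = 0 := by rw [map_sub, hab, sub_self]
    have h2 : fderiv ℂ f x (a - b) = 0 := congrArg Prod.fst h1
    have h3 : l (a - b) = 0 := congrArg Prod.snd h1
    exact sub_eq_zero.1 (hl _ h2 h3)
  have hbij : Function.Bijective (fderiv ℂ G x) :=
    ⟨hinj, (LinearMap.injective_iff_surjective (f := (fderiv ℂ G x).toLinearMap)).1 hinj⟩
  obtain ⟨N, W, H, hN, hxN, hNS, hW, hNG, hWH⟩ :=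
    inverse_general G x hGc hbij (Ω ∩ U) (Filter.inter_mem (hΩ.mem_nhds hx) hU)
  have hGxW : (f x, (0 : ℂ)) ∈ W := by
    rw [← hGx]
    exact (hNG x hxN).1
  obtain ⟨r, hr, hball⟩ := Metric.isOpen_iff.1 hW _ hGxW
  rw [← ball_prod_same] at hball
  have hGcont : ContinuousOn G N := fun n hn => (hNG n hn).2.2.1.continuousAt.continuousWithinAt
  have hHcont : ContinuousOn H W := fun n hn => (hWH n hn).2.2.1.continuousAt.continuousWithinAt
  let φ : OpenPartialHomeomorph E2 E2 :=
    { toFun := G
      invFun := H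
      source := N ∩ G ⁻¹' (ball (f x) r ×ˢ ball (0 : ℂ) r)
      target := ball (f x) r ×ˢ ball (0 : ℂ) r
      map_source' := fun y hy => hy.2
      map_target' := fun y hy => ⟨(hWH y (hball hy)).1, by
        rw [mem_preimage]
        rw [(hWH y (hball hy)).2.1]
        exact hy⟩
      left_inv' := fun y hy => (hNG y hy.1).2.1
      right_inv' := fun y hy => (hWH y (hball hy)).2.1
      open_source := hGcont.isOpen_inter_preimage hN (isOpen_ball.prod isOpen_ball)
      open_target := isOpen_ball.prod isOpen_ball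
      continuousOn_toFun := hGcont.mono inter_subset_left
      continuousOn_invFun := hHcont.mono hball }
  refine ⟨r, φ, ⟨hr, ⟨hxN, ?_⟩, fun y hy => (hNS hy.1).1, hGx, rfl, ?_, ?_, fun y _ => rfl⟩,
    fun y hy => (hNS hy.1).2⟩
  · rw [mem_preimage, hGx]
    exact ⟨mem_ball_self hr, mem_ball_self hr⟩
  · intro y hy
    exact ((hNG y hy.1).2.2.1.differentiableAt (by norm_num)).differentiableWithinAt
  · intro y hy
    exact ((hWH y (hball hy)).2.2.1.differentiableAt (by norm_num)).differentiableWithinAt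

theorem plaque {x : E2} {r : ℝ} {φ : OpenPartialHomeomorph E2 E2} (C : FChart Ω f x r φ)
    {y z : E2} (hy : y ∈ φ.source) (hz : z ∈ φ.source) (h : f y = f z) : z ∈ LF Ω f y := by
  have hty : φ y ∈ φ.target := φ.map_source hy
  have htz : φ z ∈ φ.target := φ.map_source hz
  have hy1 : f y ∈ ball (f x) r := by
    rw [C.target] at hty
    have := hty.1
    rwa [C.fst y hy] at this
  have hsub : ({f y} : Set ℂ) ×ˢ ball (0 : ℂ) r ⊆ φ.target := by
    rw [C.target]
    exact Set.prod_mono (by simpa using hy1) Subset.rfl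
  have hpre : IsPreconnected (φ.symm '' (({f y} : Set ℂ) ×ˢ ball (0 : ℂ) r)) := by
    refine IsPreconnected.image ?_ _ (φ.continuousOn_symm.mono hsub)
    exact isPreconnected_singleton.prod (convex_ball (0 : ℂ) r).isPreconnected
  have hin : φ.symm '' (({f y} : Set ℂ) ×ˢ ball (0 : ℂ) r) ⊆ Ω ∩ f ⁻¹' {f y} := by
    rintro _ ⟨p, hp, rfl⟩
    have h1 : φ.symm p ∈ φ.source := φ.map_target (hsub hp)
    refine ⟨C.sub h1, ?_⟩
    have h2 := C.fst _ h1
    rw [φ.right_inv (hsub hp)] at h2
    change f (φ.symm p) = f y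
    rw [← h2]
    exact hp.1
  have hmem : ∀ u ∈ φ.source, f u = f y → u ∈ φ.symm '' (({f y} : Set ℂ) ×ˢ ball (0 : ℂ) r) := by
    intro u hu huf
    refine ⟨φ u, ⟨?_, ?_⟩, φ.left_inv hu⟩
    · change (φ u).1 = f y
      rw [C.fst u hu, huf]
    · have := φ.map_source hu
      rw [C.target] at this
      exact this.2
  exact hpre.subset_connectedComponentIn (hmem y hy rfl) hin (hmem z hz h.symm)

/-- `LF` is an equivalence relation -/
theorem lf_symm {x y : E2} (h : y ∈ LF Ω f x) : LF Ω f y = LF Ω f x := by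
  have h1 : y ∈ Ω ∩ f ⁻¹' {f x} := connectedComponentIn_subset _ _ h
  have h2 : f y = f x := h1.2
  unfold LF at h ⊢
  rw [h2]
  exact (connectedComponentIn_eq h).symm

end Pool.Agent.MP_fe3720.NF
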