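import Pool.Agent.Work.MP_fe3720_an.NF.DfNe
import Pool.Agent.Work.MP_fe3720_an.NF.Chart
import Pool.Agent.Work.MP_fe3720_an.FrobCalc

/-! # Module BoxEx: flow boxes

PROOF of `box_ex`. Take a chart `φ` of `chart_ex` with source in `U ∩ Reg`, radius `ρ`. In these
coordinates the field is `(0, v(c,y))`: `v (c,y)` = second coordinate of
`fderiv ℂ φ z (V z)`, `z = φ.symm (c,y)` (the first one is `df (V) = 0`), holomorphic on the
product (analytic by `osg`), and `v ≠ 0` there (`fderiv ℂ φ z` is injective as `φ.symm ∘ φ = id`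
near `z`, `V z ≠ 0`). Put `T (c,y) = ∫_0^1 y / v (c, s y) ds` (a primitive of `1 / v(c,·)`):
holomorphic (differentiation under the integral), `T (c,0) = 0`, `∂T/∂y = 1 / v`. The map
`(c,y) ↦ (c, T (c,y))` has an invertible derivative (triangular), inverse function theorem as in
Chart (`FrobCalc.inverse_nbhd`); `ψ` = the composition with `φ` restricted to the preimage of a
small product of balls `ball (f x) r ×ˢ ball 0 r`.
`flow`: `γ u = ψ.symm (f y, (ψ y).2 + u)` for `u` in the convex open set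
`{u | (ψ y).2 + u ∈ ball 0 r}` has derivative `V (γ u)` (as `fderiv ψ (V) = (0,1)`), `γ 0 = y`;
`fl_eq` of Flow.

`box_sec`, `box_orbit`: immediate. -/

namespace Pool.Agent.MP_fe3720.NF

open Set Topology Filter Metric MeasureTheory Pool.Agent.MP_fe3720.NR

private theorem prim2_int {c₀ : ℂ} {ρ : ℝ} {g : ℂ × ℂ → ℂ}
    (hg : DifferentiableOn ℂ g (ball c₀ ρ ×ˢ ball (0 : ℂ) ρ)) :
    DifferentiableOn ℂ (fun p : ℂ × ℂ => ∫ s in (0 : ℝ)..1, g (p.1, (s : ℂ) * p.2))
      (ball c₀ ρ ×ˢ ball (0 : ℂ) ρ) := by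
  set B : Set (ℂ × ℂ) := ball c₀ ρ ×ˢ ball (0 : ℂ) ρ with hB
  have hBo : IsOpen B := isOpen_ball.prod isOpen_ball
  have hga : AnalyticOnNhd ℂ g B := osg hBo hg
  have hgd : ContinuousOn (fderiv ℂ g) B := hga.fderiv.continuousOn
  rintro p₀ ⟨h1, h2⟩
  obtain ⟨r, hr1, hr2⟩ : ∃ r, max (dist p₀.1 c₀) (dist p₀.2 0) < r ∧ r < ρ :=
    exists_between (max_lt h1 h2)
  have hr3 : dist p₀.1 c₀ < r := (le_max_left _ _).trans_lt hr1
  have hr4 : dist p₀.2 0 < r := (le_max_right _ _).trans_lt hr1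
  set K : Set (ℂ × ℂ) := closedBall c₀ r ×ˢ closedBall (0 : ℂ) r with hK
  have hKc : IsCompact K := (isCompact_closedBall _ _).prod (isCompact_closedBall _ _)
  have hKB : K ⊆ B := prod_mono (closedBall_subset_ball hr2) (closedBall_subset_ball hr2)
  obtain ⟨M, hM⟩ := hKc.exists_bound_of_continuousOn (hgd.mono hKB)
  set s : Set (ℂ × ℂ) := ball c₀ r ×ˢ ball (0 : ℂ) r with hs
  have hso : IsOpen s := isOpen_ball.prod isOpen_ball
  have hp₀ : p₀ ∈ s := ⟨hr3, hr4⟩
  have hmem : ∀ p ∈ s, ∀ t : ℝ, t ∈ Icc (0 : ℝ) 1 → (p.1, (t : ℂ) * p.2) ∈ K := by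
    rintro p ⟨hp1, hp2⟩ t ⟨ht0, ht1⟩
    refine ⟨ball_subset_closedBall hp1, ?_⟩
    rw [mem_closedBall_zero_iff, norm_mul, Complex.norm_real, Real.norm_of_nonneg ht0]
    rw [mem_ball_zero_iff] at hp2
    calc t * ‖p.2‖ ≤ 1 * ‖p.2‖ := mul_le_mul_of_nonneg_right ht1 (norm_nonneg _)
      _ ≤ r := by rw [one_mul]; exact hp2.le
  let L : ℝ → (ℂ × ℂ →L[ℂ] ℂ × ℂ) := fun t =>
    (ContinuousLinearMap.inl ℂ ℂ ℂ).comp (ContinuousLinearMap.fst ℂ ℂ ℂ) +
      (t : ℂ) • (ContinuousLinearMap.inr ℂ ℂ ℂ).comp (ContinuousLinearMap.snd ℂ ℂ ℂ)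
  have hL : ∀ t p, L t p = (p.1, (t : ℂ) * p.2) := fun t p => by simp [L]
  have hLn : ∀ t : ℝ, t ∈ Icc (0 : ℝ) 1 → ‖L t‖ ≤ 1 := by
    rintro t ⟨ht0, ht1⟩
    refine ContinuousLinearMap.opNorm_le_bound _ zero_le_one fun p => ?_
    rw [hL, one_mul]
    refine max_le (norm_fst_le p) ?_
    rw [norm_mul, Complex.norm_real, Real.norm_of_nonneg ht0]
    calc t * ‖p.2‖ ≤ 1 * ‖p.2‖ := mul_le_mul_of_nonneg_right ht1 (norm_nonneg _)
      _ ≤ ‖p‖ := by rw [one_mul]; exact norm_snd_le p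
  have hLc : Continuous L := by
    fun_prop
  have hcont : ∀ p ∈ s, ContinuousOn (fun t : ℝ => g (p.1, (t : ℂ) * p.2)) (Icc 0 1) := by
    intro p hp
    refine hga.continuousOn.comp (t := B) ?_ fun t ht => hKB (hmem p hp t ht)
    fun_prop
  have huI : (Set.uIoc (0 : ℝ) 1) ⊆ Icc 0 1 := by
    rw [uIoc_of_le zero_le_one]; exact Ioc_subset_Icc_self
  have key := intervalIntegral.hasFDerivAt_integral_of_dominated_of_fderiv_le
    (μ := volume) (a := 0) (b := 1) (F := fun (p : ℂ × ℂ) (t : ℝ) => g (p.1, (t : ℂ) * p.2))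
    (F' := fun (p : ℂ × ℂ) (t : ℝ) => (fderiv ℂ g (p.1, (t : ℂ) * p.2)).comp (L t))
    (x₀ := p₀) (s := s) (bound := fun _ => M) (hso.mem_nhds hp₀) ?_ ?_ ?_ ?_ ?_ ?_
  · exact key.differentiableAt.differentiableWithinAt
  · filter_upwards [hso.mem_nhds hp₀] with p hp
    exact ((hcont p hp).mono huI).aestronglyMeasurable measurableSet_uIoc
  · exact ((hcont p₀ hp₀).mono (by rw [uIcc_of_le zero_le_one])).intervalIntegrable
  · refine ContinuousOn.aestronglyMeasurable ?_ measurableSet_uIoc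
    refine ContinuousOn.clm_comp ?_ hLc.continuousOn
    refine hgd.comp (t := B) (by fun_prop) fun t ht => hKB (hmem p₀ hp₀ t (huI ht))
  · refine Eventually.of_forall fun t ht p hp => ?_
    have h1 := hM _ (hmem p hp t (huI ht))
    calc ‖(fderiv ℂ g (p.1, (t : ℂ) * p.2)).comp (L t)‖
        ≤ ‖fderiv ℂ g (p.1, (t : ℂ) * p.2)‖ * ‖L t‖ := ContinuousLinearMap.opNorm_comp_le _ _
      _ ≤ M * 1 := mul_le_mul h1 (hLn t (huI ht)) (norm_nonneg _) ((norm_nonneg _).trans h1)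
      _ = M := mul_one M
  · exact intervalIntegrable_const
  · refine Eventually.of_forall fun t ht p hp => ?_
    have h1 : HasFDerivAt g (fderiv ℂ g (p.1, (t : ℂ) * p.2)) (L t p) :=
      by rw [hL]; exact (hga _ (hKB (hmem p hp t (huI ht)))).differentiableAt.hasFDerivAt
    have h2 := h1.comp p (L t).hasFDerivAt
    refine h2.congr_of_eventuallyEq (Eventually.of_forall fun q => ?_)
    simp only [Function.comp_apply, hL]

/-- a primitive in the second variable -/
private theorem prim2 {c₀ : ℂ} {ρ : ℝ} {g : ℂ × ℂ → ℂ}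
    (hg : DifferentiableOn ℂ g (ball c₀ ρ ×ˢ ball (0 : ℂ) ρ)) :
    ∃ T : ℂ × ℂ → ℂ, DifferentiableOn ℂ T (ball c₀ ρ ×ˢ ball (0 : ℂ) ρ) ∧ (∀ c, T (c, 0) = 0) ∧
      ∀ p : ℂ × ℂ, p ∈ ball c₀ ρ ×ˢ ball (0 : ℂ) ρ →
        HasDerivAt (fun y => T (p.1, y)) (g p) p.2 := by
  refine ⟨fun p => p.2 * ∫ s in (0 : ℝ)..1, g (p.1, (s : ℂ) * p.2), ?_, fun c => by simp, ?_⟩
  · exact differentiable_snd.differentiableOn.mul (prim2_int hg)
  · rintro ⟨c, y⟩ ⟨h1, h2⟩
    have hd : DifferentiableOn ℂ (fun u => g (c, u)) (ball (0 : ℂ) ρ) := by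
      refine hg.comp (t := ball c₀ ρ ×ˢ ball (0 : ℂ) ρ) (by fun_prop) fun u hu => ⟨h1, hu⟩
    obtain ⟨P, hP⟩ := hd.isExactOn_ball
    have key : ∀ u ∈ ball (0 : ℂ) ρ, u * ∫ s in (0 : ℝ)..1, g (c, (s : ℂ) * u) = P u - P 0 := by
      intro u hu
      have hmem : ∀ t : ℝ, t ∈ Icc (0 : ℝ) 1 → (t : ℂ) * u ∈ ball (0 : ℂ) ρ := by
        rintro t ⟨ht0, ht1⟩
        rw [mem_ball_zero_iff, norm_mul, Complex.norm_real, Real.norm_of_nonneg ht0]
        rw [mem_ball_zero_iff] at hu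
        calc t * ‖u‖ ≤ 1 * ‖u‖ := mul_le_mul_of_nonneg_right ht1 (norm_nonneg _)
          _ < ρ := by rw [one_mul]; exact hu
      have hF : ∀ t ∈ uIcc (0 : ℝ) 1, HasDerivAt (fun s : ℝ => P ((s : ℂ) * u))
          (u * g (c, (t : ℂ) * u)) t := by
        intro t ht
        rw [uIcc_of_le zero_le_one] at ht
        have h3 : HasDerivAt P (g (c, (t : ℂ) * u)) ((t : ℂ) * u) := hP _ (hmem t ht)
        have h4 : HasDerivAt (fun s : ℝ => (s : ℂ) * u) u t := by
          simpa using (Complex.ofRealCLM.hasDerivAt (x := t)).mul_const u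
        have h5 := h3.comp t h4
        rw [mul_comm] at h5
        exact h5
      have hint : IntervalIntegrable (fun t : ℝ => u * g (c, (t : ℂ) * u)) volume 0 1 := by
        refine ContinuousOn.intervalIntegrable ?_
        rw [uIcc_of_le zero_le_one]
        refine continuousOn_const.mul ?_
        exact ContinuousOn.comp (g := fun u => g (c, u)) (f := fun t : ℝ => (t : ℂ) * u)
          (t := ball (0 : ℂ) ρ) hd.continuousOn (by fun_prop) fun t ht => hmem t ht
      have := intervalIntegral.integral_eq_sub_of_hasDerivAt hF hint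
      rw [intervalIntegral.integral_const_mul] at this
      simpa using this
    have h3 : HasDerivAt (fun u => P u - P 0) (g (c, y)) y := (hP y h2).sub_const _
    refine h3.congr_of_eventuallyEq ?_
    filter_upwards [isOpen_ball.mem_nhds h2] with u hu
    exact key u hu


variable {Ω : Set E2} {f : E2 → ℂ} {V : E2 → E2} {w : E2 → E2 → ℂ}

/-- the straightened field has a nonzero second coordinate -/
private theorem v_props (F : Fol Ω f V w) {x : E2} {ρ : ℝ} {φ : OpenPartialHomeomorph E2 E2}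
    (C : FChart Ω f x ρ φ) (hreg : φ.source ⊆ Reg Ω f V) :
    ∃ v : ℂ × ℂ → ℂ, DifferentiableOn ℂ v φ.target ∧ (∀ p ∈ φ.target, v p ≠ 0) ∧
      ∀ y ∈ φ.source, fderiv ℂ φ y (V y) = (0, v (φ y)) := by
  have hfd : ∀ y ∈ φ.source, DifferentiableAt ℂ φ y := fun y hy =>
    (C.hol y hy).differentiableAt (φ.open_source.mem_nhds hy)
  have hfst : ∀ y ∈ φ.source, ∀ u : E2, (fderiv ℂ φ y u).1 = fderiv ℂ f y u := by
    intro y hy u
    have h1 : HasFDerivAt (fun z => (φ z).1)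
        ((ContinuousLinearMap.fst ℂ ℂ ℂ).comp (fderiv ℂ φ y)) y :=
      (ContinuousLinearMap.fst ℂ ℂ ℂ).hasFDerivAt.comp y (hfd y hy).hasFDerivAt
    have h2 : HasFDerivAt f ((ContinuousLinearMap.fst ℂ ℂ ℂ).comp (fderiv ℂ φ y)) y := by
      refine h1.congr_of_eventuallyEq ?_
      filter_upwards [φ.open_source.mem_nhds hy] with z hz
      exact (C.fst z hz).symm
    rw [h2.fderiv]
    rfl
  have hinj : ∀ y ∈ φ.source, ∀ u : E2, fderiv ℂ φ.symm (φ y) (fderiv ℂ φ y u) = u := by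
    intro y hy u
    have h1 : HasFDerivAt φ.symm (fderiv ℂ φ.symm (φ y)) (φ y) :=
      ((C.hols _ (φ.map_source hy)).differentiableAt
        (φ.open_target.mem_nhds (φ.map_source hy))).hasFDerivAt
    have h2 := h1.comp y (hfd y hy).hasFDerivAt
    have h3 : HasFDerivAt (φ.symm ∘ φ) (ContinuousLinearMap.id ℂ E2) y := by
      refine (hasFDerivAt_id y).congr_of_eventuallyEq ?_
      filter_upwards [φ.open_source.mem_nhds hy] with z hz
      exact φ.left_inv hz
    have h4 := h2.unique h3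
    have := congrArg (fun A : E2 →L[ℂ] E2 => A u) h4
    simpa using this
  have hpair : ∀ y ∈ φ.source, fderiv ℂ φ y (V y) = (0, (fderiv ℂ φ y (V y)).2) := by
    intro y hy
    refine Prod.ext ?_ rfl
    rw [hfst y hy, F.tan y (C.sub hy)]
  refine ⟨fun p => (fderiv ℂ φ (φ.symm p) (V (φ.symm p))).2, ?_, ?_, ?_⟩
  · have h1 : DifferentiableOn ℂ (fderiv ℂ φ) φ.source :=
      (osg φ.open_source C.hol).fderiv.differentiableOn
    have h2 : DifferentiableOn ℂ (fun p => fderiv ℂ φ (φ.symm p)) φ.target :=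
      h1.comp C.hols fun p hp => φ.map_target hp
    have h3 : DifferentiableOn ℂ (fun p => V (φ.symm p)) φ.target :=
      F.holV.comp C.hols fun p hp => C.sub (φ.map_target hp)
    exact (h2.clm_apply h3).snd
  · intro p hp h0
    have hy := φ.map_target hp
    have h1 := hpair _ hy
    have h0' : (fderiv ℂ φ (φ.symm p) (V (φ.symm p))).2 = 0 := h0
    rw [h0'] at h1
    have h2 := hinj _ hy (V (φ.symm p))
    rw [h1] at h2
    have h3 : V (φ.symm p) = 0 := by
      rw [← h2]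
      exact map_zero (fderiv ℂ φ.symm (φ (φ.symm p)))
    exact (hreg hy).2.2 h3
  · intro y hy
    rw [hpair y hy]
    simp only [φ.left_inv hy]

theorem box_ex (F : Fol Ω f V w) {x : E2} (hx : x ∈ Reg Ω f V) {U : Set E2} (hU : U ∈ 𝓝 x) :
    ∃ (r : ℝ) (ψ : OpenPartialHomeomorph E2 E2), Box Ω f V x r ψ ∧ ψ.source ⊆ U := by
  obtain ⟨ρ, φ, C, hφU⟩ := chart_ex F.isOpen F.holf hx.1 hx.2.1
    (inter_mem hU ((reg_open F).mem_nhds hx))
  have hreg : φ.source ⊆ Reg Ω f V := fun y hy => (hφU hy).2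
  obtain ⟨v, hv, hv0, hvV⟩ := v_props F C hreg
  have hgd : DifferentiableOn ℂ (fun p => (v p)⁻¹) (ball (f x) ρ ×ˢ ball (0 : ℂ) ρ) := by
    rw [← C.target]
    exact hv.inv hv0
  obtain ⟨T, hT, hT0, hTd⟩ := prim2 hgd
  rw [← C.target] at hT hTd
  have hTa : AnalyticOnNhd ℂ T φ.target := osg φ.open_target hT
  set G : ℂ × ℂ → ℂ × ℂ := fun p => (p.1, T p) with hG
  have hGa : AnalyticOnNhd ℂ G φ.target := fun p hp =>
    analyticAt_fst.prod (hTa p hp)
  have hGd : ∀ p ∈ φ.target, ∀ u : ℂ × ℂ, fderiv ℂ G p u = (u.1, fderiv ℂ T p u) := by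
    intro p hp u
    have h1 : HasFDerivAt G ((ContinuousLinearMap.fst ℂ ℂ ℂ).prod (fderiv ℂ T p)) p :=
      hasFDerivAt_fst.prodMk (hTa p hp).differentiableAt.hasFDerivAt
    rw [h1.fderiv]
    rfl
  have hTv : ∀ p ∈ φ.target, ∀ a : ℂ, fderiv ℂ T p (0, a) = a * (v p)⁻¹ := by
    intro p hp a
    have h1 : HasDerivAt (fun y => T (p.1, y)) (fderiv ℂ T p (0, 1)) p.2 := by
      have h2 : HasFDerivAt T (fderiv ℂ T p) (p.1, p.2) :=
        (hTa p hp).differentiableAt.hasFDerivAt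
      have h3 : HasDerivAt (fun y : ℂ => (p.1, y)) ((0 : ℂ), (1 : ℂ)) p.2 :=
        (hasDerivAt_const p.2 p.1).prodMk (hasDerivAt_id p.2)
      exact h2.comp_hasDerivAt p.2 h3
    have h4 := h1.unique (hTd p hp)
    have h5 : ((0 : ℂ), a) = a • ((0 : ℂ), (1 : ℂ)) := by simp
    rw [h5, map_smul, h4, smul_eq_mul]
  have hxt : φ x ∈ φ.target := φ.map_source C.mem
  have hbij : Function.Bijective (fderiv ℂ G (φ x)) := by
    have hinj : Function.Injective (fderiv ℂ G (φ x)).toLinearMap := by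
      rw [← LinearMap.ker_eq_bot, LinearMap.ker_eq_bot']
      rintro ⟨a, b⟩ hm
      have hm' : fderiv ℂ G (φ x) (a, b) = 0 := hm
      rw [hGd _ hxt] at hm'
      have h1 : a = 0 := congrArg Prod.fst hm'
      subst h1
      have h2 : fderiv ℂ T (φ x) (0, b) = 0 := congrArg Prod.snd hm'
      rw [hTv _ hxt, mul_eq_zero, inv_eq_zero] at h2
      rcases h2 with h2 | h2
      · rw [h2]; rfl
      · exact absurd h2 (hv0 _ hxt)
    exact ⟨hinj, LinearMap.surjective_of_injective hinj⟩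
  obtain ⟨N, W, H, hN, hxN, hNS, hW, hNG, hWH⟩ := Pool.Agent.MP_fe3720.inverse_general G (φ x)
    (hGa _ hxt).contDiffAt hbij φ.target (φ.open_target.mem_nhds hxt)
  have hGx : G (φ x) = (f x, 0) := by
    simp only [hG, C.ctr, hT0]
  have hWx : ((f x, 0) : ℂ × ℂ) ∈ W := hGx ▸ (hNG _ hxN).1
  obtain ⟨r, hr, hrW⟩ := Metric.isOpen_iff.mp hW _ hWx
  rw [← ball_prod_same] at hrW
  set R : Set (ℂ × ℂ) := ball (f x) r ×ˢ ball (0 : ℂ) r with hR
  have hRo : IsOpen R := isOpen_ball.prod isOpen_ball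
  have hGc : ContinuousOn G N := fun p hp => (hGa p (hNS hp)).continuousAt.continuousWithinAt
  let e : OpenPartialHomeomorph (ℂ × ℂ) (ℂ × ℂ) :=
    { toFun := G
      invFun := H
      source := N ∩ G ⁻¹' R
      target := R
      map_source' := fun p hp => hp.2
      map_target' := fun q hq => ⟨(hWH q (hrW hq)).1, by
        change G (H q) ∈ R
        rw [(hWH q (hrW hq)).2.1]; exact hq⟩
      left_inv' := fun p hp => (hNG p hp.1).2.1
      right_inv' := fun q hq => (hWH q (hrW hq)).2.1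
      open_source := hGc.isOpen_inter_preimage hN hRo
      open_target := hRo
      continuousOn_toFun := hGc.mono inter_subset_left
      continuousOn_invFun := fun q hq =>
        ((hWH q (hrW hq)).2.2.1).continuousAt.continuousWithinAt }
  have heG : ∀ p, e p = G p := fun p => rfl
  have heH : ∀ p, e.symm p = H p := fun p => rfl
  set ψ : OpenPartialHomeomorph E2 E2 := φ.trans e with hψ
  have hψs : ψ.source = φ.source ∩ φ ⁻¹' (N ∩ G ⁻¹' R) := by
    rw [hψ, OpenPartialHomeomorph.trans_source]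
  have hψt : ψ.target = R := by
    rw [hψ, OpenPartialHomeomorph.trans_target]
    refine inter_eq_left.mpr fun q hq => ?_
    exact hNS (hWH q (hrW hq)).1
  have hψv : ∀ y, ψ y = (f y, T (φ y)) ∨ y ∉ φ.source := by
    intro y
    by_cases hy : y ∈ φ.source
    · left
      change G (φ y) = _
      simp only [hG, C.fst y hy]
    · exact Or.inr hy
  have hψv' : ∀ y ∈ φ.source, ψ y = (f y, T (φ y)) := fun y hy =>
    (hψv y).resolve_right (not_not_intro hy)
  have hψsym : ∀ q, ψ.symm q = φ.symm (H q) := fun q => rfl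
  have hsub : ψ.source ⊆ φ.source := by rw [hψs]; exact inter_subset_left
  have hhol : DifferentiableOn ℂ ψ ψ.source := by
    intro y hy
    rw [hψs] at hy
    have h1 : DifferentiableAt ℂ φ y := (C.hol y hy.1).differentiableAt
      (φ.open_source.mem_nhds hy.1)
    have h2 : DifferentiableAt ℂ G (φ y) := (hGa _ (hNS hy.2.1)).differentiableAt
    exact (h2.comp y h1).differentiableWithinAt
  have hhols : DifferentiableOn ℂ ψ.symm ψ.target := by
    intro q hq
    rw [hψt] at hq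
    have h1 : DifferentiableAt ℂ H q := (hWH q (hrW hq)).2.2.1.differentiableAt (by norm_num)
    have hHq : H q ∈ φ.target := hNS (hWH q (hrW hq)).1
    have h2 : DifferentiableAt ℂ φ.symm (H q) := (C.hols _ hHq).differentiableAt
      (φ.open_target.mem_nhds hHq)
    exact (h2.comp q h1).differentiableWithinAt
  have hxs : x ∈ ψ.source := by
    rw [hψs]
    refine ⟨C.mem, hxN, ?_⟩
    change G (φ x) ∈ R
    rw [hGx]
    exact ⟨mem_ball_self hr, mem_ball_self hr⟩
  have hchart : FChart Ω f x r ψ :=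
    { pos := hr
      mem := hxs
      sub := fun y hy => C.sub (hsub hy)
      ctr := hGx
      target := hψt
      hol := hhol
      hols := hhols
      fst := fun y hy => by rw [hψv' y (hsub hy)] }
  have hψreg : ψ.source ⊆ Reg Ω f V := fun y hy => hreg (hsub hy)
  -- the derivative of `ψ` along `V`
  have hψV : ∀ y ∈ ψ.source, fderiv ℂ ψ y (V y) = (0, 1) := by
    intro y hy
    have hy' := hy
    rw [hψs] at hy'
    have h1 : HasFDerivAt φ (fderiv ℂ φ y) y :=
      ((C.hol y hy'.1).differentiableAt (φ.open_source.mem_nhds hy'.1)).hasFDerivAt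
    have hpt : φ y ∈ φ.target := hNS hy'.2.1
    have h2 : HasFDerivAt G (fderiv ℂ G (φ y)) (φ y) :=
      (hGa _ hpt).differentiableAt.hasFDerivAt
    have h3 : HasFDerivAt ψ ((fderiv ℂ G (φ y)).comp (fderiv ℂ φ y)) y := h2.comp y h1
    rw [h3.fderiv, ContinuousLinearMap.comp_apply, hvV y hy'.1, hGd _ hpt, hTv _ hpt,
      mul_inv_cancel₀ (hv0 _ hpt)]
  have hψsV : ∀ y ∈ ψ.source, fderiv ℂ ψ.symm (ψ y) (0, 1) = V y := by
    intro y hy
    have h1 : HasFDerivAt ψ.symm (fderiv ℂ ψ.symm (ψ y)) (ψ y) :=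
      ((hhols _ (ψ.map_source hy)).differentiableAt
        (ψ.open_target.mem_nhds (ψ.map_source hy))).hasFDerivAt
    have h2 := h1.comp y ((hhol y hy).differentiableAt (ψ.open_source.mem_nhds hy)).hasFDerivAt
    have h3 : HasFDerivAt (ψ.symm ∘ ψ) (ContinuousLinearMap.id ℂ E2) y := by
      refine (hasFDerivAt_id y).congr_of_eventuallyEq ?_
      filter_upwards [ψ.open_source.mem_nhds hy] with z hz
      exact ψ.left_inv hz
    have h4 := congrArg (fun A : E2 →L[ℂ] E2 => A (V y)) (h2.unique h3)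
    rw [← hψV y hy]
    simpa using h4
  refine ⟨r, ψ, ⟨hchart, hψreg, ?_⟩, fun y hy => (hφU (hsub hy)).1⟩
  intro y hy t ht
  set S : Set ℂ := (fun u : ℂ => (ψ y).2 + u) ⁻¹' ball (0 : ℂ) r with hS
  have hSo : IsOpen S := isOpen_ball.preimage (by fun_prop)
  have hSc : IsPreconnected S := by
    have h1 : Convex ℝ S := by
      have h2 : S = (fun u : ℂ => u + (ψ y).2) ⁻¹' ball (0 : ℂ) r := by
        ext u; simp only [hS, mem_preimage, add_comm]
      rw [h2]
      exact (convex_ball (0 : ℂ) r).translate_preimage_left _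
    exact h1.isPreconnected
  have hyt : ψ y ∈ R := hψt ▸ ψ.map_source hy
  have hfy : (ψ y).1 = f y := hchart.fst y hy
  have h0S : (0 : ℂ) ∈ S := by
    change (ψ y).2 + 0 ∈ ball (0 : ℂ) r
    rw [add_zero]; exact hyt.2
  have hqS : ∀ u ∈ S, (f y, (ψ y).2 + u) ∈ ψ.target := by
    intro u hu
    rw [hψt]
    exact ⟨by rw [← hfy]; exact hyt.1, hu⟩
  have hγ : ∀ u ∈ S, (ψ.symm (f y, (ψ y).2 + u)) ∈ Ω ∧
      HasDerivAt (fun u => ψ.symm (f y, (ψ y).2 + u)) (V (ψ.symm (f y, (ψ y).2 + u))) u := by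
    intro u hu
    have hq := hqS u hu
    have hz := ψ.map_target hq
    refine ⟨hchart.sub hz, ?_⟩
    have h1 : HasFDerivAt ψ.symm (fderiv ℂ ψ.symm (f y, (ψ y).2 + u)) (f y, (ψ y).2 + u) :=
      ((hhols _ hq).differentiableAt (ψ.open_target.mem_nhds hq)).hasFDerivAt
    have h2 : HasDerivAt (fun u : ℂ => (f y, (ψ y).2 + u)) ((0 : ℂ), (1 : ℂ)) u :=
      (hasDerivAt_const u (f y)).prodMk ((hasDerivAt_id u).const_add _)
    have h3 := h1.comp_hasDerivAt u h2
    have h4 := hψsV _ hz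
    rw [ψ.right_inv hq] at h4
    rw [h4] at h3
    exact h3
  have hγ0 : ψ.symm (f y, (ψ y).2 + 0) = y := by
    rw [add_zero, ← hfy]
    exact ψ.left_inv hy
  have hkey := fl_eq F (hchart.sub hy) hSo hSc h0S
    (γ := fun u => ψ.symm (f y, (ψ y).2 + u)) hγ0 hγ
  have h5 : fl Ω V y t = ψ.symm (f y, (ψ y).2 + t) := hkey ht
  rw [h5]
  exact ⟨ψ.map_target (hqS t ht), ψ.right_inv (hqS t ht)⟩

theorem box_sec {x : E2} {r : ℝ} {ψ : OpenPartialHomeomorph E2 E2} (B : Box Ω f V x r ψ) :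
    Sec Ω f V (ball (f x) r) (fun c => ψ.symm (c, 0)) := by
  have hmem : ∀ c ∈ ball (f x) r, ((c, 0) : ℂ × ℂ) ∈ ψ.target := by
    intro c hc
    rw [B.chart.target]
    exact ⟨hc, mem_ball_self B.chart.pos⟩
  refine ⟨isOpen_ball, ?_, fun c hc => B.reg (ψ.map_target (hmem c hc)), fun c hc => ?_⟩
  · exact B.chart.hols.comp (by fun_prop) fun c hc => hmem c hc
  · rw [← B.chart.fst _ (ψ.map_target (hmem c hc)), ψ.right_inv (hmem c hc)]

theorem box_orbit {x : E2} {r : ℝ} {ψ : OpenPartialHomeomorph E2 E2} (B : Box Ω f V x r ψ)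
    {y : E2} (hy : y ∈ ψ.source) : fl Ω V (ψ.symm (f y, 0)) (ψ y).2 = y := by
  have hyt : ψ y ∈ ball (f x) r ×ˢ ball (0 : ℂ) r := B.chart.target ▸ ψ.map_source hy
  have hfy : (ψ y).1 = f y := B.chart.fst y hy
  have hq : ((f y, 0) : ℂ × ℂ) ∈ ψ.target := by
    rw [B.chart.target]
    exact ⟨by rw [← hfy]; exact hyt.1, mem_ball_self B.chart.pos⟩
  have hz := ψ.map_target hq
  have h1 : ψ (ψ.symm (f y, 0)) = (f y, 0) := ψ.right_inv hq
  have h2 : f (ψ.symm (f y, 0)) = f y := by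
    rw [← B.chart.fst _ hz, h1]
  obtain ⟨h3, h4⟩ := B.flow _ hz (ψ y).2 (by rw [h1]; simpa using hyt.2)
  have h5 : ψ (fl Ω V (ψ.symm (f y, 0)) (ψ y).2) = ψ y := by
    rw [h4, h2, h1, ← hfy]
    simp
  exact ψ.injOn h3 hy h5

/-- the centre of the box lies on the section -/
theorem box_center {x : E2} {r : ℝ} {ψ : OpenPartialHomeomorph E2 E2} (B : Box Ω f V x r ψ) :
    ψ.symm (f x, 0) = x := by
  rw [← B.chart.ctr]
  exact ψ.left_inv B.chart.mem

end Pool.Agent.MP_fe3720.NF
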