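import Pool.Agent.Work.MP_fe3720_an.NF.Flow

/-! # Module DfNe: the flow preserves `df ≠ 0`, so it preserves `Reg`

PROOF. `f` and `V` are analytic on `Ω` (`osg`). Let `γ = fl x`, `λ t = fderiv ℂ f (γ t)`,
an analytic function `ℂ → (E2 →L[ℂ] ℂ)`. Differentiate the identity `fderiv ℂ f y (V y) = 0`
(`y ∈ Ω`) in the direction `u`: `D²f_y(u)(V y) + df_y(DV_y u) = 0`. By symmetry of the second
derivative (`second_derivative_symmetric` or `ContDiffAt.isSymmSndFDerivAt`), with `y = γ t`: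
`λ'(t)(u) = D²f_{γ t}(V (γ t))(u) = - λ(t)(DV_{γ t} u)`. So `λ' = - λ ∘ A(t)`,
`A t = fderiv ℂ V (γ t)` continuous: a linear equation. If `λ(t) = 0` for some `t` then `λ = 0`
along the segment from `t` to `0` (real parameter in `[0,1]`; `A` is bounded there;
`ODE_solution_unique_of_mem_Icc` or the Gronwall inequality), so `λ 0 = 0`.
ALTERNATIVE without second derivatives: none needed.
`reg_open`: `df` and `V` are continuous on the open set `Ω`. -/

namespace Pool.Agent.MP_fe3720.NF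

open Set Topology Filter Metric Pool.Agent.MP_fe3720.NR

variable {Ω : Set E2} {f : E2 → ℂ} {V : E2 → E2} {w : E2 → E2 → ℂ}

private theorem f_an (F : Fol Ω f V w) : AnalyticOnNhd ℂ f Ω := osg F.isOpen F.holf

private theorem V_an (F : Fol Ω f V w) : AnalyticOnNhd ℂ V Ω := osg F.isOpen F.holV

private theorem ident (F : Fol Ω f V w) {y : E2} (hy : y ∈ Ω) :
    fderiv ℂ (fderiv ℂ f) y (V y) = -((fderiv ℂ f y).comp (fderiv ℂ V y)) := by
  have hf := f_an F y hy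
  have hV := (V_an F y hy).differentiableAt.hasFDerivAt
  have hdf := hf.fderiv.differentiableAt.hasFDerivAt
  have h1 := hdf.clm_apply hV
  have h2 : HasFDerivAt (fun z => fderiv ℂ f z (V z)) (0 : E2 →L[ℂ] ℂ) y := by
    refine (hasFDerivAt_const (0:ℂ) y).congr_of_eventuallyEq ?_
    filter_upwards [F.isOpen.mem_nhds hy] with z hz using F.tan z hz
  have h3 := h1.unique h2
  have hsymm : IsSymmSndFDerivAt ℂ f y := hf.contDiffAt.isSymmSndFDerivAt_of_omega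
  refine ContinuousLinearMap.ext fun u => ?_
  have h4 := DFunLike.congr_fun h3 u
  have h5 := hsymm (V y) u
  have h6 : fderiv ℂ f y (fderiv ℂ V y u) + fderiv ℂ (fderiv ℂ f) y u (V y) = 0 := h4
  show fderiv ℂ (fderiv ℂ f) y (V y) u = -(fderiv ℂ f y (fderiv ℂ V y u))
  rw [h5]
  exact eq_neg_of_add_eq_zero_right h6

private theorem lam_deriv (F : Fol Ω f V w) {x : E2} (hx : x ∈ Ω) (t : ℂ) :
    HasDerivAt (fun t => fderiv ℂ f (fl Ω V x t))
      (-((fderiv ℂ f (fl Ω V x t)).comp (fderiv ℂ V (fl Ω V x t)))) t := by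
  rw [← ident F (fl_mem F hx t)]
  exact (f_an F _ (fl_mem F hx t)).fderiv.differentiableAt.hasFDerivAt.comp_hasDerivAt t
    (fl_deriv F hx t)

theorem df_fl (F : Fol Ω f V w) {x : E2} (hx : x ∈ Ω) (h : fderiv ℂ f x ≠ 0) (t : ℂ) :
    fderiv ℂ f (fl Ω V x t) ≠ 0 := by
  intro h0
  apply h
  have hγc : Continuous (fl Ω V x) :=
    continuous_iff_continuousAt.2 fun s => (fl_deriv F hx s).continuousAt
  have hAc : Continuous fun s : ℂ => fderiv ℂ V (fl Ω V x s) := by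
    refine continuous_iff_continuousAt.2 fun s => ?_
    exact ContinuousAt.comp (g := fderiv ℂ V)
      (V_an F _ (fl_mem F hx s)).fderiv.continuousAt hγc.continuousAt
  have hpath : ∀ r : ℝ, HasDerivAt (fun r : ℝ => ((1 - r : ℝ) : ℂ) * t) (-t) r := by
    intro r
    have h1 : HasDerivAt (fun r : ℝ => ((1 - r : ℝ) : ℂ)) (((-1 : ℝ)) : ℂ) r := by
      have h2 : HasDerivAt (fun r : ℝ => (1 - r : ℝ)) (-1) r := by
        simpa using (hasDerivAt_id r).const_sub 1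
      exact h2.ofReal_comp
    have h3 := h1.mul_const t
    simpa using h3
  have hpc : Continuous fun r : ℝ => ((1 - r : ℝ) : ℂ) * t := by fun_prop
  obtain ⟨K, hK⟩ := isCompact_Icc.exists_bound_of_continuousOn
    (s := Icc (0:ℝ) 1) ((hAc.comp hpc).continuousOn)
  have hder : ∀ r : ℝ, HasDerivAt (fun r : ℝ => fderiv ℂ f (fl Ω V x (((1 - r : ℝ) : ℂ) * t)))
      ((-t) • (-((fderiv ℂ f (fl Ω V x (((1 - r : ℝ) : ℂ) * t))).comp
        (fderiv ℂ V (fl Ω V x (((1 - r : ℝ) : ℂ) * t)))))) r := by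
    intro r
    exact HasDerivAt.scomp r (lam_deriv F hx (((1 - r : ℝ) : ℂ) * t)) (hpath r)
  have key := eq_zero_of_abs_deriv_le_mul_abs_self_of_eq_zero_right
    (f := fun r : ℝ => fderiv ℂ f (fl Ω V x (((1 - r : ℝ) : ℂ) * t)))
    (f' := fun r : ℝ => (-t) • (-((fderiv ℂ f (fl Ω V x (((1 - r : ℝ) : ℂ) * t))).comp
        (fderiv ℂ V (fl Ω V x (((1 - r : ℝ) : ℂ) * t))))))
    (K := ‖t‖ * K) (a := 0) (b := 1)
    (fun r _ => (hder r).continuousAt.continuousWithinAt)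
    (fun r _ => (hder r).hasDerivWithinAt)
    (by simpa using h0)
    (by
      intro r hr
      show ‖(-t) • (-((fderiv ℂ f (fl Ω V x (((1 - r : ℝ) : ℂ) * t))).comp
        (fderiv ℂ V (fl Ω V x (((1 - r : ℝ) : ℂ) * t)))))‖ ≤
        ‖t‖ * K * ‖fderiv ℂ f (fl Ω V x (((1 - r : ℝ) : ℂ) * t))‖
      have h1 := ContinuousLinearMap.opNorm_comp_le (fderiv ℂ f (fl Ω V x (((1 - r : ℝ) : ℂ) * t)))
        (fderiv ℂ V (fl Ω V x (((1 - r : ℝ) : ℂ) * t)))
      have h2 : ‖fderiv ℂ V (fl Ω V x (((1 - r : ℝ) : ℂ) * t))‖ ≤ K := hK r ⟨hr.1, hr.2.le⟩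
      rw [norm_smul, norm_neg, norm_neg]
      have h3 := mul_le_mul_of_nonneg_left h2
        (norm_nonneg (fderiv ℂ f (fl Ω V x (((1 - r : ℝ) : ℂ) * t))))
      calc _ ≤ ‖t‖ * (‖fderiv ℂ f (fl Ω V x (((1 - r : ℝ) : ℂ) * t))‖ * K) :=
            mul_le_mul_of_nonneg_left (h1.trans h3) (norm_nonneg t)
        _ = _ := by ring)
    1 ⟨zero_le_one, le_rfl⟩
  have h5 : fl Ω V x (((1 - (1:ℝ) : ℝ) : ℂ) * t) = x := by
    simp [fl_zero F hx]
  have h6 : fderiv ℂ f (fl Ω V x (((1 - (1:ℝ) : ℝ) : ℂ) * t)) = 0 := key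
  rwa [h5] at h6

theorem reg_fl (F : Fol Ω f V w) {x : E2} (hx : x ∈ Reg Ω f V) (t : ℂ) :
    fl Ω V x t ∈ Reg Ω f V :=
  ⟨fl_mem F hx.1 t, df_fl F hx.1 hx.2.1 t, V_fl F hx.1 hx.2.2 t⟩

theorem reg_open (F : Fol Ω f V w) : IsOpen (Reg Ω f V) := by
  have h1 : IsOpen (Ω ∩ (fderiv ℂ f) ⁻¹' {0}ᶜ) :=
    ContinuousOn.isOpen_inter_preimage
      (fun y hy => (f_an F y hy).fderiv.continuousAt.continuousWithinAt) F.isOpen
      isOpen_compl_singleton
  have h2 : IsOpen (Ω ∩ V ⁻¹' {0}ᶜ) :=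
    ContinuousOn.isOpen_inter_preimage
      (fun y hy => (V_an F y hy).continuousAt.continuousWithinAt) F.isOpen
      isOpen_compl_singleton
  have e : Reg Ω f V = (Ω ∩ (fderiv ℂ f) ⁻¹' {0}ᶜ) ∩ (Ω ∩ V ⁻¹' {0}ᶜ) := by
    ext y
    constructor
    · rintro ⟨h1, h2, h3⟩
      exact ⟨⟨h1, h2⟩, ⟨h1, h3⟩⟩
    · rintro ⟨⟨h1, h2⟩, ⟨_, h3⟩⟩
      exact ⟨h1, h2, h3⟩
  rw [e]
  exact h1.inter h2

end Pool.Agent.MP_fe3720.NF
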