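import Pool.Agent.Work.MP_fe3720_an.NF.Uniq

/-! # Module Flow: first properties of the flow `fl` (all from `traj_eqOn` and `Fol.comp`)

`fl_add`: both sides are trajectories in `t` which agree at `t = 0`.
`f_fl`: `t ↦ f (fl x t)` has derivative `df (V) = 0` on `ℂ`.
`fl_of_zero`: the constant curve is a trajectory. `V_fl`: if `V (fl x t) = 0` then
`fl x (t - t) = fl (fl x t) (-t) = fl x t`, so `x = fl x t` and `V x = 0`.
`fl_orbit`: the orbit is in the leaf: connected image of `ℂ` (`isPreconnected_univ.image`,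
`IsPreconnected.subset_connectedComponentIn`). -/

namespace Pool.Agent.MP_fe3720.NF

open Set Topology Filter Metric Pool.Agent.MP_fe3720.NR

variable {Ω : Set E2} {f : E2 → ℂ} {V : E2 → E2} {w : E2 → E2 → ℂ}

theorem fl_traj (F : Fol Ω f V w) {x : E2} (hx : x ∈ Ω) : IsTraj Ω V (fl Ω V x) := by
  have h := F.comp x hx
  rw [fl, dif_pos h]
  exact h.choose_spec.2

theorem fl_zero (F : Fol Ω f V w) {x : E2} (hx : x ∈ Ω) : fl Ω V x 0 = x := by
  have h := F.comp x hx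
  rw [fl, dif_pos h]
  exact h.choose_spec.1

theorem fl_mem (F : Fol Ω f V w) {x : E2} (hx : x ∈ Ω) (t : ℂ) : fl Ω V x t ∈ Ω :=
  (fl_traj F hx t).1

theorem fl_deriv (F : Fol Ω f V w) {x : E2} (hx : x ∈ Ω) (t : ℂ) :
    HasDerivAt (fl Ω V x) (V (fl Ω V x t)) t :=
  (fl_traj F hx t).2

/-- the flow is the only entire trajectory -/
private theorem flow_aux (F : Fol Ω f V w) {x : E2} (hx : x ∈ Ω) {γ : ℂ → E2} (hγ : γ 0 = x)
    (h : IsTraj Ω V γ) (t : ℂ) : fl Ω V x t = γ t :=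
  traj_eqOn F.isOpen F.holV isOpen_univ isPreconnected_univ (fun t _ => fl_traj F hx t)
    (fun t _ => h t) (mem_univ (0 : ℂ)) (by rw [fl_zero F hx, hγ]) (mem_univ t)

theorem fl_add (F : Fol Ω f V w) {x : E2} (hx : x ∈ Ω) (s t : ℂ) :
    fl Ω V x (s + t) = fl Ω V (fl Ω V x s) t := by
  refine (flow_aux F (fl_mem F hx s) (γ := fun u => fl Ω V x (s + u)) (by simp) ?_ t).symm
  intro u
  exact ⟨fl_mem F hx _, (fl_deriv F hx (s + u)).comp_const_add s u⟩

theorem f_fl (F : Fol Ω f V w) {x : E2} (hx : x ∈ Ω) (t : ℂ) : f (fl Ω V x t) = f x := by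
  have h1 : ∀ u : ℂ, HasDerivAt (fun u => f (fl Ω V x u)) 0 u := by
    intro u
    have h2 := fl_mem F hx u
    have h3 : HasFDerivAt f (fderiv ℂ f (fl Ω V x u)) (fl Ω V x u) :=
      (F.holf.differentiableAt (F.isOpen.mem_nhds h2)).hasFDerivAt
    have h4 := h3.comp_hasDerivAt u (fl_deriv F hx u)
    rw [F.tan _ h2] at h4
    exact h4
  have h5 := is_const_of_deriv_eq_zero (f := fun u => f (fl Ω V x u))
    (fun u => (h1 u).differentiableAt) (fun u => (h1 u).deriv) t 0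
  rw [fl_zero F hx] at h5
  exact h5

theorem fl_of_zero (F : Fol Ω f V w) {x : E2} (hx : x ∈ Ω) (h : V x = 0) (t : ℂ) :
    fl Ω V x t = x := by
  refine flow_aux F hx (γ := fun _ => x) rfl ?_ t
  intro u
  refine ⟨hx, ?_⟩
  show HasDerivAt (fun _ : ℂ => x) (V x) u
  rw [h]
  exact hasDerivAt_const u x

theorem V_fl (F : Fol Ω f V w) {x : E2} (hx : x ∈ Ω) (h : V x ≠ 0) (t : ℂ) :
    V (fl Ω V x t) ≠ 0 := by
  intro h1
  have h2 := fl_of_zero F (fl_mem F hx t) h1 (-t)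
  rw [← fl_add F hx, add_neg_cancel, fl_zero F hx] at h2
  rw [← h2] at h1
  exact h h1

theorem fl_orbit (F : Fol Ω f V w) {x : E2} (hx : x ∈ Ω) (t : ℂ) :
    fl Ω V x t ∈ LF Ω f x := by
  have hc : Continuous (fl Ω V x) :=
    continuous_iff_continuousAt.2 fun u => (fl_deriv F hx u).continuousAt
  have h1 : IsPreconnected (range (fl Ω V x)) := by
    rw [← image_univ]
    exact isPreconnected_univ.image _ hc.continuousOn
  have h2 : x ∈ range (fl Ω V x) := ⟨0, fl_zero F hx⟩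
  have h3 : range (fl Ω V x) ⊆ Ω ∩ f ⁻¹' {f x} := by
    rintro _ ⟨u, rfl⟩
    exact ⟨fl_mem F hx u, f_fl F hx u⟩
  exact h1.subset_connectedComponentIn h2 h3 ⟨t, rfl⟩

/-- a curve which solves the equation on a preconnected open set of times containing `0` is the
flow -/
theorem fl_eq (F : Fol Ω f V w) {x : E2} (hx : x ∈ Ω) {S : Set ℂ} (hS : IsOpen S)
    (hSc : IsPreconnected S) (h0 : (0 : ℂ) ∈ S) {γ : ℂ → E2} (hγ : γ 0 = x)
    (h : ∀ t ∈ S, γ t ∈ Ω ∧ HasDerivAt γ (V (γ t)) t) : EqOn (fl Ω V x) γ S :=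
  traj_eqOn F.isOpen F.holV hS hSc (fun t _ => fl_traj F hx t) h h0 (by rw [fl_zero F hx, hγ])

end Pool.Agent.MP_fe3720.NF
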