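import Pool.Agent.Work.MP_fe3720_an.NF.OneOrb

/-! # Module Haus: the space of good leaves is Hausdorff

PROOF. Let `x, y ∈ Ω`, `f x = f y = c₀ ∉ Bad`, `y ∉ LF x`. `pdisc` at `x` and `y`: charts `φ`, `φ'`, points
`x₁`, `y₁` on the plaques of `x`, `y` (`≠ x`, `≠ y`), `V x₁ ≠ 0`, `V y₁ ≠ 0`; both in `Reg`. If `fl x₁ t = y₁` for
some `t` then `y₁ ∈ LF x₁` (`fl_orbit`) and `LF x = LF x₁ = LF y₁ = LF y` (`plaque`, `lf_symm`),
contradiction. So `GoodSet.pair` for `x₁, y₁`: near `(x₁, y₁)` good points with the same value are on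
different orbits. For `p.1` near `x` let `p₁ = φ.symm (f p.1, (φ x₁).2)`: near `x₁` (continuity), on the plaque of
`p.1`, so `LF p.1 = LF p₁`; the same for `p.2`, `p₂`. If `f p.1 = f p.2 ∉ Bad` and `p.2 ∈ LF p.1` then
`p₂ ∈ LF p₁`, `V p₁ ≠ 0`, `V p₂ ≠ 0` (near `x₁`, `y₁`), so `one_orb` puts `p₂` on the orbit of `p₁`:
contradiction. -/

namespace Pool.Agent.MP_fe3720.NF

open Set Topology Filter Metric Pool.Agent.MP_fe3720.NR

variable {Ω : Set E2} {f : E2 → ℂ} {V : E2 → E2} {w : E2 → E2 → ℂ}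

/-- a second point on the plaque of `x`, with `V ≠ 0`, and the points of its transversal -/
private theorem haus_pt (F : Fol Ω f V w) {Bad : Set ℂ} (hB : GoodSet Ω f V Bad) {x : E2}
    (hx : x ∈ Ω) (hg : f x ∉ Bad) : ∃ (x₁ : E2) (ρ : E2 → E2), x₁ ∈ Reg Ω f V ∧ f x₁ = f x ∧
      LF Ω f x₁ = LF Ω f x ∧ ContinuousAt ρ x ∧ ρ x = x₁ ∧
      ∀ᶠ y in 𝓝 x, f (ρ y) = f y ∧ ρ y ∈ Ω ∧ LF Ω f (ρ y) = LF Ω f y ∧ V (ρ y) ≠ 0 := by
  obtain ⟨r, φ, hC, -, hdf, hV, -⟩ := pdisc F hB hx hg (U := univ) univ_mem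
  have hr := hC.pos
  set p : ℂ := ((r / 2 : ℝ) : ℂ) with hp
  have hpn : ‖p‖ = r / 2 := by
    rw [hp, Complex.norm_real, Real.norm_of_nonneg (by positivity)]
  have hpb : p ∈ ball (0 : ℂ) r := by
    rw [mem_ball_zero_iff, hpn]
    linarith
  have htx : (f x, p) ∈ φ.target := by
    rw [hC.target]
    exact ⟨mem_ball_self hr, hpb⟩
  set x₁ : E2 := φ.symm (f x, p) with hx₁
  have hx₁s : x₁ ∈ φ.source := φ.map_target htx
  have hφx₁ : φ x₁ = (f x, p) := φ.right_inv htx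
  have hfx₁ : f x₁ = f x := by
    rw [← hC.fst x₁ hx₁s, hφx₁]
  have hne : x₁ ≠ x := by
    intro h
    have h1 : φ x₁ = φ x := by rw [h]
    rw [hφx₁, hC.ctr] at h1
    have h2 : p = 0 := congrArg Prod.snd h1
    rw [h2, norm_zero] at hpn
    linarith
  have hVx₁ : V x₁ ≠ 0 := hV x₁ hx₁s hfx₁ hne
  have hρc : ContinuousAt (fun y => φ.symm (f y, p)) x := by
    have h1 : ContinuousAt f x := (F.holf.continuousOn).continuousAt (F.isOpen.mem_nhds hx)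
    have h2 : ContinuousAt (fun y => (f y, p)) x := h1.prodMk continuousAt_const
    have h3 : ContinuousAt φ.symm (f x, p) := φ.continuousAt_symm htx
    exact ContinuousAt.comp (f := fun y => (f y, p)) (g := φ.symm) (x := x) h3 h2
  have hVc : ContinuousAt V x₁ :=
    (F.holV.continuousOn).continuousAt (F.isOpen.mem_nhds (hC.sub hx₁s))
  refine ⟨x₁, fun y => φ.symm (f y, p), ⟨hC.sub hx₁s, hdf x₁ hx₁s, hVx₁⟩, hfx₁,
    lf_symm (plaque hC hC.mem hx₁s hfx₁.symm), hρc, rfl, ?_⟩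
  have e1 : ∀ᶠ y in 𝓝 x, V (φ.symm (f y, p)) ≠ 0 := by
    have h4 : ContinuousAt (fun y => V (φ.symm (f y, p))) x :=
      ContinuousAt.comp (f := fun y => φ.symm (f y, p)) (g := V) (x := x) hVc hρc
    exact h4.eventually_ne hVx₁
  filter_upwards [φ.open_source.mem_nhds hC.mem, e1] with y hy hy1
  have h5 := φ.map_source hy
  rw [hC.target, mem_prod, hC.fst y hy] at h5
  have h6 : (f y, p) ∈ φ.target := by
    rw [hC.target]
    exact ⟨h5.1, hpb⟩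
  have h7 : φ.symm (f y, p) ∈ φ.source := φ.map_target h6
  have h8 : f (φ.symm (f y, p)) = f y := by
    rw [← hC.fst _ h7, φ.right_inv h6]
  exact ⟨h8, hC.sub h7, lf_symm (plaque hC hy h7 h8.symm), hy1⟩

theorem haus (F : Fol Ω f V w) {Bad : Set ℂ} (hB : GoodSet Ω f V Bad) {x y : E2} (hx : x ∈ Ω)
    (hy : y ∈ Ω) (hxy : f x = f y) (hg : f x ∉ Bad) (hn : y ∉ LF Ω f x) :
    ∀ᶠ p : E2 × E2 in 𝓝 (x, y), f p.1 = f p.2 → f p.1 ∉ Bad → p.2 ∉ LF Ω f p.1 := by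
  obtain ⟨x₁, ρ, hxR, hfx, hLx, hρ, hρx, hex⟩ := haus_pt F hB hx hg
  obtain ⟨y₁, ρ', hyR, hfy, hLy, hρ', hρy, hey⟩ := haus_pt F hB hy (by rw [← hxy]; exact hg)
  have hno : ∀ t, fl Ω V x₁ t ≠ y₁ := by
    intro t ht
    apply hn
    have h1 : y₁ ∈ LF Ω f x₁ := by
      rw [← ht]
      exact fl_orbit F hxR.1 t
    have h2 := lf_symm h1
    rw [← hLx, ← h2, hLy]
    exact mem_connectedComponentIn ⟨hy, rfl⟩
  have hp := hB.pair x₁ hxR y₁ hyR (by rw [hfx, hfy, hxy]) (by rw [hfx]; exact hg) hno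
  have hc1 : ContinuousAt (fun p : E2 × E2 => ρ p.1) (x, y) :=
    ContinuousAt.comp (f := Prod.fst) (g := ρ) (x := (x, y)) hρ continuousAt_fst
  have hc2 : ContinuousAt (fun p : E2 × E2 => ρ' p.2) (x, y) :=
    ContinuousAt.comp (f := Prod.snd) (g := ρ') (x := (x, y)) hρ' continuousAt_snd
  have hc : Tendsto (fun p : E2 × E2 => (ρ p.1, ρ' p.2)) (𝓝 (x, y)) (𝓝 (x₁, y₁)) := by
    have h1 := (hc1.prodMk hc2).tendsto
    simp only [hρx, hρy] at h1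
    exact h1
  have e1 : ∀ᶠ p : E2 × E2 in 𝓝 (x, y), f (ρ p.1) = f p.1 ∧ ρ p.1 ∈ Ω ∧
      LF Ω f (ρ p.1) = LF Ω f p.1 ∧ V (ρ p.1) ≠ 0 :=
    (continuous_fst.tendsto (x, y)).eventually hex
  have e2 : ∀ᶠ p : E2 × E2 in 𝓝 (x, y), f (ρ' p.2) = f p.2 ∧ ρ' p.2 ∈ Ω ∧
      LF Ω f (ρ' p.2) = LF Ω f p.2 ∧ V (ρ' p.2) ≠ 0 :=
    (continuous_snd.tendsto (x, y)).eventually hey
  have e3 : ∀ᶠ p : E2 × E2 in 𝓝 (x, y), p.2 ∈ Ω :=
    (continuous_snd.tendsto (x, y)).eventually (F.isOpen.mem_nhds hy)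
  filter_upwards [hc.eventually hp, e1, e2, e3] with p h1 h2 h3 h4 hpf hpg hmem
  obtain ⟨a1, a2, a3, a4⟩ := h2
  obtain ⟨b1, b2, b3, b4⟩ := h3
  have h5 : ρ' p.2 ∈ LF Ω f (ρ p.1) := by
    rw [a3, ← lf_symm hmem, ← b3]
    exact mem_connectedComponentIn ⟨b2, rfl⟩
  obtain ⟨t, ht⟩ := one_orb F hB a2 (by rw [a1]; exact hpg) a4 h5 b4
  exact h1 (by rw [a1, b1]; exact hpf) (by rw [a1]; exact hpg) t ht

end Pool.Agent.MP_fe3720.NF
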