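import Pool.Agent.Work.MP_fe3720_an.NF.PerStr
import Pool.Agent.Work.MP_fe3720_an.NR.H1conv

/-! # Module IntEx (helper90): integrals along trajectories

`int_ex` PROOF. `γ = fl x`. For `t : ℂ` the function `h_t = w (γ t) ∘ γ` is analytic near `t` (`wan`,
`γ` entire; `w (γ t)` is differentiable near `γ t`: `AnalyticAt.eventually_analyticAt`). By `wls` (and
continuity of `γ`) for `u` near `t` the functions `h_t`, `h_u` differ by a constant near `u`. Put
`g t = deriv h_t t`; then `g u = deriv h_t u` for `u` near `t`, so `g` is entire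
(`Differentiable ℂ g`); let `G` be the primitive of `g` with `G 0 = 0`
(`Differentiable.isExactOn_univ` or the existence of primitives on discs / convex sets;
`DifferentiableOn.isExactOn_ball`, glue, or use a power series); `G - h_t` has derivative `0` near `t`,
so is constant near `t`.
`int_unique`: the difference is locally constant on `ℂ`, `0` at `0`.
`int_add`: both sides satisfy the definition for `fl x t` (`fl_add`): `u ↦ G (t + u) - G t`.
`int_cont`: `G` is continuous (differentiable).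
`int_near`: uniform local version: near a point `z ∈ Ω` and for a small ball of times all integrals
are given by `w z`. PROOF: choose a ball `N` around `z` on which: for `y ∈ N`: `w z - w y` is constant
near `y` and `w z` is analytic; if `fl y u ∈ N` for all `u` in the preconnected open set `S ∋ 0`, then
`u ↦ G u - w z (fl y u)` is locally constant on `S`. -/

namespace Pool.Agent.MP_fe3720.NF

open Set Topology Filter Metric Pool.Agent.MP_fe3720.NR

variable {Ω : Set E2} {f : E2 → ℂ} {V : E2 → E2} {w : E2 → E2 → ℂ}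

private theorem isInt_iff_prm {x : E2} {G : ℂ → ℂ} : IsInt Ω V w x G ↔
    G 0 = 0 ∧ Prm (fun t u => w (fl Ω V x t) (fl Ω V x u)) univ G := by
  constructor
  · rintro ⟨h0, h⟩
    refine ⟨h0, fun t _ => ?_⟩
    rw [nhdsWithin_univ]
    exact h t
  · rintro ⟨h0, h⟩
    refine ⟨h0, fun t => ?_⟩
    have := h t (mem_univ t)
    rwa [nhdsWithin_univ] at this

private theorem cont_fl (F : Fol Ω f V w) {x : E2} (hx : x ∈ Ω) : Continuous (fl Ω V x) :=
  continuous_iff_continuousAt.mpr fun t => (fl_deriv F hx t).continuousAt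

theorem int_ex (F : Fol Ω f V w) {x : E2} (hx : x ∈ Ω) : ∃ G, IsInt Ω V w x G := by
  have h1 : IsLS univ (fun t u => w (fl Ω V x t) (fl Ω V x u)) :=
    F.wls.comp (cont_fl F hx).continuousOn (fun t _ => fl_mem F hx t)
  obtain ⟨G, hG⟩ := h1triv_star (E := ℂ) (G := ℂ) isOpen_univ (mem_univ (0 : ℂ))
    (starConvex_univ 0) _ h1
  exact ⟨fun t => G t + (- G 0), isInt_iff_prm.mpr ⟨by ring, hG.add_const _⟩⟩

theorem int_unique {x : E2} {G G' : ℂ → ℂ} (h : IsInt Ω V w x G) (h' : IsInt Ω V w x G') :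
    G = G' := by
  rw [isInt_iff_prm] at h h'
  funext t
  have := h.2.sub_const h'.2 isPreconnected_univ (mem_univ 0) (mem_univ t)
  rw [h.1, h'.1, sub_zero] at this
  exact sub_eq_zero.mp this

theorem int_cont (F : Fol Ω f V w) {x : E2} (hx : x ∈ Ω) {G : ℂ → ℂ} (h : IsInt Ω V w x G) :
    Continuous G := by
  rw [continuous_iff_continuousAt]
  intro t
  have h1 : ContinuousAt (fun u => w (fl Ω V x t) (fl Ω V x u)) t :=
    ContinuousAt.comp (f := fl Ω V x) (g := w (fl Ω V x t))
      (F.wan _ (fl_mem F hx t)).continuousAt (cont_fl F hx).continuousAt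
  have h2 : ContinuousAt (fun u => G t + (w (fl Ω V x t) (fl Ω V x u) -
      w (fl Ω V x t) (fl Ω V x t))) t :=
    continuousAt_const.add (h1.sub continuousAt_const)
  refine h2.congr ?_
  filter_upwards [h.2 t] with u hu
  rw [← hu]; ring

theorem int_add (F : Fol Ω f V w) {x : E2} (hx : x ∈ Ω) {G G' : ℂ → ℂ} (h : IsInt Ω V w x G)
    {t : ℂ} (h' : IsInt Ω V w (fl Ω V x t) G') (u : ℂ) : G (t + u) = G t + G' u := by
  have h1 : IsInt Ω V w (fl Ω V x t) (fun u => G (t + u) - G t) := by
    refine ⟨by simp, fun u => ?_⟩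
    have h2 := h.2 (t + u)
    have h3 : Tendsto (fun v : ℂ => t + v) (𝓝 u) (𝓝 (t + u)) :=
      (continuous_const.add continuous_id).tendsto u
    filter_upwards [h3.eventually h2] with v hv
    rw [← fl_add F hx, ← fl_add F hx, ← hv]
    ring
  have h2 := congrFun (int_unique h1 h') u
  have h3 : G (t + u) - G t = G' u := h2
  rw [← h3]; ring

theorem int_near (F : Fol Ω f V w) {z : E2} (hz : z ∈ Ω) :
    ∃ N ∈ 𝓝 z, IsOpen N ∧ N ⊆ Ω ∧ ∀ y ∈ N, ∀ G, IsInt Ω V w y G → ∀ S : Set ℂ, IsOpen S →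
      IsPreconnected S → (0 : ℂ) ∈ S → (∀ u ∈ S, fl Ω V y u ∈ N) →
      ∀ u ∈ S, G u = w z (fl Ω V y u) - w z y := by
  obtain ⟨N, hNΩ, hN, hzN, hP⟩ := F.wls.prm F.isOpen hz
  refine ⟨N, hN.mem_nhds hzN, hN, hNΩ, fun y hy G hG S _ hSc h0 hS u hu => ?_⟩
  have hyΩ := hNΩ hy
  have h2 : Prm (fun t u => w (fl Ω V y t) (fl Ω V y u)) S G :=
    (isInt_iff_prm.mp hG).2.mono (subset_univ _)
  have h3 : Prm (fun t u => w (fl Ω V y t) (fl Ω V y u)) S (fun t => w z (fl Ω V y t)) :=
    hP.comp (cont_fl F hyΩ).continuousOn hS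
  have h4 := h2.sub_const h3 hSc h0 hu
  rw [hG.1, fl_zero F hyΩ] at h4
  linear_combination h4

end Pool.Agent.MP_fe3720.NF
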