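import Pool.Agent.Work.MP_fe3720_an.NF.Gen
import Pool.Agent.Work.MP_fe3720_an.Rado

/-! # Module Iso: the values over which the orbit of the section has a nonzero period

`VS D s` is open (`gen` and `per_cyc`: a nonzero period means a nonzero generator).
`iso` PROOF. Suppose `VS` is not empty. For `c ∈ VS` let `μ(c) ≠ 0` be a generator of `per (s c)`
(unique up to sign); `u c = (μ c)⁻¹ ^ 2` on `VS`, `u = 0` on `D \ VS`. On `VS` `u` is holomorphic: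
near `c₀` it equals `(l c)⁻¹ ^ 2` with `l` from `gen`. `u` is continuous at `c₀ ∈ D \ VS`: otherwise
frequently as `c → c₀`, `c ∈ VS`, `|μ c| ≤ M`; a convergent subsequence (ultrafilter on the compact
closed ball) `μ c → t₀`, `t₀ ∈ per (s c₀)` by `lim_orbit`, `|t₀| ≥ ε` by `no_small`: a nonzero
period at `c₀`, contradiction. `rado_countable` (file `Rado.lean`, namespace
`Pool.Agent.Work.MP_fe3720_an`): the zero set `D \ VS` of `u` is countable. -/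

namespace Pool.Agent.MP_fe3720.NF

open Set Topology Filter Metric Pool.Agent.MP_fe3720.NR

variable {Ω : Set E2} {f : E2 → ℂ} {V : E2 → E2} {w : E2 → E2 → ℂ}

/-- values of `D` over which the orbit of the section has a nonzero period -/
def VS (Ω : Set E2) (V : E2 → E2) (D : Set ℂ) (s : ℂ → E2) : Set ℂ :=
  {c | c ∈ D ∧ ∃ t ∈ per Ω V (s c), t ≠ 0}

private theorem gen_ne {x : E2} {l : ℂ} (hl : per Ω V x = {t | ∃ n : ℤ, t = n * l})
    {t : ℂ} (ht : t ∈ per Ω V x) (h0 : t ≠ 0) : l ≠ 0 := by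
  rintro rfl
  rw [hl] at ht
  obtain ⟨n, hn⟩ := ht
  exact h0 (by rw [hn, mul_zero])

private theorem vs_near (F : Fol Ω f V w) {D : Set ℂ} {s : ℂ → E2} (S : Sec Ω f V D s) {c₀ : ℂ}
    (hc : c₀ ∈ VS Ω V D s) : ∃ l : ℂ → ℂ, AnalyticAt ℂ l c₀ ∧
      ∀ᶠ c in 𝓝 c₀, c ∈ D ∧ l c ≠ 0 ∧ per Ω V (s c) = {t | ∃ n : ℤ, t = n * l c} := by
  obtain ⟨hD, t, ht, ht0⟩ := hc
  have hr := S.reg c₀ hD
  obtain ⟨l₀, hl₀⟩ := per_cyc F hr.1 hr.2.2
  obtain ⟨l, _, hl2, hl3⟩ := gen F S hD (gen_ne hl₀ ht ht0) hl₀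
  exact ⟨l, hl2, (S.isOpen.eventually_mem hD).and hl3⟩

private theorem vs_of {D : Set ℂ} {s : ℂ → E2} {c l : ℂ} (hc : c ∈ D) (h0 : l ≠ 0)
    (h : per Ω V (s c) = {t | ∃ n : ℤ, t = n * l}) : c ∈ VS Ω V D s :=
  ⟨hc, l, by rw [h]; exact ⟨1, by simp⟩, h0⟩

theorem vs_open (F : Fol Ω f V w) {D : Set ℂ} {s : ℂ → E2} (S : Sec Ω f V D s) :
    IsOpen (VS Ω V D s) := by
  rw [isOpen_iff_mem_nhds]
  intro c₀ hc₀
  obtain ⟨l, _, hl⟩ := vs_near F S hc₀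
  filter_upwards [hl] with c hc
  exact vs_of hc.1 hc.2.1 hc.2.2

private theorem gen_sq {S : Set ℂ} {l l' : ℂ} (h : S = {t | ∃ n : ℤ, t = n * l})
    (h' : S = {t | ∃ n : ℤ, t = n * l'}) (h0 : l ≠ 0) : l ^ 2 = l' ^ 2 := by
  have h1 : l ∈ S := by rw [h]; exact ⟨1, by simp⟩
  have h2 : l' ∈ S := by rw [h']; exact ⟨1, by simp⟩
  rw [h'] at h1
  rw [h] at h2
  obtain ⟨n, hn⟩ := h1
  obtain ⟨m, hm⟩ := h2
  have h3 : ((n * m : ℤ) : ℂ) * l = 1 * l := by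
    push_cast
    calc (n : ℂ) * m * l = n * (m * l) := by ring
      _ = 1 * l := by rw [← hm, ← hn, one_mul]
  have h4 : n * m = 1 := by exact_mod_cast mul_right_cancel₀ h0 h3
  rcases Int.eq_one_or_neg_one_of_mul_eq_one h4 with h5 | h5
  · rw [h5] at hn
    rw [hn]
    simp
  · rw [h5] at hn
    rw [hn]
    simp

theorem iso (F : Fol Ω f V w) {D : Set ℂ} {s : ℂ → E2} (S : Sec Ω f V D s)
    (hD : IsPreconnected D) : VS Ω V D s = ∅ ∨ (D \ VS Ω V D s).Countable := by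
  classical
  rcases (VS Ω V D s).eq_empty_or_nonempty with h0 | ⟨z₀, hz₀⟩
  · exact Or.inl h0
  right
  have hex : ∀ c : ℂ, ∃ m : ℂ, c ∈ VS Ω V D s →
      m ≠ 0 ∧ per Ω V (s c) = {t | ∃ n : ℤ, t = n * m} := by
    intro c
    by_cases hc : c ∈ VS Ω V D s
    · obtain ⟨l, _, hl⟩ := vs_near F S hc
      exact ⟨l c, fun _ => hl.self_of_nhds.2⟩
    · exact ⟨0, fun h => absurd h hc⟩
  choose μ hμ using hex
  let u : ℂ → ℂ := fun c => if c ∈ VS Ω V D s then ((μ c)⁻¹) ^ 2 else 0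
  have hu1 : ∀ c ∈ VS Ω V D s, u c = ((μ c)⁻¹) ^ 2 := fun c hc => if_pos hc
  have hu0 : ∀ c, c ∉ VS Ω V D s → u c = 0 := fun c hc => if_neg hc
  have hune : ∀ c ∈ VS Ω V D s, u c ≠ 0 := fun c hc => by
    rw [hu1 c hc]
    exact pow_ne_zero 2 (inv_ne_zero (hμ c hc).1)
  have hdiff : ∀ c ∈ VS Ω V D s, DifferentiableAt ℂ u c := by
    intro c₀ hc₀
    obtain ⟨l, hla, hl⟩ := vs_near F S hc₀
    have hl0 : l c₀ ≠ 0 := hl.self_of_nhds.2.1
    have h1 : DifferentiableAt ℂ (fun c => ((l c)⁻¹) ^ 2) c₀ :=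
      ((hla.differentiableAt).inv hl0).pow 2
    refine h1.congr_of_eventuallyEq ?_
    filter_upwards [hl] with c hc
    have hcV : c ∈ VS Ω V D s := vs_of hc.1 hc.2.1 hc.2.2
    rw [hu1 c hcV, inv_pow, inv_pow, gen_sq (hμ c hcV).2 hc.2.2 (hμ c hcV).1]
  have hcont0 : ∀ c₀ ∈ D, c₀ ∉ VS Ω V D s → ContinuousAt u c₀ := by
    intro c₀ hc₀ hn
    unfold ContinuousAt
    rw [hu0 c₀ hn, Metric.tendsto_nhds]
    intro ε hε
    by_contra hcon
    rw [not_eventually] at hcon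
    have hfr : ∃ᶠ c in 𝓝 c₀, c ∈ VS Ω V D s ∧ ε ≤ ‖u c‖ := by
      refine hcon.mono fun c hc => ?_
      rw [dist_zero_right, not_lt] at hc
      refine ⟨?_, hc⟩
      by_contra hcV
      rw [hu0 c hcV, norm_zero] at hc
      linarith
    -- an ultrafilter
    have : (𝓝 c₀ ⊓ 𝓟 {c | c ∈ VS Ω V D s ∧ ε ≤ ‖u c‖}).NeBot := frequently_mem_iff_neBot.1 hfr
    set 𝒰 : Ultrafilter ℂ := Ultrafilter.of (𝓝 c₀ ⊓ 𝓟 {c | c ∈ VS Ω V D s ∧ ε ≤ ‖u c‖}) with h𝒰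
    have h𝒰le : (𝒰 : Filter ℂ) ≤ 𝓝 c₀ ⊓ 𝓟 {c | c ∈ VS Ω V D s ∧ ε ≤ ‖u c‖} := Ultrafilter.of_le _
    have h𝒰1 : (𝒰 : Filter ℂ) ≤ 𝓝 c₀ := h𝒰le.trans inf_le_left
    have h𝒰2 : ∀ᶠ c in (𝒰 : Filter ℂ), c ∈ VS Ω V D s ∧ ε ≤ ‖u c‖ :=
      (h𝒰le.trans inf_le_right) (mem_principal_self _)
    have hbd : ∀ᶠ c in (𝒰 : Filter ℂ), μ c ∈ closedBall (0 : ℂ) (Real.sqrt (ε⁻¹)) := by
      filter_upwards [h𝒰2] with c hc
      rw [mem_closedBall_zero_iff]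
      apply Real.le_sqrt_of_sq_le
      have h1 := hc.2
      rw [hu1 c hc.1, norm_pow, norm_inv, inv_pow] at h1
      have h2 : 0 < ‖μ c‖ ^ 2 := by
        have := norm_pos_iff.2 (hμ c hc.1).1
        positivity
      exact (le_inv_comm₀ hε h2).1 h1
    obtain ⟨t₀, _, ht₀⟩ := (isCompact_closedBall (0 : ℂ) (Real.sqrt (ε⁻¹))).ultrafilter_le_nhds
      (𝒰.map μ) (le_principal_iff.2 hbd)
    have hlim : Tendsto μ (𝒰 : Filter ℂ) (𝓝 t₀) := ht₀
    have hper : fl Ω V (s c₀) t₀ = s c₀ := by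
      refine lim_orbit F S S hc₀ hc₀ (l := (𝒰 : Filter ℂ)) (c := fun c => c) (t := μ) h𝒰1 hlim ?_
      refine (Eventually.frequently ?_)
      filter_upwards [h𝒰2] with c hc
      have h1 : μ c ∈ per Ω V (s c) := by
        rw [(hμ c hc.1).2]
        exact ⟨1, by simp⟩
      exact h1
    obtain ⟨δ, hδ, hsm⟩ := no_small F S hc₀
    have hge : δ ≤ ‖t₀‖ := by
      refine ge_of_tendsto hlim.norm ?_
      filter_upwards [h𝒰2, h𝒰1 hsm] with c hc hs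
      by_contra hlt
      rw [not_le] at hlt
      have h1 : μ c ∈ per Ω V (s c) := by
        rw [(hμ c hc.1).2]
        exact ⟨1, by simp⟩
      exact (hμ c hc.1).1 (hs _ h1 hlt)
    refine hn ⟨hc₀, t₀, hper, fun h => ?_⟩
    rw [h, norm_zero] at hge
    linarith
  have hcont : ContinuousOn u D := by
    intro c hc
    by_cases hcV : c ∈ VS Ω V D s
    · exact (hdiff c hcV).continuousAt.continuousWithinAt
    · exact (hcont0 c hc hcV).continuousWithinAt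
  have hset : D ∩ {z | u z = 0} = D \ VS Ω V D s := by
    ext c
    constructor
    · rintro ⟨h1, h2⟩
      exact ⟨h1, fun h => hune c h h2⟩
    · rintro ⟨h1, h2⟩
      exact ⟨h1, hu0 c h2⟩
  have hR := Pool.Agent.Work.MP_fe3720_an.rado_countable S.isOpen hD hcont (fun c hc => by
    have hcV : c ∈ VS Ω V D s := by
      by_contra h
      exact hc.2 (hu0 c h)
    exact (hdiff c hcV).differentiableWithinAt) hz₀.1 (hune z₀ hz₀)
  rw [← hset]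
  exact hR.1

end Pool.Agent.MP_fe3720.NF
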