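import Pool.Agent.Work.MP_fe3720_an.NF.Tube

/-! # Module NoSmall: there are no small periods; limits of connections between sections

`no_small`: box `ψ` at `s c₀` (in `Reg`), radius `r`. For `c` near `c₀`: `s c ∈ ψ.source`,
`|(ψ (s c)).2| < r/2`. If `‖t‖ < r/2` and `fl (s c) t = s c` then
`ψ (s c) = ψ (fl (s c) t) = (c, (ψ (s c)).2 + t)`, so `t = 0`.
`lim_orbit`: `tube_cont` and continuity of `s'`, limits are unique along the filter
`l ⊓ 𝓟 {i | ...}` (`Filter.Frequently`, `tendsto_nhds_unique_of_frequently_eq`). -/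

namespace Pool.Agent.MP_fe3720.NF

open Set Topology Filter Metric Pool.Agent.MP_fe3720.NR

variable {Ω : Set E2} {f : E2 → ℂ} {V : E2 → E2} {w : E2 → E2 → ℂ}

theorem no_small (F : Fol Ω f V w) {D : Set ℂ} {s : ℂ → E2} (S : Sec Ω f V D s) {c₀ : ℂ}
    (hc : c₀ ∈ D) : ∃ ε > 0, ∀ᶠ c in 𝓝 c₀, ∀ t ∈ per Ω V (s c), ‖t‖ < ε → t = 0 := by
  obtain ⟨r, ψ, B, -⟩ := box_ex F (S.reg c₀ hc) (U := univ) univ_mem
  have hr := B.chart.pos
  refine ⟨r / 2, by linarith, ?_⟩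
  have hs : ContinuousAt s c₀ := (S.hol.continuousOn).continuousAt (S.isOpen.mem_nhds hc)
  have h1 : ∀ᶠ c in 𝓝 c₀, s c ∈ ψ.source := hs (ψ.open_source.mem_nhds B.chart.mem)
  have h2 : ContinuousAt (fun c => (ψ (s c)).2) c₀ :=
    continuous_snd.continuousAt.comp
      ((ψ.continuousAt (x := s c₀) B.chart.mem).comp (f := s) hs)
  have h3 : (ψ (s c₀)).2 = 0 := by rw [B.chart.ctr]
  have h4 : ∀ᶠ c in 𝓝 c₀, (ψ (s c)).2 ∈ ball (0 : ℂ) (r / 2) := by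
    refine h2 ?_
    show ball (0 : ℂ) (r / 2) ∈ 𝓝 (ψ (s c₀)).2
    rw [h3]
    exact ball_mem_nhds 0 (by linarith)
  filter_upwards [h1, h4] with c hc1 hc2 t ht htr
  rw [mem_ball_zero_iff] at hc2
  have h5 : (ψ (s c)).2 + t ∈ ball (0 : ℂ) r := by
    rw [mem_ball_zero_iff]
    calc ‖(ψ (s c)).2 + t‖ ≤ ‖(ψ (s c)).2‖ + ‖t‖ := norm_add_le _ _
      _ < r := by linarith
  have h6 := (B.flow (s c) hc1 t h5).2
  have h7 : fl Ω V (s c) t = s c := ht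
  rw [h7] at h6
  have h8 : (ψ (s c)).2 = (ψ (s c)).2 + t := congrArg Prod.snd h6
  exact left_eq_add.1 h8

theorem lim_orbit (F : Fol Ω f V w) {D D' : Set ℂ} {s s' : ℂ → E2} (S : Sec Ω f V D s)
    (S' : Sec Ω f V D' s') {c₀ t₀ : ℂ} (hc : c₀ ∈ D) (hc' : c₀ ∈ D') {ι : Type*} {l : Filter ι}
    {c t : ι → ℂ} (hcl : Tendsto c l (𝓝 c₀)) (htl : Tendsto t l (𝓝 t₀))
    (h : ∃ᶠ i in l, fl Ω V (s (c i)) (t i) = s' (c i)) : fl Ω V (s c₀) t₀ = s' c₀ := by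
  have h1 : Tendsto (fun i => fl Ω V (s (c i)) (t i)) l (𝓝 (fl Ω V (s c₀) t₀)) :=
    (tube_cont F S (t₀ := t₀) hc).tendsto.comp (hcl.prodMk_nhds htl)
  have h2 : Tendsto (fun i => s' (c i)) l (𝓝 (s' c₀)) :=
    ((S'.hol.continuousOn).continuousAt (S'.isOpen.mem_nhds hc')).tendsto.comp hcl
  exact tendsto_nhds_unique_of_frequently_eq h1 h2 h

end Pool.Agent.MP_fe3720.NF
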