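import Pool.Agent.Work.MP_fe3720_an.NR.PrmA

/-! # OffZ: extending across small sets

`SmallOff K Z`: for every `x ∈ K` and every relative neighbourhood `M` of `x` in `K` there is a relative
neighbourhood `N ⊆ M` of `x` such that `N \ Z` is preconnected and nonempty. (So `K \ Z` is dense in `K` and
`Z` does not separate locally.)

PROOFS. `const_offZ`: by choice, for `p ∈ K` let `N p ∈ 𝓝[K] p`, `N p ⊆ K`, `N p \ Z` preconnected, nonempty, with a point
`e p ∈ N p \ Z`. `F` is locally constant on `N p \ Z` (`nhdsWithin_mono`), so `F z = F (e p)` for `z ∈ N p \ Z`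
(`const_of_loc`). Put `F' p = F (e p)`. `F'` is locally constant on `K`: for `p ∈ K`, `N p ∈ 𝓝[K] q` for all `q ∈ K` near
`p` (`eventually_eventually_nhdsWithin`); for such `q` apply `SmallOff` at `q` with `M = N p ∩ N q`: there is a point
`z ∈ (N p ∩ N q) \ Z`; so `F' q = F z = F' p`. By `const_of_loc` `F'` is constant on `K`; for `x ∈ K \ Z` one has `x ∈ N x`
(`mem_of_mem_nhdsWithin`), so `F' x = F x`.

`prm_offZ`: For `p ∈ K` the condition `IsLS K P` at `p` gives `M p ∈ 𝓝[K] p`, `M p ⊆ K`, such that for `y ∈ M p`: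
`∀ᶠ z in 𝓝[K] y, P p z - P y z = P p y - P y y`. Choose `N p ⊆ M p` by `SmallOff`, with a point `e p ∈ N p \ Z`. The function
`W₀ - P p` is locally constant on `N p \ Z`: for `y ∈ N p \ Z` and `z ∈ N p \ Z` near `y`: `W₀ z - W₀ y = P y z - P y y = P p z - P p y`.
So (`const_of_loc`) `W₀ z - P p z = c p := W₀ (e p) - P p (e p)` for all `z ∈ N p \ Z`. Put `W p = c p + P p p`. If `p ∉ Z` then
`p ∈ N p \ Z`, so `W p = W₀ p`. `Prm` at `p`: let `q ∈ K` be near `p`: `q ∈ N p`, `N p ∈ 𝓝[K] q` (as above) and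
`∀ᶠ z in 𝓝[K] q, P p z - P q z = P p q - P q q`. By `SmallOff` at `q` there is `z ∈ (N p ∩ N q) \ Z` with this equality.
`c p + P p z = W₀ z = c q + P q z`, so `c q = c p + P p q - P q q`, `W q = c q + P q q = c p + P p q`, and
`W q - W p = P p q - P p p`. -/

namespace Pool.Agent.MP_fe3720.NF

open Set Topology Filter Pool.Agent.MP_fe3720.NR

variable {X : Type*} [TopologicalSpace X]

/-- the points of `K` have arbitrarily small relative neighbourhoods `N` with `N \ Z` preconnected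
and nonempty -/
def SmallOff (K Z : Set X) : Prop :=
  ∀ x ∈ K, ∀ M ∈ 𝓝[K] x, ∃ N ⊆ M, N ∈ 𝓝[K] x ∧ IsPreconnected (N \ Z) ∧ (N \ Z).Nonempty

theorem const_offZ {α : Type*} {K Z : Set X} (hK : IsPreconnected K) (hN : SmallOff K Z)
    {F : X → α} (hF : ∀ x ∈ K \ Z, ∀ᶠ y in 𝓝[K \ Z] x, F y = F x) {x y : X} (hx : x ∈ K \ Z)
    (hy : y ∈ K \ Z) : F y = F x := by
  classical
  have h1 : ∀ p : X, p ∈ K → ∃ (N : Set X) (e : X), N ∈ 𝓝[K] p ∧ N ⊆ K ∧ IsPreconnected (N \ Z) ∧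
      e ∈ N \ Z := by
    intro p hp
    obtain ⟨N, hNM, hN1, hN2, e, he⟩ := hN p hp K self_mem_nhdsWithin
    exact ⟨N, e, hN1, hNM, hN2, he⟩
  choose! N e hN1 hN2 hN3 he using h1
  have h2 : ∀ p ∈ K, ∀ z ∈ N p \ Z, F z = F (e p) := by
    intro p hp z hz
    refine const_of_loc (hN3 p hp) (F := F) (fun a ha => ?_) (he p hp) hz
    exact (hF a ⟨hN2 p hp ha.1, ha.2⟩).filter_mono
      (nhdsWithin_mono _ (sdiff_subset_sdiff_left (hN2 p hp)))
  have h3 : ∀ p ∈ K, ∀ᶠ q in 𝓝[K] p, F (e q) = F (e p) := by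
    intro p hp
    have h4 : ∀ᶠ q in 𝓝[K] p, N p ∈ 𝓝[K] q := eventually_eventually_nhdsWithin.mpr (hN1 p hp)
    filter_upwards [h4, self_mem_nhdsWithin] with q hq hqK
    obtain ⟨M, hM, -, -, z, hz⟩ := hN q hqK (N p ∩ N q) (inter_mem hq (hN1 q hqK))
    rw [← h2 q hqK z ⟨(hM hz.1).2, hz.2⟩, h2 p hp z ⟨(hM hz.1).1, hz.2⟩]
  have h5 := const_of_loc hK (F := fun p => F (e p)) h3 hx.1 hy.1
  have h6 : ∀ p ∈ K \ Z, F p = F (e p) := fun p hp =>
    h2 p hp.1 p ⟨mem_of_mem_nhdsWithin hp.1 (hN1 p hp.1), hp.2⟩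
  rw [h6 y hy, h6 x hx]
  exact h5

theorem prm_offZ {G : Type*} [AddCommGroup G] {K Z : Set X} (hN : SmallOff K Z)
    {P : X → X → G} (hP : IsLS K P) {W₀ : X → G}
    (hW : ∀ x ∈ K \ Z, ∀ᶠ y in 𝓝[K \ Z] x, W₀ y - W₀ x = P x y - P x x) :
    ∃ W : X → G, Prm P K W ∧ ∀ x ∈ K \ Z, W x = W₀ x := by
  classical
  have h1 : ∀ p : X, p ∈ K → ∃ (N : Set X) (e : X), N ∈ 𝓝[K] p ∧ N ⊆ K ∧ IsPreconnected (N \ Z) ∧
      e ∈ N \ Z ∧ ∀ y ∈ N, ∀ᶠ z in 𝓝[K] y, P p z - P y z = P p y - P y y := by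
    intro p hp
    obtain ⟨N, hNM, hN1, hN2, e, he⟩ := hN p hp _ (inter_mem (hP p hp) self_mem_nhdsWithin)
    exact ⟨N, e, hN1, fun y hy => (hNM hy).2, hN2, he, fun y hy => (hNM hy).1⟩
  choose! N e hN1 hN2 hN3 he hNP using h1
  have h2 : ∀ p ∈ K, ∀ z ∈ N p \ Z, W₀ z - P p z = W₀ (e p) - P p (e p) := by
    intro p hp z hz
    refine const_of_loc (hN3 p hp) (F := fun z => W₀ z - P p z) (fun a ha => ?_) (he p hp) hz
    have h3 := (hW a ⟨hN2 p hp ha.1, ha.2⟩).filter_mono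
      (nhdsWithin_mono _ (sdiff_subset_sdiff_left (t := Z) (hN2 p hp)))
    have h4 := (hNP p hp a ha.1).filter_mono
      (nhdsWithin_mono a (sdiff_subset.trans (hN2 p hp) : N p \ Z ⊆ K))
    filter_upwards [h3, h4] with b hb1 hb2
    have e1 : W₀ b = W₀ a + (P a b - P a a) := by rw [← hb1]; abel
    have e2 : P p b = P a b + (P p a - P a a) := by rw [← hb2]; abel
    rw [e1, e2]; abel
  let c : X → G := fun p => W₀ (e p) - P p (e p)
  refine ⟨fun p => c p + P p p, ?_, ?_⟩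
  · intro p hp
    have h4 : ∀ᶠ q in 𝓝[K] p, N p ∈ 𝓝[K] q := eventually_eventually_nhdsWithin.mpr (hN1 p hp)
    filter_upwards [h4, self_mem_nhdsWithin, hN1 p hp] with q hq hqK hqN
    obtain ⟨M, hM, -, -, z, hz⟩ := hN q hqK (N p ∩ N q ∩ _)
      (inter_mem (inter_mem hq (hN1 q hqK)) (hNP p hp q hqN))
    have e1 := h2 p hp z ⟨(hM hz.1).1.1, hz.2⟩
    have e2 := h2 q hqK z ⟨(hM hz.1).1.2, hz.2⟩
    have e3 : P p z - P q z = P p q - P q q := (hM hz.1).2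
    have e4 : c q = c p + (P p z - P q z) := by
      change W₀ (e q) - P q (e q) = W₀ (e p) - P p (e p) + (P p z - P q z)
      rw [← e1, ← e2]; abel
    change c q + P q q - (c p + P p p) = P p q - P p p
    rw [e4, e3]; abel
  · intro p hp
    have := h2 p hp.1 p ⟨mem_of_mem_nhdsWithin hp.1 (hN1 p hp.1), hp.2⟩
    change W₀ (e p) - P p (e p) + P p p = W₀ p
    rw [← this]; abel

end Pool.Agent.MP_fe3720.NF
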