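import Pool.Agent.Work.MP_fe3720_an.NF.BoxEx
import Pool.Agent.Work.MP_fe3720_an.NF.ZeroV
import Pool.Agent.Work.MP_fe3720_an.NF.PerStr
import Pool.Agent.Work.MP_fe3720_an.NF.OffZ

/-! # Module OneOrb (helper90): a good leaf minus the zeros of `V` is one orbit

`pdisc` (punctured discs): let `x ∈ Ω` be good. There is a chart `φ` at `x` (inside a given
neighbourhood `U`, `chart_ex`, with `df ≠ 0` on the source) such that on the plaque of `x`
`V (φ.symm (f x, y)) ≠ 0` for `y ∈ ball 0 r`, `y ≠ 0` (`zero_iso`, shrink the radius: restrict `φ` to the preimage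
of a smaller product of balls), and all the points `φ.symm (f x, y)`, `y ≠ 0`, are on one orbit: the
punctured disc is connected, and the orbits are open in the plaque (`box_ex` at a point `z` of the
plaque with `V z ≠ 0`: all points of the plaque near `z` are on the orbit of `z`, `box_orbit`).
`one_orb` PROOF. Let `L = LF Ω f x`, connected. For `y ∈ L` let `O(y)` = the orbit of the points of the
punctured disc at `y` (if `V y ≠ 0` it contains `y`: box at `y`). A neighbourhood of `y` in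
`Ω ∩ f ⁻¹' {f x}` is in the plaque of `y`, and for `y'` in it `O(y') = O(y)` (the punctured discs at `y`
and `y'` meet). So `{y ∈ L | O(y) = orbit of x}` is clopen in `L`, so it is `L`. -/

namespace Pool.Agent.MP_fe3720.NF

open Set Topology Filter Metric Pool.Agent.MP_fe3720.NR

variable {Ω : Set E2} {f : E2 → ℂ} {V : E2 → E2} {w : E2 → E2 → ℂ}

private theorem chart_df (hΩ : IsOpen Ω) (hf : DifferentiableOn ℂ f Ω) {x : E2} {r : ℝ}
    {φ : OpenPartialHomeomorph E2 E2} (C : FChart Ω f x r φ) {y : E2} (hy : y ∈ φ.source) :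
    fderiv ℂ f y ≠ 0 := by
  intro h
  have hty : φ y ∈ φ.target := φ.map_source hy
  have hopen : IsOpen φ.target := φ.open_target
  have h1 : DifferentiableAt ℂ φ.symm (φ y) := C.hols.differentiableAt (hopen.mem_nhds hty)
  have h2 : HasDerivAt (fun ζ : ℂ => ((ζ, (φ y).2) : E2)) (1, 0) (φ y).1 :=
    (hasDerivAt_id _).prodMk (hasDerivAt_const _ _)
  have h3 : HasDerivAt (fun ζ : ℂ => φ.symm (ζ, (φ y).2)) (fderiv ℂ φ.symm (φ y) (1, 0))
      (φ y).1 := by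
    have h1' : HasFDerivAt φ.symm (fderiv ℂ φ.symm (φ y)) ((φ y).1, (φ y).2) := h1.hasFDerivAt
    exact h1'.comp_hasDerivAt (φ y).1 h2
  have h4 : HasDerivAt (fun ζ : ℂ => f (φ.symm (ζ, (φ y).2)))
      (fderiv ℂ f y (fderiv ℂ φ.symm (φ y) (1, 0))) (φ y).1 := by
    have h5 : HasFDerivAt f (fderiv ℂ f y) (φ.symm ((φ y).1, (φ y).2)) := by
      have h6 : φ.symm ((φ y).1, (φ y).2) = y := φ.left_inv hy
      rw [h6]
      exact (hf.differentiableAt (hΩ.mem_nhds (C.sub hy))).hasFDerivAt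
    exact h5.comp_hasDerivAt (φ y).1 h3
  have h7 : HasDerivAt (fun ζ : ℂ => f (φ.symm (ζ, (φ y).2))) 1 (φ y).1 := by
    refine (hasDerivAt_id (φ y).1).congr_of_eventuallyEq ?_
    have hcont : ContinuousAt (fun ζ : ℂ => ((ζ, (φ y).2) : E2)) (φ y).1 := h2.continuousAt
    filter_upwards [hcont.eventually (hopen.mem_nhds hty)] with ζ hζ
    rw [← C.fst _ (φ.map_target hζ), φ.right_inv hζ]
    rfl
  have h8 := h4.unique h7
  rw [h] at h8
  simp at h8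

private theorem punctured {ρ : ℝ} (hρ : 0 < ρ) : IsPreconnected (ball (0 : ℂ) ρ \ {0}) := by
  have h1 : ball (0 : ℂ) ρ \ {0} = Complex.exp '' {ζ : ℂ | ζ.re < Real.log ρ} := by
    ext z
    constructor
    · rintro ⟨hz, hz0⟩
      have hz0' : z ≠ 0 := hz0
      refine ⟨Complex.log z, ?_, Complex.exp_log hz0'⟩
      rw [mem_ofPred_eq, Complex.log_re]
      exact Real.log_lt_log (norm_pos_iff.mpr hz0') (mem_ball_zero_iff.mp hz)
    · rintro ⟨ζ, hζ, rfl⟩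
      refine ⟨?_, Complex.exp_ne_zero ζ⟩
      rw [mem_ball_zero_iff, Complex.norm_exp, ← Real.exp_log hρ]
      exact Real.exp_lt_exp.mpr hζ
  rw [h1]
  refine IsPreconnected.image ?_ _ Complex.continuous_exp.continuousOn
  exact (convex_halfSpace_re_lt (Real.log ρ)).isPreconnected

private theorem lf_df {x y : E2} {Bad : Set ℂ} (hB : GoodSet Ω f V Bad) (hg : f x ∉ Bad)
    (hy : y ∈ LF Ω f x) : y ∈ Ω ∧ f y = f x ∧ fderiv ℂ f y ≠ 0 := by
  have h1 := connectedComponentIn_subset _ _ hy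
  exact ⟨h1.1, h1.2, fun h => hg (hB.crit ⟨y, h1.1, h, h1.2⟩)⟩

theorem smallOff_lf (F : Fol Ω f V w) {Bad : Set ℂ} (hB : GoodSet Ω f V Bad) {x : E2}
    (hg : f x ∉ Bad) : SmallOff (LF Ω f x) {y | V y = 0} := by
  intro p hp M hM
  obtain ⟨hpΩ, hfp, hdp⟩ := lf_df hB hg hp
  have hLF : LF Ω f x = connectedComponentIn (Ω ∩ f ⁻¹' {f p}) p := by
    rw [hfp]
    exact connectedComponentIn_eq hp
  obtain ⟨r, φ, hφ, -⟩ := chart_ex F.isOpen F.holf hpΩ hdp univ_mem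
  have hr := hφ.pos
  let e : ℂ → E2 := fun ζ => φ.symm (f p, ζ)
  have htg : ∀ ζ ∈ ball (0 : ℂ) r, (f p, ζ) ∈ φ.target := by
    intro ζ hζ
    rw [hφ.target]
    exact ⟨mem_ball_self hr, hζ⟩
  have hes : ∀ ζ ∈ ball (0 : ℂ) r, e ζ ∈ φ.source := fun ζ hζ => φ.map_target (htg ζ hζ)
  have heφ : ∀ ζ ∈ ball (0 : ℂ) r, φ (e ζ) = (f p, ζ) := fun ζ hζ => φ.right_inv (htg ζ hζ)
  have hef : ∀ ζ ∈ ball (0 : ℂ) r, f (e ζ) = f p := by
    intro ζ hζ
    rw [← hφ.fst _ (hes ζ hζ), heφ ζ hζ]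
  have heΩ : ∀ ζ ∈ ball (0 : ℂ) r, e ζ ∈ Ω := fun ζ hζ => hφ.sub (hes ζ hζ)
  have he0 : e 0 = p := by
    change φ.symm (f p, 0) = p
    rw [← hφ.ctr]
    exact φ.left_inv hφ.mem
  have hecont : ContinuousOn e (ball (0 : ℂ) r) := by
    have h1 : ContinuousOn (fun ζ : ℂ => ((f p, ζ) : E2)) (ball (0 : ℂ) r) :=
      (continuous_const.prodMk continuous_id).continuousOn
    exact hφ.hols.continuousOn.comp h1 (fun ζ hζ => htg ζ hζ)
  have hback : ∀ y ∈ φ.source, f y = f p → e (φ y).2 = y := by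
    intro y hy hfy
    change φ.symm (f p, (φ y).2) = y
    have : (f p, (φ y).2) = φ y := Prod.ext (by rw [hφ.fst y hy, hfy]) rfl
    rw [this]
    exact φ.left_inv hy
  -- continuity of the second coordinate of the chart
  have hφc : ContinuousAt (fun y : E2 => (φ y).2) p :=
    (continuous_snd.continuousAt).comp (φ.continuousAt hφ.mem)
  have hφ0 : (φ p).2 = 0 := by rw [hφ.ctr]
  have hne : ∀ᶠ ζ in 𝓝[≠] (0 : ℂ), V (e ζ) ≠ 0 := by
    have h1 := zero_iso F (x := p) (fun h => hg (hfp ▸ hB.zero h)) hφ hφ.mem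
      (fun y hy => chart_df F.isOpen F.holf hφ hy)
    rwa [hφ0] at h1
  rw [eventually_nhdsWithin_iff] at hne
  obtain ⟨ρ₁, hρ₁, hρ₁'⟩ := Metric.eventually_nhds_iff_ball.mp hne
  -- the open set inside M
  obtain ⟨O, hO, hpO, hOM⟩ := mem_nhdsWithin.mp hM
  have hO' : ∀ᶠ ζ in 𝓝 (0 : ℂ), e ζ ∈ O := by
    have h1 : ContinuousAt e 0 := hecont.continuousAt (ball_mem_nhds 0 hr)
    exact h1.eventually (hO.mem_nhds (by rw [he0]; exact hpO))
  obtain ⟨ρ₂, hρ₂, hρ₂'⟩ := Metric.eventually_nhds_iff_ball.mp hO'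
  let ρ := min r (min ρ₁ ρ₂)
  have hρ : 0 < ρ := lt_min hr (lt_min hρ₁ hρ₂)
  have hρr : ball (0 : ℂ) ρ ⊆ ball 0 r := ball_subset_ball (min_le_left _ _)
  have hρ1 : ball (0 : ℂ) ρ ⊆ ball 0 ρ₁ :=
    ball_subset_ball ((min_le_right _ _).trans (min_le_left _ _))
  have hρ2 : ball (0 : ℂ) ρ ⊆ ball 0 ρ₂ :=
    ball_subset_ball ((min_le_right _ _).trans (min_le_right _ _))
  have hNpre : IsPreconnected (e '' ball (0 : ℂ) ρ) :=
    (convex_ball (0 : ℂ) ρ).isPreconnected.image e (hecont.mono hρr)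
  have hNK : e '' ball (0 : ℂ) ρ ⊆ LF Ω f x := by
    rw [hLF]
    refine hNpre.subset_connectedComponentIn ⟨0, mem_ball_self hρ, he0⟩ ?_
    rintro _ ⟨ζ, hζ, rfl⟩
    exact ⟨heΩ ζ (hρr hζ), hef ζ (hρr hζ)⟩
  refine ⟨e '' ball (0 : ℂ) ρ, ?_, ?_, ?_, ?_⟩
  · rintro _ ⟨ζ, hζ, rfl⟩
    exact hOM ⟨hρ₂' ζ (hρ2 hζ), hNK ⟨ζ, hζ, rfl⟩⟩
  · have h1 : ∀ᶠ y in 𝓝 p, (φ y).2 ∈ ball (0 : ℂ) ρ := by
      have h2 : Tendsto (fun y : E2 => (φ y).2) (𝓝 p) (𝓝 0) := by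
        have := hφc.tendsto
        rwa [hφ0] at this
      exact h2.eventually (ball_mem_nhds 0 hρ)
    have h3 : ∀ᶠ y in 𝓝[LF Ω f x] p, y ∈ e '' ball (0 : ℂ) ρ := by
      filter_upwards [nhdsWithin_le_nhds h1,
        nhdsWithin_le_nhds (φ.open_source.mem_nhds hφ.mem), self_mem_nhdsWithin] with y hy hys hyK
      refine ⟨(φ y).2, hy, hback y hys ?_⟩
      rw [(lf_df hB hg hyK).2.1, hfp]
    exact h3
  · by_cases hVp : V p = 0
    · have h1 : e '' ball (0 : ℂ) ρ \ {y | V y = 0} = e '' (ball (0 : ℂ) ρ \ {0}) := by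
        ext y
        constructor
        · rintro ⟨⟨ζ, hζ, rfl⟩, hy⟩
          refine ⟨ζ, ⟨hζ, fun h0 => hy ?_⟩, rfl⟩
          rw [mem_singleton_iff] at h0
          subst h0
          change V (e 0) = 0
          rw [he0, hVp]
        · rintro ⟨ζ, ⟨hζ, h0⟩, rfl⟩
          exact ⟨⟨ζ, hζ, rfl⟩, hρ₁' ζ (hρ1 hζ) h0⟩
      rw [h1]
      exact (punctured hρ).image e (hecont.mono (sdiff_subset.trans hρr))
    · have h1 : e '' ball (0 : ℂ) ρ \ {y | V y = 0} = e '' ball (0 : ℂ) ρ := by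
        ext y
        constructor
        · rintro ⟨h, -⟩
          exact h
        · rintro ⟨ζ, hζ, rfl⟩
          refine ⟨⟨ζ, hζ, rfl⟩, ?_⟩
          by_cases h0 : ζ = 0
          · subst h0
            change ¬ V (e 0) = 0
            rwa [he0]
          · exact hρ₁' ζ (hρ1 hζ) h0
      rw [h1]
      exact hNpre
  · have h1 : ((ρ / 2 : ℝ) : ℂ) ∈ ball (0 : ℂ) ρ := by
      rw [mem_ball_zero_iff, Complex.norm_real, Real.norm_eq_abs, abs_of_pos (by positivity)]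
      linarith
    refine ⟨e ((ρ / 2 : ℝ) : ℂ), ⟨_, h1, rfl⟩, ?_⟩
    refine hρ₁' _ (hρ1 h1) ?_
    rw [mem_compl_singleton_iff]
    exact_mod_cast (by positivity : ρ / 2 ≠ 0)

theorem orb_loc (F : Fol Ω f V w) {q : E2} (hq : q ∈ Reg Ω f V) :
    ∃ τ : E2 → ℂ, ContinuousAt τ q ∧ τ q = 0 ∧ ∀ᶠ y in 𝓝 q, f y = f q → fl Ω V q (τ y) = y := by
  obtain ⟨r, ψ, hψ, -⟩ := box_ex F hq univ_mem
  have hc := hψ.chart
  refine ⟨fun y => (ψ y).2, ?_, by simp [hc.ctr], ?_⟩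
  · exact (continuous_snd.continuousAt).comp (ψ.continuousAt hc.mem)
  · filter_upwards [ψ.open_source.mem_nhds hc.mem] with y hy hfy
    have h1 : ψ y ∈ ball (f q) r ×ˢ ball (0 : ℂ) r := by
      rw [← hc.target]; exact ψ.map_source hy
    have h2 : (ψ q).2 + (ψ y).2 ∈ ball (0 : ℂ) r := by
      rw [hc.ctr, zero_add]; exact h1.2
    obtain ⟨h3, h4⟩ := hψ.flow q hc.mem (ψ y).2 h2
    refine ψ.injOn h3 hy ?_
    rw [h4, hc.ctr, zero_add]
    exact Prod.ext (by rw [hc.fst y hy, hfy]) rfl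

private theorem one_orb' (F : Fol Ω f V w) {Bad : Set ℂ} (hB : GoodSet Ω f V Bad) {x y z : E2}
    (hg : f x ∉ Bad) (hy : y ∈ LF Ω f x) (hVy : V y ≠ 0) (hz : z ∈ LF Ω f x) (hVz : V z ≠ 0) :
    ∃ t, fl Ω V y t = z := by
  have hyΩ : y ∈ Ω := (lf_df hB hg hy).1
  have h1 := const_offZ (isPreconnected_connectedComponentIn : IsPreconnected (LF Ω f x))
    (smallOff_lf F hB hg) (F := fun q => (∃ t, fl Ω V y t = q : Prop)) (fun q hq => ?_)
    (show y ∈ LF Ω f x \ {y | V y = 0} from ⟨hy, hVy⟩)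
    (show z ∈ LF Ω f x \ {y | V y = 0} from ⟨hz, hVz⟩)
  · have h2 : (∃ t, fl Ω V y t = z) = (∃ t, fl Ω V y t = y) := h1
    rw [h2]
    exact ⟨0, fl_zero F hyΩ⟩
  · obtain ⟨hqΩ, hfq, hdq⟩ := lf_df hB hg hq.1
    obtain ⟨τ, -, -, hτ⟩ := orb_loc F (show q ∈ Reg Ω f V from ⟨hqΩ, hdq, hq.2⟩)
    filter_upwards [nhdsWithin_le_nhds hτ, self_mem_nhdsWithin] with q' hq' hq'K
    obtain ⟨-, hfq', -⟩ := lf_df hB hg hq'K.1
    have h3 := hq' (by rw [hfq', hfq])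
    apply propext
    constructor
    · rintro ⟨t, ht⟩
      refine ⟨t + (- τ q'), ?_⟩
      rw [fl_add F hyΩ, ht, ← h3, ← fl_add F hqΩ, h3, add_neg_cancel, fl_zero F hqΩ]
    · rintro ⟨t, ht⟩
      refine ⟨t + τ q', ?_⟩
      rw [fl_add F hyΩ, ht, h3]

theorem pdisc (F : Fol Ω f V w) {Bad : Set ℂ} (hB : GoodSet Ω f V Bad) {x : E2} (hx : x ∈ Ω)
    (hg : f x ∉ Bad) {U : Set E2} (hU : U ∈ 𝓝 x) :
    ∃ (r : ℝ) (φ : OpenPartialHomeomorph E2 E2), FChart Ω f x r φ ∧ φ.source ⊆ U ∧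
      (∀ y ∈ φ.source, fderiv ℂ f y ≠ 0) ∧
      (∀ y ∈ φ.source, f y = f x → y ≠ x → V y ≠ 0) ∧
      ∀ y ∈ φ.source, ∀ z ∈ φ.source, f y = f x → f z = f x → y ≠ x → z ≠ x →
        ∃ t, fl Ω V y t = z := by
  have hdx : fderiv ℂ f x ≠ 0 := fun h => hg (hB.crit ⟨x, hx, h, rfl⟩)
  obtain ⟨r₁, φ₁, h₁, -⟩ := chart_ex F.isOpen F.holf hx hdx univ_mem
  have hφ0 : (φ₁ x).2 = 0 := by rw [h₁.ctr]
  have hne : ∀ᶠ ζ in 𝓝[≠] (0 : ℂ), V (φ₁.symm (f x, ζ)) ≠ 0 := by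
    have h1 := zero_iso F (x := x) (fun h => hg (hB.zero h)) h₁ h₁.mem
      (fun y hy => chart_df F.isOpen F.holf h₁ hy)
    rwa [hφ0] at h1
  rw [eventually_nhdsWithin_iff] at hne
  have hφc : Tendsto (fun y : E2 => (φ₁ y).2) (𝓝 x) (𝓝 0) := by
    have h1 : ContinuousAt (fun y : E2 => (φ₁ y).2) x :=
      (continuous_snd.continuousAt).comp (φ₁.continuousAt h₁.mem)
    have h2 := h1.tendsto
    rwa [hφ0] at h2
  have hV : ∀ᶠ y in 𝓝 x, f y = f x → y ≠ x → V y ≠ 0 := by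
    filter_upwards [hφc.eventually hne, φ₁.open_source.mem_nhds h₁.mem] with y hy hys hfy hyx
    have h1 : φ₁.symm (f x, (φ₁ y).2) = y := by
      have : (f x, (φ₁ y).2) = φ₁ y := Prod.ext (by rw [h₁.fst y hys, hfy]) rfl
      rw [this]
      exact φ₁.left_inv hys
    rw [h1] at hy
    refine hy ?_
    rw [mem_compl_singleton_iff]
    intro h0
    apply hyx
    rw [← h1, h0]
    rw [← h₁.ctr]
    exact φ₁.left_inv h₁.mem
  obtain ⟨r, φ, C, hCU⟩ := chart_ex F.isOpen F.holf hx hdx (inter_mem hU hV)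
  have hV' : ∀ y ∈ φ.source, f y = f x → y ≠ x → V y ≠ 0 := fun y hy => (hCU hy).2
  refine ⟨r, φ, C, fun y hy => (hCU hy).1, fun y hy => chart_df F.isOpen F.holf C hy, hV', ?_⟩
  intro y hy z hz hfy hfz hyx hzx
  exact one_orb' F hB hg (plaque C C.mem hy hfy.symm) (hV' y hy hfy hyx)
    (plaque C C.mem hz hfz.symm) (hV' z hz hfz hzx)

theorem one_orb (F : Fol Ω f V w) {Bad : Set ℂ} (hB : GoodSet Ω f V Bad) {x y : E2} (hx : x ∈ Ω)
    (hg : f x ∉ Bad) (hVx : V x ≠ 0) (hy : y ∈ LF Ω f x) (hVy : V y ≠ 0) :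
    ∃ t, fl Ω V x t = y :=
  one_orb' F hB hg (mem_connectedComponentIn ⟨hx, rfl⟩) hVx hy hVy

end Pool.Agent.MP_fe3720.NF
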