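import Pool.Agent.Work.MP_fe3720_an.NF.PairS
import Pool.Agent.Work.MP_fe3720_an.NF.Iso

/-! # Module Pair: dichotomy for two sections over convex sets

PROOF. Let `E = D ∩ D'` (convex, open), `U = CO`. `iso` for the section over `D`:
(1) `VS = ∅`: all groups `per (s c)`, `c ∈ D`, are `{0}`: `dich` on `E` with `pair_c`.
(2) `D \ VS` countable. Put `E' = E \ (D \ VS) = E ∩ VS`, open (`vs_open`), preconnected (`planar`),
`U' = U ∩ E'`. At `c₀ ∈ E' \ U'`: `c₀ ∉ U`, nonzero generator (`per_cyc`), `pair_s` gives `B` with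
`U ∩ B = ∅` or `(B \ U).Countable`; then `U' ∩ B = ∅`, or `(B ∩ E' \ U')` is countable. `dich` on
`E'`: `U' = ∅` or `E' \ U'` countable. If `U' = ∅` then `U ⊆ E \ E'` is open and countable, so empty
(a nonempty open set of `ℂ` is not countable). Otherwise `E \ U ⊆ (D \ VS) ∪ (E' \ U')`. -/

namespace Pool.Agent.MP_fe3720.NF

open Set Topology Filter Metric Pool.Agent.MP_fe3720.NR

variable {Ω : Set E2} {f : E2 → ℂ} {V : E2 → E2} {w : E2 → E2 → ℂ}

private theorem pair_nc {B : Set ℂ} (hB : IsOpen B) (h : B.Countable) : B = ∅ := by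
  by_contra hne
  obtain ⟨c, hc⟩ := Set.nonempty_iff_ne_empty.2 hne
  have h1 := Set.Countable.dense_compl ℝ h
  obtain ⟨x, hx1, hx2⟩ := h1.inter_nhds_nonempty (hB.mem_nhds hc)
  exact hx1 hx2

theorem pair (F : Fol Ω f V w) {D D' : Set ℂ} {s s' : ℂ → E2} (S : Sec Ω f V D s)
    (S' : Sec Ω f V D' s') (hD : Convex ℝ D) (hD' : Convex ℝ D') :
    CO Ω V D D' s s' = ∅ ∨ ((D ∩ D') \ CO Ω V D D' s s').Countable := by
  set U := CO Ω V D D' s s' with hU
  have hUo : IsOpen U := co_open F S S'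
  have hUE : U ⊆ D ∩ D' := fun c hc => hc.1
  have hEo : IsOpen (D ∩ D') := S.isOpen.inter S'.isOpen
  rcases iso F S hD.isPreconnected with h0 | h0
  · refine dich hEo (hD.inter hD').isPreconnected hUo hUE fun c hc => ?_
    refine pair_c F S S' hc.1 ?_ hc.2
    filter_upwards [S.isOpen.mem_nhds hc.1.1] with z hz
    apply Set.Subset.antisymm
    · intro t ht
      by_contra ht0
      have h1 : z ∈ VS Ω V D s := ⟨hz, t, ht, ht0⟩
      rw [h0] at h1
      exact h1
    · rintro t rfl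
      exact per_zero F (S.reg z hz).1
  · have hE' : (D ∩ D') \ (D \ VS Ω V D s) = (D ∩ D') ∩ VS Ω V D s := by
      ext c
      constructor
      · rintro ⟨h1, h2⟩
        refine ⟨h1, ?_⟩
        by_contra h3
        exact h2 ⟨h1.1, h3⟩
      · rintro ⟨h1, h2⟩
        exact ⟨h1, fun h3 => h3.2 h2⟩
    have hE'o : IsOpen ((D ∩ D') ∩ VS Ω V D s) := hEo.inter (vs_open F S)
    have hE'c : IsPreconnected ((D ∩ D') ∩ VS Ω V D s) := by
      rw [← hE']
      exact planar hEo (hD.inter hD') h0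
    have hd : U ∩ ((D ∩ D') ∩ VS Ω V D s) = ∅ ∨
        (((D ∩ D') ∩ VS Ω V D s) \ (U ∩ ((D ∩ D') ∩ VS Ω V D s))).Countable := by
      refine dich hE'o hE'c (hUo.inter hE'o) inter_subset_right fun c hc => ?_
      have hcU : c ∉ U := fun h => hc.2 ⟨h, hc.1⟩
      obtain ⟨hcD, t, ht, ht0⟩ := hc.1.2
      obtain ⟨l, hl⟩ := per_cyc F (S.reg c hcD).1 (S.reg c hcD).2.2
      have hl0 : l ≠ 0 := by
        rintro rfl
        rw [hl] at ht
        obtain ⟨n, hn⟩ := ht
        exact ht0 (by rw [hn, mul_zero])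
      obtain ⟨B, hB, hB'⟩ := pair_s F S S' hc.1.1 hl0 hl hcU
      refine ⟨B ∩ ((D ∩ D') ∩ VS Ω V D s), inter_mem hB (hE'o.mem_nhds hc.1), ?_⟩
      rcases hB' with h | h
      · left
        rw [Set.eq_empty_iff_forall_notMem] at h ⊢
        exact fun x hx => h x ⟨hx.1.1, hx.2.1⟩
      · right
        refine h.mono ?_
        intro x hx
        exact ⟨hx.1.1, fun hxU => hx.2 ⟨hxU, hx.1.2⟩⟩
    rcases hd with h | h
    · left
      rw [Set.eq_empty_iff_forall_notMem] at h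
      have h2 : U ⊆ D \ VS Ω V D s :=
        fun c hc => ⟨(hUE hc).1, fun hcV => h c ⟨hc, hUE hc, hcV⟩⟩
      exact pair_nc hUo (h0.mono h2)
    · right
      have h2 : (D ∩ D') \ U ⊆ (D \ VS Ω V D s) ∪
          ((D ∩ D') ∩ VS Ω V D s) \ (U ∩ ((D ∩ D') ∩ VS Ω V D s)) := by
        intro c hc
        by_cases hcV : c ∈ VS Ω V D s
        · exact Or.inr ⟨⟨hc.1, hcV⟩, fun h3 => hc.2 h3.1⟩
        · exact Or.inl ⟨hc.1.1, hcV⟩
      exact (h0.union h).mono h2

end Pool.Agent.MP_fe3720.NF
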