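import Pool.Agent.Work.MP_fe3720_an.NF.Gen
import Pool.Agent.Work.MP_fe3720_an.NF.Planar
import Pool.Agent.Work.MP_fe3720_an.Rado

/-! # Module PairC: local dichotomy for two sections, no periods

`CO D D' s s'` = values over which `s' c` is on the orbit of `s c`. It is open (`conti`).
`pair_c`: near `c₀ ∈ D ∩ D'` all groups of periods are `{0}`, `s' c₀` is not on the orbit of `s c₀`.
PROOF. Let `τ c` be the unique time with `fl (s c) (τ c) = s' c` for `c ∈ CO` near `c₀`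
(`conn_iff`). `|τ c| → ∞` as `c → c₀` in `CO` (otherwise a convergent subnet (ultrafilter) and
`lim_orbit` give a time at `c₀`). So there is a ball `B` around `c₀` in `D ∩ D'` with `|τ| ≥ 1` on
`CO ∩ B`; `u = 1 / τ` on `CO ∩ B`, `0` on `B \ CO` is holomorphic on `CO ∩ B` (`conti`, and
uniqueness of `τ`), nonzero there, continuous at the points `c₁` of `B \ CO` (same argument as at
`c₀`: `|τ c| → ∞` as `c → c₁`, using `per = {0}` near `c₁`). By `rado_countable` either `u = 0` on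
`B` (`CO ∩ B = ∅`) or the zero set `B \ CO` is countable. -/

namespace Pool.Agent.MP_fe3720.NF

open Set Topology Filter Metric Pool.Agent.MP_fe3720.NR

variable {Ω : Set E2} {f : E2 → ℂ} {V : E2 → E2} {w : E2 → E2 → ℂ}

/-- values over which the two sections are on the same orbit -/
def CO (Ω : Set E2) (V : E2 → E2) (D D' : Set ℂ) (s s' : ℂ → E2) : Set ℂ :=
  {c | c ∈ D ∩ D' ∧ ∃ t, fl Ω V (s c) t = s' c}

theorem co_open (F : Fol Ω f V w) {D D' : Set ℂ} {s s' : ℂ → E2} (S : Sec Ω f V D s)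
    (S' : Sec Ω f V D' s') : IsOpen (CO Ω V D D' s s') := by
  rw [isOpen_iff_mem_nhds]
  rintro c₀ ⟨⟨hc, hc'⟩, t, ht⟩
  obtain ⟨τ, -, -, h1, -⟩ := conti F S S' hc hc' ht
  filter_upwards [h1, (S.isOpen.inter S'.isOpen).mem_nhds ⟨hc, hc'⟩] with c h2 h3
  exact ⟨h3, τ c, h2⟩

open Classical in
/-- a time of connection -/
private noncomputable def tau (Ω : Set E2) (V : E2 → E2) (s s' : ℂ → E2) (c : ℂ) : ℂ :=
  if h : ∃ t, fl Ω V (s c) t = s' c then h.choose else 0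

private theorem tau_spec {D D' : Set ℂ} {s s' : ℂ → E2} {c : ℂ} (h : c ∈ CO Ω V D D' s s') :
    fl Ω V (s c) (tau Ω V s s' c) = s' c := by
  have h1 : ∃ t, fl Ω V (s c) t = s' c := h.2
  unfold tau
  rw [dif_pos h1]
  exact h1.choose_spec

private theorem tau_inf (F : Fol Ω f V w) {D D' : Set ℂ} {s s' : ℂ → E2} (S : Sec Ω f V D s)
    (S' : Sec Ω f V D' s') {c₀ : ℂ} (hc : c₀ ∈ D ∩ D') (hn : c₀ ∉ CO Ω V D D' s s') (M : ℝ) :
    ∀ᶠ c in 𝓝 c₀, c ∈ CO Ω V D D' s s' → M < ‖tau Ω V s s' c‖ := by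
  by_contra hcon
  have hfr : ∃ᶠ c in 𝓝 c₀, c ∈ CO Ω V D D' s s' ∧ ‖tau Ω V s s' c‖ ≤ M := by
    intro h
    apply hcon
    filter_upwards [h] with c h1 h2
    by_contra h3
    exact h1 ⟨h2, not_lt.1 h3⟩
  set A : Set ℂ := {c | c ∈ CO Ω V D D' s s' ∧ ‖tau Ω V s s' c‖ ≤ M} with hA
  have hne : (𝓝 c₀ ⊓ 𝓟 A).NeBot := Filter.frequently_mem_iff_neBot.1 hfr
  set 𝒰 : Ultrafilter ℂ := Ultrafilter.of (𝓝 c₀ ⊓ 𝓟 A) with h𝒰
  have hle : (𝒰 : Filter ℂ) ≤ 𝓝 c₀ ⊓ 𝓟 A := Ultrafilter.of_le _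
  have hA' : A ∈ 𝒰 := hle (Filter.mem_inf_of_right (Filter.mem_principal_self A))
  have hcomp := isCompact_iff_ultrafilter_le_nhds.1 (isCompact_closedBall (0 : ℂ) M)
    (𝒰.map (tau Ω V s s')) (by
      rw [Filter.le_principal_iff, Ultrafilter.mem_coe, Ultrafilter.mem_map]
      refine Filter.mem_of_superset hA' fun c hc => ?_
      rw [mem_preimage, mem_closedBall_zero_iff]
      exact hc.2)
  obtain ⟨t₀, -, ht₀⟩ := hcomp
  refine hn ⟨hc, t₀, ?_⟩
  refine lim_orbit F S S' hc.1 hc.2 (l := (𝒰 : Filter ℂ)) (c := fun c => c)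
    (t := tau Ω V s s') (hle.trans inf_le_left) ht₀ ?_
  refine Filter.Eventually.frequently ?_
  exact Filter.mem_of_superset hA' fun c hc => tau_spec hc.1

theorem pair_c (F : Fol Ω f V w) {D D' : Set ℂ} {s s' : ℂ → E2} (S : Sec Ω f V D s)
    (S' : Sec Ω f V D' s') {c₀ : ℂ} (hc : c₀ ∈ D ∩ D')
    (h0 : ∀ᶠ c in 𝓝 c₀, per Ω V (s c) = {0}) (hn : c₀ ∉ CO Ω V D D' s s') :
    ∃ B ∈ 𝓝 c₀, CO Ω V D D' s s' ∩ B = ∅ ∨ (B \ CO Ω V D D' s s').Countable := by
  classical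
  set U := CO Ω V D D' s s' with hU
  have hUo : IsOpen U := co_open F S S'
  obtain ⟨r, hr, hball⟩ := Metric.eventually_nhds_iff_ball.1
    ((h0.and (tau_inf F S S' hc hn 1)).and ((S.isOpen.inter S'.isOpen).mem_nhds hc))
  refine ⟨ball c₀ r, ball_mem_nhds c₀ hr, ?_⟩
  set u : ℂ → ℂ := fun c => if c ∈ U then (tau Ω V s s' c)⁻¹ else 0 with hu
  have hu0 : ∀ c ∈ ball c₀ r, c ∈ U → u c ≠ 0 := by
    intro c hcb hcU
    have h1 := (hball c hcb).1.2 hcU
    simp only [hu]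
    rw [if_pos hcU]
    exact inv_ne_zero (norm_pos_iff.1 (by linarith))
  have hdiff : ∀ c₁ ∈ ball c₀ r, c₁ ∈ U → DifferentiableAt ℂ u c₁ := by
    intro c₁ hcb hcU
    obtain ⟨τ, hτ, hτa, h1, -⟩ := conti F S S' hcU.1.1 hcU.1.2 (tau_spec hcU)
    have h2 : 1 < ‖tau Ω V s s' c₁‖ := (hball c₁ hcb).1.2 hcU
    have h3 : τ c₁ ≠ 0 := by
      rw [hτ]
      exact norm_pos_iff.1 (by linarith)
    have h4 : DifferentiableAt ℂ (fun c => (τ c)⁻¹) c₁ := hτa.differentiableAt.inv h3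
    refine h4.congr_of_eventuallyEq ?_
    filter_upwards [h1, hUo.mem_nhds hcU, isOpen_ball.mem_nhds hcb] with c h5 h6 h7
    simp only [hu]
    rw [if_pos h6]
    have h8 : s c ∈ Ω := (S.reg c h6.1.1).1
    have h9 := (conn_iff F h8 (t₀ := τ c) h5).1 (tau_spec h6)
    rw [(hball c h7).1.1, mem_singleton_iff, sub_eq_zero] at h9
    rw [h9]
  have hcont : ContinuousOn u (ball c₀ r) := by
    intro c₁ hcb
    by_cases hcU : c₁ ∈ U
    · exact (hdiff c₁ hcb hcU).continuousAt.continuousWithinAt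
    · refine ContinuousAt.continuousWithinAt ?_
      have h1 : u c₁ = 0 := by
        simp only [hu]
        rw [if_neg hcU]
      rw [Metric.continuousAt_iff]
      intro ε hε
      have h2 := tau_inf F S S' (hball c₁ hcb).2 hcU ε⁻¹
      obtain ⟨δ, hδ, h3⟩ := Metric.eventually_nhds_iff.1 h2
      refine ⟨δ, hδ, fun {c} hcd => ?_⟩
      rw [h1, dist_zero_right]
      by_cases h4 : c ∈ U
      · simp only [hu]
        rw [if_pos h4, norm_inv]
        exact inv_lt_of_inv_lt₀ hε (h3 hcd h4)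
      · simp only [hu]
        rw [if_neg h4, norm_zero]
        exact hε
  by_cases hemp : U ∩ ball c₀ r = ∅
  · exact Or.inl hemp
  · right
    obtain ⟨z₀, hz₀, hz₀'⟩ := nonempty_iff_ne_empty.2 hemp
    have h1 := (Pool.Agent.Work.MP_fe3720_an.rado_countable isOpen_ball
      (convex_ball c₀ r).isPreconnected hcont (fun c hc => by
        have h2 : c ∈ U := by
          by_contra h3
          apply hc.2
          change u c = 0
          simp only [hu]
          rw [if_neg h3]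
        exact (hdiff c hc.1 h2).differentiableWithinAt) hz₀' (hu0 z₀ hz₀' hz₀)).1
    refine h1.mono ?_
    rintro c ⟨hcb, hcU⟩
    refine ⟨hcb, ?_⟩
    change u c = 0
    simp only [hu]
    rw [if_neg hcU]

end Pool.Agent.MP_fe3720.NF
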