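import Pool.Agent.Work.MP_fe3720_an.NF.PairC

/-! # Module PairS: local dichotomy for two sections, periods `ℤ l₀`, `l₀ ≠ 0`

PROOF. `gen` at `c₀`: an analytic `l` and a ball `B` around `c₀` in `D ∩ D'` with `l c ≠ 0`,
`per (s c) = ℤ l c` on `B`; take `B` small so that `l` is bounded by `M` on `B`. For `c ∈ CO ∩ B` let
`τ c` be a time with `fl (s c) (τ c) = s' c`, unique modulo `ℤ l c` (`conn_iff`); so
`q c = cos (2π τ c / l c)` is well defined. At every `c₁ ∈ B \ CO` we have `|q c| → ∞` as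
`c → c₁` in `CO`: choose `τ c` with `|Re (τ c / l c)| ≤ 1`; if `|q c|` stays bounded for a
frequently set then `|Im (τ c / l c)|` is bounded (`|cos (x + iy)| ≥ sinh |y|`), so `τ c` is bounded
and a convergent subnet and `lim_orbit` give a time at `c₁`, contradiction. After shrinking `B`,
`|q| ≥ 1` on `CO ∩ B`. `u = 1 / q` on `CO ∩ B`, `0` on `B \ CO`: continuous, nonzero and holomorphic
on `CO ∩ B` (near `c₂ ∈ CO ∩ B`: `q c = cos (2π τ̃ c / l c)` with `τ̃` of `conti`).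
`rado_countable`. -/

namespace Pool.Agent.MP_fe3720.NF

open Set Topology Filter Metric Pool.Agent.MP_fe3720.NR

variable {Ω : Set E2} {f : E2 → ℂ} {V : E2 → E2} {w : E2 → E2 → ℂ}

private theorem ps_im_le_cos (z : ℂ) : |z.im| ≤ ‖Complex.cos z‖ := by
  have h1 : (2 : ℂ) * Complex.cos z = Complex.exp (z * Complex.I) + Complex.exp (-z * Complex.I) :=
    Complex.two_cos z
  have h2 : ‖Complex.exp (z * Complex.I)‖ = Real.exp (-z.im) := by
    rw [Complex.norm_exp]; congr 1; simp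
  have h3 : ‖Complex.exp (-z * Complex.I)‖ = Real.exp (z.im) := by
    rw [Complex.norm_exp]; congr 1; simp
  have h4 : |Real.exp (z.im) - Real.exp (-z.im)| ≤ 2 * ‖Complex.cos z‖ := by
    have h5 : ‖(2 : ℂ) * Complex.cos z‖ = 2 * ‖Complex.cos z‖ := by
      rw [norm_mul]; norm_num
    rw [← h5, h1, ← h2, ← h3, abs_sub_comm]
    have := abs_norm_sub_norm_le (Complex.exp (z * Complex.I)) (-Complex.exp (-z * Complex.I))
    simpa using this
  have h6 : Real.exp (z.im) - Real.exp (-z.im) = 2 * Real.sinh z.im := by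
    rw [Real.sinh_eq]; ring
  have h7 : |z.im| ≤ |Real.sinh z.im| := by
    rw [Real.abs_sinh]
    exact Real.self_le_sinh_iff.mpr (abs_nonneg _)
  rw [h6, abs_mul] at h4
  norm_num at h4
  linarith

/-- the invariant of a connection -/
private theorem ps_q_eq {l τ t : ℂ} (hl : l ≠ 0) {n : ℤ} (h : t - τ = n * l) :
    Complex.cos (2 * Real.pi * t / l) = Complex.cos (2 * Real.pi * τ / l) := by
  have h1 : 2 * Real.pi * t / l = 2 * Real.pi * τ / l + n * (2 * Real.pi) := by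
    have h2 : t = τ + n * l := by rw [← h]; ring
    rw [h2]; field_simp
  rw [h1, Complex.cos_add_int_mul_two_pi]

private theorem ps_blow (F : Fol Ω f V w) {D D' : Set ℂ} {s s' : ℂ → E2} (S : Sec Ω f V D s)
    (S' : Sec Ω f V D' s') {l : ℂ → ℂ} {M : ℝ} {c₁ : ℂ} (hc₁ : c₁ ∈ D ∩ D')
    (hn : c₁ ∉ CO Ω V D D' s s')
    (hg : ∀ᶠ c in 𝓝 c₁, c ∈ D ∩ D' ∧ l c ≠ 0 ∧ per Ω V (s c) = {t | ∃ n : ℤ, t = n * l c} ∧
      ‖l c‖ ≤ M) (K : ℝ) :
    ∀ᶠ c in 𝓝 c₁, ∀ t, fl Ω V (s c) t = s' c → K < ‖Complex.cos (2 * Real.pi * t / l c)‖ := by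
  by_contra hcon
  rw [not_eventually] at hcon
  have hfr := hcon.and_eventually hg
  -- bounded times
  have hM : 0 ≤ M := by
    obtain ⟨c, -, -, -, -, h⟩ := hfr.exists
    exact (norm_nonneg _).trans h
  have key : ∃ᶠ c in 𝓝 c₁, ∃ t : ℂ, fl Ω V (s c) t = s' c ∧ ‖t‖ ≤ (1 + |K|) * M := by
    refine hfr.mono ?_
    rintro c ⟨h1, hcD, hlc, hper, hlM⟩
    push Not at h1
    obtain ⟨t, ht, hK⟩ := h1
    have hsO : s c ∈ Ω := (S.reg c hcD.1).1
    set n : ℤ := ⌊(t / l c).re⌋ with hn'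
    refine ⟨t - n * l c, ?_, ?_⟩
    · rw [conn_iff F hsO ht, hper]
      exact ⟨-n, by push_cast; ring⟩
    · have e1 : (t - n * l c) / l c = t / l c - n := by
        field_simp
      have hre : |((t - n * l c) / l c).re| ≤ 1 := by
        rw [e1]
        have h3 : (t / l c - (n : ℂ)).re = Int.fract (t / l c).re := by
          rw [Complex.sub_re, Complex.intCast_re, Int.fract]
        rw [h3, abs_of_nonneg (Int.fract_nonneg _)]
        exact (Int.fract_lt_one _).le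
      have him : |((t - n * l c) / l c).im| ≤ |K| := by
        have h4 : ((t - n * l c) / l c).im = (t / l c).im := by
          rw [e1, Complex.sub_im, Complex.intCast_im, sub_zero]
        have h5 : (2 * Real.pi * t / l c : ℂ).im = 2 * Real.pi * (t / l c).im := by
          have : (2 * Real.pi * t / l c : ℂ) = ((2 * Real.pi : ℝ) : ℂ) * (t / l c) := by
            push_cast; ring
          rw [this, Complex.im_ofReal_mul]
        have h6 := ps_im_le_cos (2 * Real.pi * t / l c)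
        rw [h5, abs_mul, abs_of_pos Real.two_pi_pos] at h6
        rw [h4]
        have h7 : (1 : ℝ) ≤ 2 * Real.pi := by linarith [Real.pi_gt_three]
        have h8 : |(t / l c).im| ≤ 2 * Real.pi * |(t / l c).im| :=
          le_mul_of_one_le_left (abs_nonneg _) h7
        exact (h8.trans h6).trans (hK.trans (le_abs_self K))
      have h9 : ‖(t - n * l c) / l c‖ ≤ 1 + |K| :=
        (Complex.norm_le_abs_re_add_abs_im _).trans (add_le_add hre him)
      have h10 : ‖t - n * l c‖ = ‖(t - n * l c) / l c‖ * ‖l c‖ := by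
        rw [← norm_mul, div_mul_cancel₀ _ hlc]
      rw [h10]
      exact mul_le_mul h9 hlM (norm_nonneg _) (by positivity)
  choose! t ht using (fun (c : ℂ) (h : ∃ t : ℂ, fl Ω V (s c) t = s' c ∧ ‖t‖ ≤ (1 + |K|) * M) => h)
  rw [frequently_iff_neBot] at key
  obtain ⟨G, hG⟩ := @Ultrafilter.exists_le _ _ key
  have hG1 : (G : Filter ℂ) ≤ 𝓝 c₁ := hG.trans inf_le_left
  have hG2 : ∀ᶠ c in (G : Filter ℂ), fl Ω V (s c) (t c) = s' c ∧ ‖t c‖ ≤ (1 + |K|) * M :=
    (le_principal_iff.mp (hG.trans inf_le_right) : _ ∈ (G : Filter ℂ)) |> fun h =>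
      mem_of_superset h (fun c hc => ht c hc)
  have hcomp : IsCompact (closedBall (0 : ℂ) ((1 + |K|) * M)) := isCompact_closedBall _ _
  obtain ⟨t₀, -, ht₀⟩ := hcomp.ultrafilter_le_nhds (G.map t) (by
    rw [le_principal_iff]
    exact hG2.mono fun c hc => by simpa using hc.2)
  apply hn
  refine ⟨hc₁, t₀, ?_⟩
  exact lim_orbit F S S' hc₁.1 hc₁.2 (l := (G : Filter ℂ)) (c := fun c => c) (t := t) hG1 ht₀
    (hG2.mono fun c hc => hc.1).frequently

theorem pair_s (F : Fol Ω f V w) {D D' : Set ℂ} {s s' : ℂ → E2} (S : Sec Ω f V D s)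
    (S' : Sec Ω f V D' s') {c₀ l₀ : ℂ} (hc : c₀ ∈ D ∩ D') (hl : l₀ ≠ 0)
    (hp : per Ω V (s c₀) = {t | ∃ n : ℤ, t = n * l₀}) (hn : c₀ ∉ CO Ω V D D' s s') :
    ∃ B ∈ 𝓝 c₀, CO Ω V D D' s s' ∩ B = ∅ ∨ (B \ CO Ω V D D' s s').Countable := by
  classical
  obtain ⟨l, hl0, hla, hlper⟩ := gen F S hc.1 hl hp
  have hM : ∀ᶠ c in 𝓝 c₀, ‖l c‖ ≤ ‖l₀‖ + 1 := by
    have h1 : Tendsto (fun c => ‖l c‖) (𝓝 c₀) (𝓝 ‖l₀‖) := by
      have := hla.continuousAt.norm
      rw [ContinuousAt, hl0] at this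
      exact this
    exact (h1.eventually (gt_mem_nhds (lt_add_one _))).mono fun c hc => hc.le
  have hDD : ∀ᶠ c in 𝓝 c₀, c ∈ D ∩ D' := (S.isOpen.inter S'.isOpen).mem_nhds hc
  have hg0 : ∀ᶠ c in 𝓝 c₀, c ∈ D ∩ D' ∧ l c ≠ 0 ∧
      per Ω V (s c) = {t | ∃ n : ℤ, t = n * l c} ∧ ‖l c‖ ≤ ‖l₀‖ + 1 := by
    filter_upwards [hDD, hlper, hM] with c h1 h2 h3 using ⟨h1, h2.1, h2.2, h3⟩
  have hb0 := ps_blow F S S' hc hn hg0 1
  obtain ⟨r, hr, hball⟩ := Metric.eventually_nhds_iff_ball.mp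
    ((hg0.and hb0).and hla.eventually_analyticAt)
  set B₀ := ball c₀ r with hB₀
  set U := CO Ω V D D' s s' with hU
  have hB₀n : B₀ ∈ 𝓝 c₀ := ball_mem_nhds _ hr
  have hτ : ∀ c, c ∈ U → ∃ t, fl Ω V (s c) t = s' c := fun c hc => hc.2
  choose! τ hτ using hτ
  set q : ℂ → ℂ := fun c => Complex.cos (2 * Real.pi * τ c / l c) with hq
  have hqeq : ∀ c ∈ B₀, ∀ t, fl Ω V (s c) t = s' c →
      q c = Complex.cos (2 * Real.pi * t / l c) := by
    intro c hcB t ht
    obtain ⟨⟨⟨hcD, hlc, hper, -⟩, -⟩, -⟩ := hball c hcB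
    have hcU : c ∈ U := ⟨hcD, t, ht⟩
    have h1 := (conn_iff F (S.reg c hcD.1).1 ht).mp (hτ c hcU)
    rw [hper] at h1
    obtain ⟨n, hn⟩ := h1
    exact ps_q_eq hlc hn
  set u : ℂ → ℂ := fun c => if c ∈ U then (q c)⁻¹ else 0 with hu
  have hqne : ∀ c ∈ B₀, c ∈ U → 1 < ‖q c‖ := by
    intro c hcB hcU
    exact (hball c hcB).1.2 (τ c) (hτ c hcU)
  have hune : ∀ c ∈ B₀, (u c = 0 ↔ c ∉ U) := by
    intro c hcB
    by_cases hcU : c ∈ U
    · have h1 := hqne c hcB hcU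
      have h2 : q c ≠ 0 := by
        intro h; rw [h, norm_zero] at h1; linarith
      simp [hu, hcU, h2]
    · simp [hu, hcU]
  have han : ∀ c ∈ B₀, c ∈ U → AnalyticAt ℂ u c := by
    intro c hcB hcU
    obtain ⟨⟨⟨hcD, hlc, hper, -⟩, -⟩, hlan⟩ := hball c hcB
    obtain ⟨σ, hσ, hσa, hσe, -⟩ := conti F S S' hcD.1 hcD.2 (hτ c hcU)
    have h1 : u =ᶠ[𝓝 c] fun z => (Complex.cos (2 * Real.pi * σ z / l z))⁻¹ := by
      filter_upwards [hσe, isOpen_ball.mem_nhds hcB] with z hz hzB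
      have hzU : z ∈ U := ⟨(hball z hzB).1.1.1, σ z, hz⟩
      simp only [hu, hzU, if_true]
      rw [hqeq z hzB (σ z) hz]
    refine AnalyticAt.congr ?_ h1.symm
    refine AnalyticAt.inv ?_ ?_
    · exact Complex.analyticAt_cos.fun_comp ((analyticAt_const.mul hσa).div hlan hlc)
    · have h2 := hqne c hcB hcU
      rw [hqeq c hcB (σ c) (by rw [hσ]; exact hτ c hcU)] at h2
      intro h; rw [h, norm_zero] at h2; linarith
  have hcont : ContinuousOn u B₀ := by
    intro c hcB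
    by_cases hcU : c ∈ U
    · exact (han c hcB hcU).continuousAt.continuousWithinAt
    · refine ContinuousAt.continuousWithinAt ?_
      have hu0 : u c = 0 := (hune c hcB).mpr hcU
      rw [ContinuousAt, hu0, Metric.tendsto_nhds]
      intro ε hε
      have hgc : ∀ᶠ z in 𝓝 c, z ∈ D ∩ D' ∧ l z ≠ 0 ∧
          per Ω V (s z) = {t | ∃ n : ℤ, t = n * l z} ∧ ‖l z‖ ≤ ‖l₀‖ + 1 := by
        filter_upwards [isOpen_ball.mem_nhds hcB] with z hz using (hball z hz).1.1
      filter_upwards [ps_blow F S S' (hball c hcB).1.1.1 hcU hgc ε⁻¹] with z hz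
      rw [dist_zero_right]
      by_cases hzU : z ∈ U
      · simp only [hu, hzU, if_true]
        rw [norm_inv]
        have h3 := hz (τ z) (hτ z hzU)
        exact inv_lt_of_inv_lt₀ hε h3
      · simp only [hu, hzU, if_false, norm_zero]; exact hε
  have hdiff : DifferentiableOn ℂ u (B₀ \ {z | u z = 0}) := by
    rintro c ⟨hcB, hcn⟩
    have hcU : c ∈ U := by
      by_contra h
      exact hcn ((hune c hcB).mpr h)
    exact (han c hcB hcU).differentiableAt.differentiableWithinAt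
  refine ⟨B₀, hB₀n, ?_⟩
  by_cases hemp : U ∩ B₀ = ∅
  · exact Or.inl hemp
  · right
    obtain ⟨z₀, hz₀U, hz₀B⟩ := nonempty_iff_ne_empty.mpr hemp
    have h5 := (Pool.Agent.Work.MP_fe3720_an.rado_countable isOpen_ball
      (convex_ball c₀ r).isPreconnected hcont hdiff hz₀B
      (fun h => (hune z₀ hz₀B).mp h hz₀U)).1
    refine h5.mono ?_
    rintro c ⟨hcB, hcU⟩
    exact ⟨hcB, (hune c hcB).mpr hcU⟩

end Pool.Agent.MP_fe3720.NF
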