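import Pool.Agent.Work.MP_fe3720_an.NF.BoxEx

/-! # Module Tube: the flow of a section is holomorphic in all variables

Proved (helper71).

PROOF of `tube`. Put `Φ (c,t) = fl (s c) t`, fix `c₀ ∈ D`, `t₀`, and
`R = {r ∈ [0,1] | ∀ᶠ p in 𝓝 (c₀, r t₀), DifferentiableAt ℂ Φ p}`.
* `0 ∈ R`: box `ψ` at `s c₀`; for `(c,t)` near `(c₀,0)`: `s c ∈ ψ.source` and
  `Φ (c,t) = ψ.symm (c, (ψ (s c)).2 + t)` (field `flow`).
* `R` is open in `[0,1]` (`eventually_eventually_nhds`).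
* `R` is closed: let `r₁` be in the closure, `z = fl (s c₀) (r₁ t₀) ∈ Reg` (`reg_fl`), box `ψ` at
  `z`, radius `ρ`. As `r ↦ fl (s c₀) (r t₀)` is continuous there is `r ∈ R` near `r₁` with
  `y = fl (s c₀) (r t₀) ∈ ψ.source`, `|(ψ y).2| < ρ/4`, `|(r₁ - r) t₀| < ρ/4`. For `(c,t)` near
  `(c₀, r₁ t₀)`: `Φ (c, r t₀) ∈ ψ.source` (`Φ` is continuous at `(c₀, r t₀)`),
  `|(ψ (Φ (c, r t₀))).2 + (t - r t₀)| < ρ`, so
  `Φ (c,t) = fl (Φ (c, r t₀)) (t - r t₀) = ψ.symm (c, (ψ (Φ (c, r t₀))).2 + t - r t₀)` (`fl_add`,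
  `flow`), which is holomorphic there.
So `1 ∈ R`.

`tube_loc`: box `ψ` at `z = Φ (c₀,t₀)`; by continuity for `(c,t)` near `(c₀,t₀)`:
`Φ (c,t₀) ∈ ψ.source` and `Φ (c,t) = fl (Φ (c,t₀)) (t - t₀)`, `g c = (ψ (Φ (c,t₀))).2 - t₀`. -/

namespace Pool.Agent.MP_fe3720.NF

open Set Topology Filter Metric Pool.Agent.MP_fe3720.NR

variable {Ω : Set E2} {f : E2 → ℂ} {V : E2 → E2} {w : E2 → E2 → ℂ}

private theorem step {c₀ t' : ℂ} {σ : ℂ → E2} {z : E2} {ρ : ℝ}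
    {ψ : OpenPartialHomeomorph E2 E2} (B : Box Ω f V z ρ ψ)
    (hσ : ∀ᶠ c in 𝓝 c₀, DifferentiableAt ℂ σ c) (hf : ∀ᶠ c in 𝓝 c₀, f (σ c) = c)
    (h0 : σ c₀ ∈ ψ.source) (h1 : (ψ (σ c₀)).2 + t' ∈ ball (0 : ℂ) ρ) :
    ∀ᶠ q : ℂ × ℂ in 𝓝 (c₀, t'), fl Ω V (σ q.1) q.2 ∈ ψ.source ∧
      ψ (fl Ω V (σ q.1) q.2) = (q.1, (ψ (σ q.1)).2 + q.2) ∧
      DifferentiableAt ℂ (fun q : ℂ × ℂ => fl Ω V (σ q.1) q.2) q := by
  have hfst : Tendsto (fun q : ℂ × ℂ => q.1) (𝓝 (c₀, t')) (𝓝 c₀) := continuousAt_fst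
  have hσc : ContinuousAt σ c₀ := hσ.self_of_nhds.continuousAt
  -- the points of the section are in the source
  have e1 : ∀ᶠ c in 𝓝 c₀, σ c ∈ ψ.source := hσc.eventually_mem (ψ.open_source.mem_nhds h0)
  -- differentiability of the coordinates
  have e2 : ∀ᶠ c in 𝓝 c₀, DifferentiableAt ℂ (fun c => ψ (σ c)) c := by
    filter_upwards [hσ, e1] with c hc hc'
    exact (B.chart.hol.differentiableAt (ψ.open_source.mem_nhds hc')).comp c hc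
  have e3 : ContinuousAt (fun q : ℂ × ℂ => (ψ (σ q.1)).2 + q.2) (c₀, t') := by
    have h2 : ContinuousAt (fun c => ψ (σ c)) c₀ := e2.self_of_nhds.continuousAt
    have h3 : ContinuousAt (fun q : ℂ × ℂ => ψ (σ q.1)) (c₀, t') :=
      ContinuousAt.comp (f := fun q : ℂ × ℂ => q.1) (g := fun c => ψ (σ c)) h2 continuousAt_fst
    exact h3.snd.add continuousAt_snd
  have e4 : ∀ᶠ q : ℂ × ℂ in 𝓝 (c₀, t'), (ψ (σ q.1)).2 + q.2 ∈ ball (0 : ℂ) ρ :=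
    e3.eventually_mem (isOpen_ball.mem_nhds h1)
  have e5 : ∀ᶠ q : ℂ × ℂ in 𝓝 (c₀, t'), fl Ω V (σ q.1) q.2 ∈ ψ.source ∧
      ψ (fl Ω V (σ q.1) q.2) = (q.1, (ψ (σ q.1)).2 + q.2) := by
    filter_upwards [e4, hfst.eventually e1, hfst.eventually hf] with q h4 h5 h6
    have h7 := B.flow (σ q.1) h5 q.2 h4
    rw [h6] at h7
    exact h7
  filter_upwards [e5, e5.eventually_nhds, hfst.eventually e2] with q h5 h6 h7
  refine ⟨h5.1, h5.2, ?_⟩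
  have h8 : (fun q : ℂ × ℂ => fl Ω V (σ q.1) q.2) =ᶠ[𝓝 q]
      fun q => ψ.symm (q.1, (ψ (σ q.1)).2 + q.2) := by
    filter_upwards [h6] with q' h9
    rw [← h9.2, ψ.left_inv h9.1]
  refine DifferentiableAt.congr_of_eventuallyEq ?_ h8
  have h9 : DifferentiableAt ℂ (fun q : ℂ × ℂ => (q.1, (ψ (σ q.1)).2 + q.2)) q := by
    have h10 : DifferentiableAt ℂ (fun q : ℂ × ℂ => ψ (σ q.1)) q :=
      DifferentiableAt.comp (f := fun q : ℂ × ℂ => q.1) (g := fun c => ψ (σ c)) q h7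
        differentiableAt_fst
    exact differentiableAt_fst.prodMk (h10.snd.add differentiableAt_snd)
  have h11 : (q.1, (ψ (σ q.1)).2 + q.2) ∈ ψ.target := by
    rw [← h5.2]
    exact ψ.map_source h5.1
  have h12 : DifferentiableAt ℂ ψ.symm (q.1, (ψ (σ q.1)).2 + q.2) :=
    B.chart.hols.differentiableAt (ψ.open_target.mem_nhds h11)
  exact DifferentiableAt.comp (f := fun q : ℂ × ℂ => (q.1, (ψ (σ q.1)).2 + q.2))
    (g := ψ.symm) q h12 h9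

private theorem tube_ev (F : Fol Ω f V w) {D : Set ℂ} {s : ℂ → E2} (S : Sec Ω f V D s) {c₀ : ℂ}
    (hc : c₀ ∈ D) (t₀ : ℂ) :
    ∀ᶠ q : ℂ × ℂ in 𝓝 (c₀, t₀), DifferentiableAt ℂ (fun p : ℂ × ℂ => fl Ω V (s p.1) p.2) q := by
  have hD : ∀ᶠ c in 𝓝 c₀, c ∈ D := S.isOpen.mem_nhds hc
  set W : Set ℂ := {t | ∀ᶠ q : ℂ × ℂ in 𝓝 (c₀, t),
    DifferentiableAt ℂ (fun p : ℂ × ℂ => fl Ω V (s p.1) p.2) q} with hW
  have hWo : IsOpen W := by
    rw [isOpen_iff_mem_nhds]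
    intro t ht
    have h1 : ∀ᶠ p : ℂ × ℂ in 𝓝 (c₀, t), ∀ᶠ q : ℂ × ℂ in 𝓝 p,
      DifferentiableAt ℂ (fun p : ℂ × ℂ => fl Ω V (s p.1) p.2) q := ht.eventually_nhds
    have h2 : Tendsto (fun t' : ℂ => (c₀, t')) (𝓝 t) (𝓝 (c₀, t)) :=
      (continuous_const.prodMk continuous_id).continuousAt
    exact h2.eventually h1
  have hW0 : (0 : ℂ) ∈ W := by
    obtain ⟨r, ψ, B, -⟩ := box_ex F (S.reg c₀ hc) univ_mem
    have h1 := step (t' := 0) (σ := s) B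
      (hD.mono fun c hc => S.hol.differentiableAt (S.isOpen.mem_nhds hc))
      (hD.mono fun c hc => S.fs c hc) B.chart.mem (by
        rw [B.chart.ctr, add_zero]
        exact mem_ball_self B.chart.pos)
    exact h1.mono fun q hq => hq.2.2
  have hWc : IsClosed W := by
    rw [← closure_subset_iff_isClosed]
    intro t₁ ht₁
    have hz := reg_fl F (S.reg c₀ hc) t₁
    obtain ⟨ρ, ψ, B, -⟩ := box_ex F hz univ_mem
    have hc1 : ContinuousAt (fl Ω V (s c₀)) t₁ := (fl_deriv F (S.reg c₀ hc).1 t₁).continuousAt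
    have hc2 : ContinuousAt (fun t => ψ (fl Ω V (s c₀) t)) t₁ :=
      ContinuousAt.comp (f := fl Ω V (s c₀)) (g := ψ) (ψ.continuousAt B.chart.mem) hc1
    have hc3 : ContinuousAt (fun t => (ψ (fl Ω V (s c₀) t)).2 + (t₁ - t)) t₁ :=
      hc2.snd.add (continuousAt_const.sub continuousAt_id)
    have e1 : ∀ᶠ t in 𝓝 t₁, fl Ω V (s c₀) t ∈ ψ.source :=
      hc1.eventually_mem (ψ.open_source.mem_nhds B.chart.mem)
    have e2 : ∀ᶠ t in 𝓝 t₁, (ψ (fl Ω V (s c₀) t)).2 + (t₁ - t) ∈ ball (0 : ℂ) ρ := by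
      refine hc3.eventually_mem (isOpen_ball.mem_nhds ?_)
      rw [B.chart.ctr, sub_self, add_zero]
      exact mem_ball_self B.chart.pos
    obtain ⟨τ, ⟨h1, h2⟩, hτ⟩ := mem_closure_iff_nhds.1 ht₁ _ (e1.and e2)
    have hpull : Tendsto (fun c : ℂ => (c, τ)) (𝓝 c₀) (𝓝 (c₀, τ)) :=
      (continuous_id.prodMk continuous_const).continuousAt
    have hσ : ∀ᶠ c in 𝓝 c₀, DifferentiableAt ℂ (fun c => fl Ω V (s c) τ) c := by
      filter_upwards [hpull.eventually hτ] with c hc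
      exact DifferentiableAt.comp (f := fun c : ℂ => (c, τ))
        (g := fun p : ℂ × ℂ => fl Ω V (s p.1) p.2) c hc
        (differentiableAt_id.prodMk (differentiableAt_const τ))
    have hf : ∀ᶠ c in 𝓝 c₀, f (fl Ω V (s c) τ) = c := by
      filter_upwards [hD] with c hc
      rw [f_fl F (S.reg c hc).1, S.fs c hc]
    have h3 := step (t' := t₁ - τ) (σ := fun c => fl Ω V (s c) τ) B hσ hf h1 h2
    have h4 : Tendsto (fun q : ℂ × ℂ => (q.1, q.2 - τ)) (𝓝 (c₀, t₁)) (𝓝 (c₀, t₁ - τ)) := by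
      have h5 : Continuous (fun q : ℂ × ℂ => (q.1, q.2 - τ)) := by fun_prop
      exact h5.continuousAt
    have h6 : ∀ᶠ q : ℂ × ℂ in 𝓝 (c₀, t₁), q.1 ∈ D :=
      (continuousAt_fst (p := (c₀, t₁))).eventually hD
    have h7 : ∀ᶠ q : ℂ × ℂ in 𝓝 (c₀, t₁), (fun p : ℂ × ℂ => fl Ω V (s p.1) p.2) =ᶠ[𝓝 q]
        fun p => fl Ω V (fl Ω V (s p.1) τ) (p.2 - τ) := by
      filter_upwards [h6.eventually_nhds] with q hq
      filter_upwards [hq] with p hp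
      rw [← fl_add F (S.reg p.1 hp).1, add_sub_cancel]
    change ∀ᶠ q : ℂ × ℂ in 𝓝 (c₀, t₁),
      DifferentiableAt ℂ (fun p : ℂ × ℂ => fl Ω V (s p.1) p.2) q
    filter_upwards [h4.eventually h3, h7] with q hq hq'
    refine DifferentiableAt.congr_of_eventuallyEq ?_ hq'
    have h8 : DifferentiableAt ℂ (fun q : ℂ × ℂ => (q.1, q.2 - τ)) q := by fun_prop
    exact DifferentiableAt.comp (f := fun q : ℂ × ℂ => (q.1, q.2 - τ))
      (g := fun p : ℂ × ℂ => fl Ω V (fl Ω V (s p.1) τ) p.2) q hq.2.2 h8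
  have hWu : W = univ := IsClopen.eq_univ ⟨hWc, hWo⟩ ⟨0, hW0⟩
  have : t₀ ∈ W := by rw [hWu]; exact mem_univ _
  exact this

theorem tube (F : Fol Ω f V w) {D : Set ℂ} {s : ℂ → E2} (S : Sec Ω f V D s) :
    DifferentiableOn ℂ (fun p : ℂ × ℂ => fl Ω V (s p.1) p.2) (D ×ˢ univ) := fun p hp =>
  (tube_ev F S hp.1 p.2).self_of_nhds.differentiableWithinAt

theorem tube_cont (F : Fol Ω f V w) {D : Set ℂ} {s : ℂ → E2} (S : Sec Ω f V D s) {c₀ t₀ : ℂ}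
    (hc : c₀ ∈ D) : ContinuousAt (fun p : ℂ × ℂ => fl Ω V (s p.1) p.2) (c₀, t₀) :=
  (tube_ev F S hc t₀).self_of_nhds.continuousAt

/-- in a box at `fl (s c₀) t₀` the flow is a translation -/
theorem tube_loc (F : Fol Ω f V w) {D : Set ℂ} {s : ℂ → E2} (S : Sec Ω f V D s) {c₀ t₀ : ℂ}
    (hc : c₀ ∈ D) {r : ℝ} {ψ : OpenPartialHomeomorph E2 E2}
    (B : Box Ω f V (fl Ω V (s c₀) t₀) r ψ) :
    ∃ g : ℂ → ℂ, AnalyticAt ℂ g c₀ ∧ g c₀ = - t₀ ∧ ∀ᶠ p : ℂ × ℂ in 𝓝 (c₀, t₀),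
      fl Ω V (s p.1) p.2 ∈ ψ.source ∧ ψ (fl Ω V (s p.1) p.2) = (p.1, g p.1 + p.2) := by
  have hD : ∀ᶠ c in 𝓝 c₀, c ∈ D := S.isOpen.mem_nhds hc
  have hpull : Tendsto (fun c : ℂ => (c, t₀)) (𝓝 c₀) (𝓝 (c₀, t₀)) :=
    (continuous_id.prodMk continuous_const).continuousAt
  have hσ : ∀ᶠ c in 𝓝 c₀, DifferentiableAt ℂ (fun c => fl Ω V (s c) t₀) c := by
    filter_upwards [hpull.eventually (tube_ev F S hc t₀)] with c hc
    exact DifferentiableAt.comp (f := fun c : ℂ => (c, t₀))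
      (g := fun p : ℂ × ℂ => fl Ω V (s p.1) p.2) c hc
      (differentiableAt_id.prodMk (differentiableAt_const t₀))
  have hf : ∀ᶠ c in 𝓝 c₀, f (fl Ω V (s c) t₀) = c := by
    filter_upwards [hD] with c hc
    rw [f_fl F (S.reg c hc).1, S.fs c hc]
  have e1 : ∀ᶠ c in 𝓝 c₀, fl Ω V (s c) t₀ ∈ ψ.source :=
    hσ.self_of_nhds.continuousAt.eventually_mem (ψ.open_source.mem_nhds B.chart.mem)
  have e2 : ∀ᶠ c in 𝓝 c₀, DifferentiableAt ℂ (fun c => (ψ (fl Ω V (s c) t₀)).2 - t₀) c := by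
    filter_upwards [hσ, e1] with c hc hc'
    have h1 : DifferentiableAt ℂ (fun c => ψ (fl Ω V (s c) t₀)) c :=
      DifferentiableAt.comp (f := fun c => fl Ω V (s c) t₀) (g := ψ) c
        (B.chart.hol.differentiableAt (ψ.open_source.mem_nhds hc')) hc
    exact h1.snd.sub_const t₀
  refine ⟨fun c => (ψ (fl Ω V (s c) t₀)).2 - t₀, Complex.analyticAt_iff_eventually_differentiableAt.2 e2,
    ?_, ?_⟩
  · simp only
    rw [B.chart.ctr, zero_sub]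
  · have h3 := step (t' := 0) (σ := fun c => fl Ω V (s c) t₀) B hσ hf B.chart.mem (by
      rw [B.chart.ctr, add_zero]
      exact mem_ball_self B.chart.pos)
    have h4 : Tendsto (fun q : ℂ × ℂ => (q.1, q.2 - t₀)) (𝓝 (c₀, t₀)) (𝓝 (c₀, 0)) := by
      have h5 : Continuous (fun q : ℂ × ℂ => (q.1, q.2 - t₀)) := by fun_prop
      have h6 := h5.continuousAt (x := (c₀, t₀))
      simpa [ContinuousAt] using h6
    have h6 : ∀ᶠ q : ℂ × ℂ in 𝓝 (c₀, t₀), q.1 ∈ D :=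
      (continuousAt_fst (p := (c₀, t₀))).eventually hD
    filter_upwards [h4.eventually h3, h6] with q hq hq'
    have h7 : fl Ω V (s q.1) q.2 = fl Ω V (fl Ω V (s q.1) t₀) (q.2 - t₀) := by
      rw [← fl_add F (S.reg q.1 hq').1, add_sub_cancel]
    rw [h7]
    refine ⟨hq.1, ?_⟩
    rw [hq.2.1]
    ext
    · rfl
    · simp only
      ring

end Pool.Agent.MP_fe3720.NF
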