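import Pool.Agent.Work.MP_fe3720_an.NF.IntEx
import Pool.Agent.Work.MP_fe3720_an.NF.Tube

/-! # Module Trans (helper90): transport of the integrals

PROOF. `Φ (c,t) = fl (s c) t`, continuous (`tube_cont`). For `r ∈ [0,1]` put `z_r = Φ (c₀, r t₀)`,
`A(r)`: for `(c,t)` near `(c₀, r t₀)`:
`G c t - G c₀ (r t₀) = (w z_r (Φ (c,t)) - w z_r z_r) - (w (s c₀) (s c) - w (s c₀) (s c₀))`.
* `A(0)`: `int_near` at `z = s c₀` with `S` a small ball (by continuity of `Φ` at `(c₀,0)` there are a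
  neighbourhood of `c₀` and a ball `S` with `Φ (c,t) ∈ N`); `G c₀ 0 = 0`, `z_0 = s c₀` (`fl_zero`).
* Step: let `r₁ ∈ [0,1]`, `z = z_{r₁}`. There is a neighbourhood `N` of `z` (`int_near`, shrunk so
  that for all `y ∈ N`: `w z - w y` is constant near `y`), a neighbourhood `C` of `c₀` and `δ > 0` with
  `Φ (c,t) ∈ N` for `c ∈ C`, `|t - r₁ t₀| < δ`. For such `c`, and `t, t'` in the ball:
  `G c t - G c t' = w z (Φ (c,t)) - w z (Φ (c,t'))` (`int_add` at the point `Φ (c,t')`, `int_near`). So if `r` is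
  near `r₁`: `A(r) ↔ A(r₁)`: in `A(r)` replace `w z_r` by `w z` (constant difference near `z_r`).
So `{r | A(r)}` is clopen in `[0,1]` and contains `0`. -/

namespace Pool.Agent.MP_fe3720.NF

open Set Topology Filter Metric Pool.Agent.MP_fe3720.NR

variable {Ω : Set E2} {f : E2 → ℂ} {V : E2 → E2} {w : E2 → E2 → ℂ}

theorem trans (F : Fol Ω f V w) {D : Set ℂ} {s : ℂ → E2} (S : Sec Ω f V D s) {c₀ : ℂ}
    (hc : c₀ ∈ D) (t₀ : ℂ) {G : ℂ → ℂ → ℂ} (hG : ∀ c ∈ D, IsInt Ω V w (s c) (G c)) :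
    ∀ᶠ p : ℂ × ℂ in 𝓝 (c₀, t₀), G p.1 p.2 - G c₀ t₀ =
      (w (fl Ω V (s c₀) t₀) (fl Ω V (s p.1) p.2) -
        w (fl Ω V (s c₀) t₀) (fl Ω V (s c₀) t₀)) -
      (w (s c₀) (s p.1) - w (s c₀) (s c₀)) := by
  have hΩ : ∀ c ∈ D, s c ∈ Ω := fun c hc => (S.reg c hc).1
  -- Claim 1
  have claim1 : ∀ t₀ : ℂ, ∃ ε > 0, ∃ N : Set E2, IsOpen N ∧ N ⊆ Ω ∧ fl Ω V (s c₀) t₀ ∈ N ∧
      Prm w N (w (fl Ω V (s c₀) t₀)) ∧ ∀ᶠ c in 𝓝 c₀, c ∈ D ∧ ∀ t ∈ ball t₀ ε,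
        fl Ω V (s c) t ∈ N ∧ ∀ t' ∈ ball t₀ ε, G c t - G c t' =
          w (fl Ω V (s c₀) t₀) (fl Ω V (s c) t) - w (fl Ω V (s c₀) t₀) (fl Ω V (s c) t') := by
    intro t₀
    obtain ⟨N, hNΩ, hN, hzN, hP⟩ := F.wls.prm F.isOpen (fl_mem F (hΩ c₀ hc) t₀)
    have hct : ContinuousAt (fun p : ℂ × ℂ => fl Ω V (s p.1) p.2) (c₀, t₀) := tube_cont F S hc
    have h1 : ∀ᶠ p : ℂ × ℂ in 𝓝 (c₀, t₀), fl Ω V (s p.1) p.2 ∈ N :=
      hct.eventually (hN.mem_nhds hzN)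
    rw [nhds_prod_eq] at h1
    obtain ⟨pa, hpa, pb, hpb, hab⟩ := Filter.eventually_prod_iff.mp h1
    obtain ⟨ε, hε, hball⟩ := Metric.eventually_nhds_iff_ball.mp hpb
    refine ⟨ε, hε, N, hN, hNΩ, hzN, hP, ?_⟩
    filter_upwards [hpa, S.isOpen.mem_nhds hc] with c hc1 hcD
    refine ⟨hcD, fun t ht => ⟨hab hc1 (hball t ht), fun t' ht' => ?_⟩⟩
    have h2 : Prm (fun t u => w (fl Ω V (s c) t) (fl Ω V (s c) u)) (ball t₀ ε) (G c) := by
      intro t _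
      exact nhdsWithin_le_nhds ((hG c hcD).2 t)
    have hcf : Continuous (fl Ω V (s c)) :=
      continuous_iff_continuousAt.mpr fun t => (fl_deriv F (hΩ c hcD) t).continuousAt
    have h3 : Prm (fun t u => w (fl Ω V (s c) t) (fl Ω V (s c) u)) (ball t₀ ε)
        (fun t => w (fl Ω V (s c₀) t₀) (fl Ω V (s c) t)) :=
      hP.comp hcf.continuousOn (fun t ht => hab hc1 (hball t ht))
    have h4 := h2.sub_const h3 (convex_ball t₀ ε).isPreconnected ht' ht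
    linear_combination h4
  -- Claim 2
  let E : ℂ → Prop := fun t => ∃ k, ∀ᶠ c in 𝓝 c₀,
    G c t - w (fl Ω V (s c₀) t) (fl Ω V (s c) t) + w (s c₀) (s c) = k
  have hE0 : E 0 := by
    refine ⟨0, ?_⟩
    filter_upwards [S.isOpen.mem_nhds hc] with c hcD
    rw [(hG c hcD).1, fl_zero F (hΩ c hcD), fl_zero F (hΩ c₀ hc)]
    ring
  have hEloc : ∀ t₀ ∈ (univ : Set ℂ), ∀ᶠ t₁ in 𝓝[univ] t₀, E t₁ = E t₀ := by
    intro t₀ _
    obtain ⟨ε, hε, N, hN, hNΩ, hzN, hP, hU⟩ := claim1 t₀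
    rw [nhdsWithin_univ]
    filter_upwards [Metric.ball_mem_nhds t₀ hε] with t₁ ht₁
    have hz₁ : fl Ω V (s c₀) t₁ ∈ N := (hU.self_of_nhds.2 t₁ ht₁).1
    have h1 := hP.sub_of_open hN hz₁
    have hct : ContinuousAt (fun c : ℂ => fl Ω V (s c) t₁) c₀ := by
      have h2 : ContinuousAt (fun p : ℂ × ℂ => fl Ω V (s p.1) p.2) (c₀, t₁) := tube_cont F S hc
      exact ContinuousAt.comp (f := fun c : ℂ => (c, t₁))
        (g := fun p : ℂ × ℂ => fl Ω V (s p.1) p.2) h2 (continuousAt_id.prodMk continuousAt_const)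
    have h3 := hct.eventually h1
    have h4 : ∀ᶠ c in 𝓝 c₀, G c t₁ - w (fl Ω V (s c₀) t₁) (fl Ω V (s c) t₁) + w (s c₀) (s c) =
        (G c t₀ - w (fl Ω V (s c₀) t₀) (fl Ω V (s c) t₀) + w (s c₀) (s c)) +
          (w (fl Ω V (s c₀) t₀) (fl Ω V (s c₀) t₁) -
            w (fl Ω V (s c₀) t₁) (fl Ω V (s c₀) t₁)) := by
      filter_upwards [h3, hU] with c hc3 hcU
      have h5 := (hcU.2 t₁ ht₁).2 t₀ (mem_ball_self hε)
      linear_combination h5 + hc3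
    apply propext
    constructor
    · rintro ⟨k, hk⟩
      refine ⟨k - (w (fl Ω V (s c₀) t₀) (fl Ω V (s c₀) t₁) -
        w (fl Ω V (s c₀) t₁) (fl Ω V (s c₀) t₁)), ?_⟩
      filter_upwards [hk, h4] with c hc1 hc2
      linear_combination hc1 - hc2
    · rintro ⟨k, hk⟩
      refine ⟨k + (w (fl Ω V (s c₀) t₀) (fl Ω V (s c₀) t₁) -
        w (fl Ω V (s c₀) t₁) (fl Ω V (s c₀) t₁)), ?_⟩
      filter_upwards [hk, h4] with c hc1 hc2
      linear_combination hc1 + hc2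
  have hE : E t₀ := by
    have := const_of_loc isPreconnected_univ (F := E) hEloc (mem_univ 0) (mem_univ t₀)
    rw [this]; exact hE0
  obtain ⟨k, hk⟩ := hE
  obtain ⟨ε, hε, N, hN, hNΩ, hzN, hP, hU⟩ := claim1 t₀
  have hkx := hk.self_of_nhds
  rw [nhds_prod_eq]
  filter_upwards [(hk.and hU).prod_mk (Metric.ball_mem_nhds t₀ hε)] with p hp
  obtain ⟨⟨h1, h2⟩, h3⟩ := hp
  have h4 := (h2.2 p.2 h3).2 t₀ (mem_ball_self hε)
  linear_combination h4 + h1 - hkx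

end Pool.Agent.MP_fe3720.NF
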