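import Pool.Agent.Work.MP_fe3720_an.NF.Defs
import Pool.Agent.Work.MP_fe3720_an.NF.Osg

/-! # Module Uniq: uniqueness of trajectories

Two curves `γ₁ γ₂` with `γ' = V(γ)` on an open preconnected set `S` of complex times, in the open
set `Ω` where `V` is holomorphic, which agree at one time of `S` agree on `S`.

PROOF. `{t ∈ S | γ₁ t = γ₂ t}` is relatively closed in `S` (continuity on `S`). It is open: let
`γ₁ t1 = γ₂ t1`. `V` is analytic (`osg`), so Lipschitz with a constant `K` on a ball around that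
point (`ContDiffAt.exists_lipschitzOnWith`). For `u` in a small ball around `t1` consider
`g_i(r) = γ_i (t1 + r (u - t1))`, `r ∈ [0,1]`: `g_i' = (u - t1) • V(g_i)`, a field with Lipschitz
constant `≤ K |u - t1|`; `ODE_solution_unique_of_mem_Icc_right` (or a variant in
`Mathlib/Analysis/ODE/ExistUnique.lean` or `Gronwall.lean`) gives `g₁ = g₂` on `[0,1]`, so
`γ₁ u = γ₂ u`. Conclude with `IsPreconnected.subset_of_closure_inter_subset` or the like. -/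

namespace Pool.Agent.MP_fe3720.NF

open Set Topology Filter Metric Pool.Agent.MP_fe3720.NR

private theorem uniq_local {Ω : Set E2} {V : E2 → E2} (hV : AnalyticOnNhd ℂ V Ω)
    {S : Set ℂ} (hS : IsOpen S) {γ₁ γ₂ : ℂ → E2}
    (h1 : ∀ t ∈ S, γ₁ t ∈ Ω ∧ HasDerivAt γ₁ (V (γ₁ t)) t)
    (h2 : ∀ t ∈ S, γ₂ t ∈ Ω ∧ HasDerivAt γ₂ (V (γ₂ t)) t)
    {t1 : ℂ} (ht1 : t1 ∈ S) (h0 : γ₁ t1 = γ₂ t1) : ∀ᶠ u in 𝓝 t1, γ₁ u = γ₂ u := by
  have hc : ContDiffAt ℂ 1 V (γ₁ t1) := (hV _ (h1 t1 ht1).1).contDiffAt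
  obtain ⟨K, s, hs, hK⟩ := hc.exists_lipschitzOnWith
  have e1 : ∀ᶠ u in 𝓝 t1, γ₁ u ∈ s := (h1 t1 ht1).2.continuousAt.eventually hs
  have e2 : ∀ᶠ u in 𝓝 t1, γ₂ u ∈ s := by
    rw [h0] at hs
    exact (h2 t1 ht1).2.continuousAt.eventually hs
  obtain ⟨ε, hε, hb⟩ := Metric.eventually_nhds_iff_ball.1 (e1.and (e2.and (hS.mem_nhds ht1)))
  refine Metric.eventually_nhds_iff_ball.2 ⟨ε, hε, fun u hu => ?_⟩
  have hmem : ∀ r : ℝ, r ∈ Icc (0 : ℝ) 1 → t1 + (r : ℂ) * (u - t1) ∈ ball t1 ε := by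
    intro r hr
    rw [mem_ball, dist_eq_norm, add_sub_cancel_left, norm_mul, Complex.norm_real, Real.norm_eq_abs,
      abs_of_nonneg hr.1]
    have h3 : ‖u - t1‖ < ε := by rwa [← dist_eq_norm]
    calc r * ‖u - t1‖ ≤ 1 * ‖u - t1‖ := by gcongr; exact hr.2
      _ < ε := by rwa [one_mul]
  have hlin : ∀ r : ℝ, HasDerivAt (fun r : ℝ => t1 + (r : ℂ) * (u - t1)) (u - t1) r := by
    intro r
    have h3 : HasDerivAt (fun r : ℝ => (r : ℂ)) 1 r := Complex.ofRealCLM.hasDerivAt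
    have h4 := (h3.mul_const (u - t1)).const_add t1
    rwa [one_mul] at h4
  have hder : ∀ {γ : ℂ → E2}, (∀ t ∈ S, γ t ∈ Ω ∧ HasDerivAt γ (V (γ t)) t) →
      ∀ r ∈ Icc (0 : ℝ) 1, HasDerivAt (fun r : ℝ => γ (t1 + (r : ℂ) * (u - t1)))
        ((u - t1) • V (γ (t1 + (r : ℂ) * (u - t1)))) r := by
    intro γ h r hr
    exact (h _ (hb _ (hmem r hr)).2.2).2.scomp r (hlin r)
  have hv : ∀ t ∈ Ico (0 : ℝ) 1, LipschitzOnWith (‖u - t1‖₊ * K) (fun x => (u - t1) • V x) s := by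
    intro t _
    refine LipschitzOnWith.of_dist_le_mul fun x hx y hy => ?_
    rw [dist_smul₀, NNReal.coe_mul, coe_nnnorm, mul_assoc]
    gcongr
    exact hK.dist_le_mul x hx y hy
  have hIcc : ∀ {r : ℝ}, r ∈ Ico (0 : ℝ) 1 → r ∈ Icc (0 : ℝ) 1 := fun h => ⟨h.1, h.2.le⟩
  have key := ODE_solution_unique_of_mem_Icc_right (v := fun _ x => (u - t1) • V x)
    (s := fun _ => s) (K := ‖u - t1‖₊ * K) (a := 0) (b := 1)
    (f := fun r : ℝ => γ₁ (t1 + (r : ℂ) * (u - t1))) (g := fun r : ℝ => γ₂ (t1 + (r : ℂ) * (u - t1)))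
    hv (fun r hr => (hder h1 r hr).continuousAt.continuousWithinAt)
    (fun r hr => (hder h1 r (hIcc hr)).hasDerivWithinAt)
    (fun r hr => (hb _ (hmem r (hIcc hr))).1)
    (fun r hr => (hder h2 r hr).continuousAt.continuousWithinAt)
    (fun r hr => (hder h2 r (hIcc hr)).hasDerivWithinAt)
    (fun r hr => (hb _ (hmem r (hIcc hr))).2.1)
    (by simpa using h0)
  have h5 := key (right_mem_Icc.2 zero_le_one)
  simpa using h5

theorem traj_eqOn {Ω : Set E2} {V : E2 → E2} (hΩ : IsOpen Ω) (hV : DifferentiableOn ℂ V Ω)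
    {S : Set ℂ} (hS : IsOpen S) (hSc : IsPreconnected S) {γ₁ γ₂ : ℂ → E2}
    (h1 : ∀ t ∈ S, γ₁ t ∈ Ω ∧ HasDerivAt γ₁ (V (γ₁ t)) t)
    (h2 : ∀ t ∈ S, γ₂ t ∈ Ω ∧ HasDerivAt γ₂ (V (γ₂ t)) t)
    {t0 : ℂ} (ht0 : t0 ∈ S) (h0 : γ₁ t0 = γ₂ t0) : EqOn γ₁ γ₂ S := by
  have han : AnalyticOnNhd ℂ V Ω := osg hΩ hV
  have hloc : ∀ t ∈ S, γ₁ t = γ₂ t → ∀ᶠ u in 𝓝 t, γ₁ u = γ₂ u := fun t ht h =>
    uniq_local han hS h1 h2 ht h
  have hsub : S ⊆ {t | ∀ᶠ x in 𝓝 t, γ₁ x = γ₂ x} := by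
    refine hSc.subset_of_closure_inter_subset isOpen_setOfPred_eventually_nhds
      ⟨t0, ht0, hloc t0 ht0 h0⟩ ?_
    rintro t ⟨ht, htS⟩
    refine hloc t htS ?_
    by_contra hne
    have h3 : ∀ᶠ x in 𝓝 t, γ₁ x ≠ γ₂ x := by
      have h4 : ContinuousAt (fun x => γ₁ x - γ₂ x) t :=
        (h1 t htS).2.continuousAt.sub (h2 t htS).2.continuousAt
      filter_upwards [h4.eventually_ne (sub_ne_zero.2 hne)] with x hx
      exact sub_ne_zero.1 hx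
    obtain ⟨x, hx1, hx2⟩ := (mem_closure_iff_frequently.1 ht).and_eventually h3 |>.exists
    exact hx2 hx1.self_of_nhds
  exact fun t ht => (hsub ht).self_of_nhds

end Pool.Agent.MP_fe3720.NF
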